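import Pool.Agent.H69.LQ.Targets

set_option autoImplicit false

/-!
# MP_8f7db2_an: local minimality of the ball in the measure of the symmetric difference

The second part: sets without a large inner ball (sets with holes). Blueprint:
`/team-store/H69_LQ1.md`.
-/

open MeasureTheory Metric Set
open scoped ENNReal

namespace Pool.Agent.H69.LQ

open Pool.Agent.H85.LK (E adm lam Ann)

/-! ### Definitions -/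

section

variable {N : ℕ}

/-- the partial derivative -/
noncomputable def pd (j : Fin N) (f : E N → ℝ) (x : E N) : ℝ :=
  fderiv ℝ f x (EuclideanSpace.single j 1)

/-- the scalar product of the gradients -/
noncomputable def gd (f g : E N → ℝ) (x : E N) : ℝ := ∑ j, pd j f x * pd j g x

/-- the divergence -/
noncomputable def dv (w : Fin N → E N → ℝ) (x : E N) : ℝ := ∑ i, pd i (w i) x

/-- the curl -/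
noncomputable def cu (w : Fin N → E N → ℝ) (i j : Fin N) (x : E N) : ℝ :=
  pd i (w j) x - pd j (w i) x

/-- the quadratic form of the inner ball -/
noncomputable def PP (L μ a : ℝ) (w : E N → ℝ) : ℝ :=
  (∫ x in ball (0 : E N) a, (‖fderiv ℝ w x‖ ^ 2 - μ ^ 2 * L * w x ^ 2)) -
    ar N * (dd N L 2 μ a * n2 (rs w a) + dd N L 3 μ a * n3 (rs w a))

/-- the square of the norm in `H¹` of the ball -/
noncomputable def HH (a : ℝ) (w : E N → ℝ) : ℝ :=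
  ∫ x in ball (0 : E N) a, (‖fderiv ℝ w x‖ ^ 2 + w x ^ 2)

/-- the difference from the eigenfunction -/
noncomputable def wT (L : ℝ) (T : E N) (v : E N → ℝ) (x : E N) : ℝ := v x - gT L T x

/-- the unit vectors -/
noncomputable def ee (i : Fin N) : E N := EuclideanSpace.single i (1 : ℝ)

/-- the gradient of the Newton kernel -/
noncomputable def kn (i : Fin N) (z : E N) : ℝ := z i / (ar N * ‖z‖ ^ N)

/-- the gradient of the Newton potential of `f` -/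
noncomputable def KV (f : E N → ℝ) (i : Fin N) (x : E N) : ℝ := ∫ y, kn i y * f (x - y)

end

/-! ### A. Small rows -/

/-- (QN) the normal derivative of the eigenfunction is small. -/
def T_QN : Prop := ∀ (N : ℕ) (L : ℝ), 2 ≤ N → Fz N L → dph N L 1 1 ^ 2 < (N : ℝ) ^ 2

/-- (PG) pigeonhole. -/
def T_PG : Prop := ∀ ε G : ℝ, 0 < ε → ∃ M : ℕ, 2 ≤ M ∧ ∀ b : ℕ → ℝ, (∀ i, 0 ≤ b i) →
  (∀ i, b (i + 1) ≤ b i) → (∃ i, i + 2 ≤ M ∧ b i ≤ (1 + ε) * b (i + 2)) ∨ G * b M ≤ b 0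

/-- (DC) the divergence and the curl. -/
def T_DC : Prop := ∀ (N : ℕ) (w ξ : Fin N → E N → ℝ), (∀ i, ContDiff ℝ (⊤ : ℕ∞) (w i)) →
  (∀ i, ContDiff ℝ (⊤ : ℕ∞) (ξ i) ∧ HasCompactSupport (ξ i)) →
  ∑ i, ∫ x, gd (w i) (ξ i) x =
    (∫ x, dv w x * dv ξ x) + 1 / 2 * ∑ i, ∑ j, ∫ x, cu w i j x * cu ξ i j x

/-- (SF) smooth functions equal to `1` on a compact set, with small integral. -/
def T_SF : Prop := ∀ (N : ℕ) (K G : Set (E N)) (η : ℝ), IsCompact K → IsOpen G → K ⊆ G → 0 < η →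
  ∃ f : E N → ℝ, ContDiff ℝ (⊤ : ℕ∞) f ∧ HasCompactSupport f ∧ tsupport f ⊆ G ∧
    (∀ x, 0 ≤ f x ∧ f x ≤ 1) ∧ (∀ x ∈ K, f x = 1) ∧ ∫ x, f x ≤ volume.real K + η

/-- (BT) balls with close centres. -/
def T_BT : Prop := ∀ (N : ℕ) (s : ℝ), 2 ≤ N → 0 < s → ∃ ε : ℝ, 0 < ε ∧ ∀ o c : E N, ‖o - c‖ ≤ ε →
  volume.real (symmDiff (ball c 1) (ball o 1)) ≤ s

/-- (CE1) the centre. -/
def T_CE1 : Prop := ∀ (N : ℕ) (ε : ℝ), 2 ≤ N → 0 < ε → ∃ κ : ℝ, 0 < κ ∧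
  ∀ (Ω : Set (E N)) (c : E N), IsOpen Ω → volume Ω = volume (ball (0 : E N) 1) →
    volume.real (symmDiff Ω (ball c 1)) ≤ κ → ∃ o : E N, ‖o - c‖ ≤ ε ∧
      ∀ i, ∫ x in Ω, (x i - o i) * Real.exp (-‖x - o‖ ^ 2) = 0

/-! ### B. Volumes -/

/-- (VA) the volume and the first exit. -/
def T_VA : Prop := ∀ (N : ℕ) (Ω : Set (E N)) (a b : ℝ) (R : Sp N → ℝ), 2 ≤ N → 0 < a → a < b →
  IsOpen Ω → volume Ω ≠ ⊤ → Ex Ω a b R →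
  volume.real (ball (0 : E N) 1) * av (fun θ => R θ ^ N) + volume.real (Ω \ ball (0 : E N) b) ≤
    volume.real Ω

/-- (VB) the missing part of the unit ball. -/
def T_VB : Prop := ∀ (N : ℕ) (Ω : Set (E N)) (a b : ℝ) (R : Sp N → ℝ), 2 ≤ N → 0 < a → a < b →
  1 ≤ b → IsOpen Ω → Ex Ω a b R →
  volume.real (ball (0 : E N) 1 \ Ω) ≤
    volume.real (ball (0 : E N) 1) * av (fun θ => |R θ ^ N - 1|)

/-- (VC) the centre and the first exit. -/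
def T_VC : Prop := ∀ (N : ℕ) (Ω : Set (E N)) (a b : ℝ) (R : Sp N → ℝ), 2 ≤ N → 0 < a → a < b →
  IsOpen Ω → volume Ω ≠ ⊤ → Ex Ω a b R →
  ∀ i, |N * volume.real (ball (0 : E N) 1) * av (fun θ => (qq N (R θ) - qq N 1) * (θ : E N) i) -
      ∫ x in Ω, x i * Real.exp (-‖x‖ ^ 2)| ≤
    volume.real Ω - volume.real (ball (0 : E N) 1) * av (fun θ => R θ ^ N)

/-- (VD) holes inside the unit ball and the first exit. -/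
def T_VD : Prop := ∀ (N : ℕ) (Ω : Set (E N)) (a b ρ : ℝ) (R : Sp N → ℝ), 2 ≤ N → 0 < a → a < b →
  ρ ≤ 1 → ρ ≤ b → 0 < ρ → IsOpen Ω → Ex Ω a b R →
  (1 - ρ) ^ 2 * volume.real (ball (0 : E N) ρ \ Ω) ≤
    volume.real (ball (0 : E N) 1) * av (fun θ => (R θ - 1) ^ 2)

/-! ### C. The inner ball -/

/-- (GQ) the energy of the eigenfunction. -/
def T_GQ : Prop := ∀ (N : ℕ) (L a : ℝ) (T : E N), 2 ≤ N → 0 < a →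
  ContDiff ℝ (⊤ : ℕ∞) (gT L T : E N → ℝ) ∧
  ∫ x in ball (0 : E N) a, (‖fderiv ℝ (gT L T) x‖ ^ 2 - L * gT L T x ^ 2) =
    ar N * (a ^ (N - 1) * (dph N L 1 a * ph N L 1 a) * (‖T‖ ^ 2 / N))

/-- (I3) positivity of the form and splitting of the energy. -/
def T_I3 : Prop := ∀ (N : ℕ) (L r₁ μ a : ℝ), 2 ≤ N → Fz N L → Z0 N L r₁ → 1 ≤ μ → r₁ / μ < a →
  μ * a < 1 →
  (∀ w : E N → ℝ, ContDiff ℝ (⊤ : ℕ∞) w → av (rs w (r₁ / μ)) = 0 → (∀ j, c1 (rs w a) j = 0) →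
    0 ≤ PP L μ a w) ∧
  ∀ (v : E N → ℝ) (T : E N), ContDiff ℝ (⊤ : ℕ∞) v → av (rs v (r₁ / μ)) = 0 →
    (∀ j, c1 (rs v a) j = T j * ph N L 1 a) →
    ContDiff ℝ (⊤ : ℕ∞) (wT L T v) ∧ av (rs (wT L T v) (r₁ / μ)) = 0 ∧
    (∀ j, c1 (rs (wT L T v) a) j = 0) ∧ n2 (rs (wT L T v) a) = n2 (rs v a) ∧
    n3 (rs (wT L T v) a) = n3 (rs v a) ∧
    ∫ x in ball (0 : E N) a, (‖fderiv ℝ v x‖ ^ 2 - L * v x ^ 2) =
      ar N * (a ^ (N - 1) * (dph N L 1 a * ph N L 1 a) * (‖T‖ ^ 2 / N)) +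
        ∫ x in ball (0 : E N) a, (‖fderiv ℝ (wT L T v) x‖ ^ 2 - L * wT L T v x ^ 2)

/-- (PX) the form of a difference. -/
def T_PX : Prop := ∀ (N : ℕ) (L μ a r : ℝ) (w ζ : E N → ℝ), 2 ≤ N → 0 < r → r < a →
  ContDiff ℝ (⊤ : ℕ∞) w → ContDiff ℝ (⊤ : ℕ∞) ζ → (∀ x, r ≤ ‖x‖ → ζ x = 0) →
  PP L μ a (fun x => w x - ζ x) = PP L μ a w -
    2 * ((∫ x, gd w ζ x) - μ ^ 2 * L * ∫ x, w x * ζ x) +
    ((∫ x, gd ζ ζ x) - μ ^ 2 * L * ∫ x, ζ x ^ 2)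

/-! ### D. The Newton potential -/

/-- (K1) the kernel. -/
def T_K1 : Prop := ∀ N : ℕ, 2 ≤ N →
  (∀ (i : Fin N) (z : E N), |kn i z| ≤ (ar N)⁻¹ * (‖z‖ ^ (N - 1))⁻¹) ∧
  (∀ i : Fin N, Measurable (kn i)) ∧
  ∀ R : ℝ, 0 < R → IntegrableOn (fun z : E N => (‖z‖ ^ (N - 1))⁻¹) (ball 0 R) ∧
    ∫ z in ball (0 : E N) R, (‖z‖ ^ (N - 1))⁻¹ = ar N * R

/-- (K2) smoothness of the field. -/
def T_K2 : Prop := ∀ (N : ℕ) (f : E N → ℝ) (i : Fin N), 2 ≤ N → ContDiff ℝ (⊤ : ℕ∞) f →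
  HasCompactSupport f → ContDiff ℝ (⊤ : ℕ∞) (KV f i) ∧
    ∀ (j : Fin N) (x : E N), Integrable (fun y => kn i y * pd j f (x - y)) ∧
      pd j (KV f i) x = ∫ y, kn i y * pd j f (x - y)

/-- (K3) the divergence of the field. -/
def T_K3 : Prop := ∀ (N : ℕ) (f : E N → ℝ) (x : E N), 2 ≤ N → ContDiff ℝ (⊤ : ℕ∞) f →
  HasCompactSupport f → dv (KV f) x = f x

/-- (K4) the curl of the field. -/
def T_K4 : Prop := ∀ (N : ℕ) (f : E N → ℝ) (x : E N) (i j : Fin N), 2 ≤ N →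
  ContDiff ℝ (⊤ : ℕ∞) f → HasCompactSupport f → pd i (KV f j) x = pd j (KV f i) x

/-- (K5) bounds for the field. -/
def T_K5 : Prop := ∀ N : ℕ, 2 ≤ N → ∃ C : ℝ, 0 < C ∧ ∀ f : E N → ℝ, ContDiff ℝ (⊤ : ℕ∞) f →
  HasCompactSupport f → (∀ x, 0 ≤ f x ∧ f x ≤ 1) →
  (∀ (i : Fin N) (x : E N) (ρ : ℝ), 0 < ρ → |KV f i x| ≤ C * (ρ + (∫ y, f y) / ρ ^ (N - 1))) ∧
  (∀ (i : Fin N) (x : E N) (ρ : ℝ), 0 < ρ → (∀ y, f y ≠ 0 → ρ ≤ ‖x - y‖) →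
    |KV f i x| ≤ C * ((∫ y, f y) / ρ ^ (N - 1))) ∧
  ((∀ x, 1 ≤ ‖x‖ → f x = 0) → ∀ i : Fin N,
    ∫ x in ball (0 : E N) 1, |KV f i x| ≤ C * ∫ y, f y)

/-- (XI) the field with a cutoff. -/
def T_XI : Prop := ∀ (N : ℕ) (r₀ r₂ s : ℝ), 2 ≤ N → 0 < r₀ → 2 * r₀ < r₂ → r₂ ≤ 1 → 0 < s →
  ∃ κ C : ℝ, 0 < κ ∧ 0 < C ∧ ∀ f : E N → ℝ, ContDiff ℝ (⊤ : ℕ∞) f →
    (∀ x, 0 ≤ f x ∧ f x ≤ 1) → (∀ x, 3 / 2 * r₀ ≤ ‖x‖ → f x = 0) → ∫ x, f x ≤ κ →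
    ∃ ξ : Fin N → E N → ℝ, (∀ i, ContDiff ℝ (⊤ : ℕ∞) (ξ i) ∧ ∀ x, (2 * r₀ + r₂) / 2 ≤ ‖x‖ →
        ξ i x = 0) ∧
      (∀ x, |dv ξ x - f x| ≤ C * ∫ y, f y) ∧ (∀ x, (dv ξ x - f x) * f x = 0) ∧
      (∀ i j x, |cu ξ i j x| ≤ C * ∫ y, f y) ∧ ∑ i, ∫ x, ξ i x ^ 2 ≤ s * ∫ y, f y

/-! ### E. The gain from the holes -/

/-- (H0) holes near the centre. -/
def T_H0 : Prop := ∀ (N : ℕ) (L r₁ μ a s t : ℝ), 2 ≤ N → Fz N L → Z0 N L r₁ → 1 ≤ μ →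
  r₁ / μ < a → μ * a < 1 → 0 < s → 0 < t → ∃ r₀ κ : ℝ, 0 < r₀ ∧ 0 < κ ∧
    ∀ (K G : Set (E N)) (w : Fin N → E N → ℝ), IsClosed K → K ⊆ closedBall 0 r₀ →
      volume K ≤ ENNReal.ofReal κ → IsOpen G → K ⊆ G →
      (∀ i, ContDiff ℝ (⊤ : ℕ∞) (w i) ∧ av (rs (w i) (r₁ / μ)) = 0 ∧
        (∀ j, c1 (rs (w i) a) j = 0) ∧ ∀ x ∈ G, w i x = -gT L (ee i) x) →
      ((N : ℝ) ^ 2 - s) * volume.real K ≤ ∑ i, (PP L μ a (w i) + t * HH a (w i))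

/-- (HS) the gain for one function. -/
def T_HS : Prop := ∀ (N : ℕ) (m a τ A t : ℝ), 2 ≤ N → 0 < m → 0 < τ → 0 < A → 0 < t →
  ∃ κ : ℝ, 0 < κ ∧ ∀ (K : Set (E N)) (w : E N → ℝ), MeasurableSet K → K ⊆ ball 0 (a - τ) →
    volume K ≤ ENNReal.ofReal κ → ContDiff ℝ (⊤ : ℕ∞) w → (∀ x ∈ K, m ≤ |w x|) →
    A * volume.real K ≤ t * HH a w

/-- (H1) holes away from the centre. -/
def T_H1 : Prop := ∀ (N : ℕ) (L r₀ a τ A t : ℝ), 2 ≤ N → Fz N L → 0 < r₀ → a < 1 → 0 < τ →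
  0 < A → 0 < t → ∃ κ : ℝ, 0 < κ ∧ ∀ (K : Set (E N)) (w : Fin N → E N → ℝ), MeasurableSet K →
    K ⊆ ball 0 (a - τ) \ ball 0 r₀ → volume K ≤ ENNReal.ofReal κ →
    (∀ i, ContDiff ℝ (⊤ : ℕ∞) (w i) ∧ ∀ x ∈ K, w i x = -gT L (ee i) x) →
    A * volume.real K ≤ t * ∑ i, HH a (w i)

/-- (HG) the gain from the holes. -/
def T_HG : Prop := ∀ (N : ℕ) (L r₁ μ a τ s t : ℝ), 2 ≤ N → Fz N L → Z0 N L r₁ → 1 ≤ μ →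
  r₁ / μ < a → μ * a < 1 → 0 < τ → 0 < s → 0 < t → ∃ κ : ℝ, 0 < κ ∧
    ∀ (Ω : Set (E N)) (v : Fin N → E N → ℝ), IsOpen Ω →
      volume (ball (0 : E N) a \ Ω) ≤ ENNReal.ofReal κ →
      (∀ i, ContDiff ℝ (⊤ : ℕ∞) (v i) ∧ HasCompactSupport (v i) ∧ tsupport (v i) ⊆ Ω ∧
        av (rs (v i) (r₁ / μ)) = 0 ∧ ∀ j, c1 (rs (v i) a) j = ee i j * ph N L 1 a) →
      ((N : ℝ) ^ 2 - s) * volume.real (ball (0 : E N) (a - τ) \ Ω) ≤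
        ∑ i, (PP L μ a (wT L (ee i) (v i)) + t * HH a (wT L (ee i) (v i)))

/-! ### F. The main inequality -/

/-- (SA1) estimates for `p (R)`. -/
def T_SA1 : Prop := ∀ (N : ℕ) (L : ℝ), 2 ≤ N → Fz N L → ∃ C c δ₀ : ℝ, 0 < C ∧ 0 < c ∧ 0 < δ₀ ∧
  δ₀ ≤ 1 / 20 ∧ ∀ (δ H : ℝ) (R : Sp N → ℝ), 0 < δ → δ ≤ δ₀ → 0 ≤ H → H ≤ δ → Measurable R →
    (∀ θ, 1 - δ < R θ ∧ R θ ≤ 1 + 5 * δ) → 0 ≤ 1 + H - av (fun θ => R θ ^ N) →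
    (∀ i, |av (fun θ => (qq N (R θ) - qq N 1) * (θ : E N) i)| ≤
      1 + 2 * H - av (fun θ => R θ ^ N)) →
    av (fun θ => ph N L 1 (R θ)) ^ 2 + ∑ j, av (fun θ => ph N L 1 (R θ) * (θ : E N) j) ^ 2 ≤
      C * δ * ((1 + 2 * H - av (fun θ => R θ ^ N)) + av (fun θ => (R θ - 1) ^ 2)) ∧
    dph N L 1 1 ^ 2 / N * (1 - av (fun θ => R θ ^ N)) +
      ((N : ℝ) - 1) * av (fun θ => ph N L 1 (R θ) ^ 2) -
      C * δ * av (fun θ => (R θ - 1) ^ 2) ≤ av (fun θ => ff N L (R θ)) ∧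
    c * av (fun θ => (R θ - 1) ^ 2) ≤ av (fun θ => ph N L 1 (R θ) ^ 2) ∧
    av (fun θ => ph N L 1 (R θ) ^ 2) ≤ C * av (fun θ => (R θ - 1) ^ 2)

/-- (SU1) the sum over the directions. -/
def T_SU1 : Prop := ∀ (N : ℕ) (L : ℝ), 2 ≤ N → Fz N L → ∀ C s₀ : ℝ, 0 < C → 0 < s₀ →
  ∃ c s δ₀ : ℝ, 0 < c ∧ 0 < s ∧ 0 < δ₀ ∧ δ₀ ≤ 1 / 20 ∧
    ∀ (δ d₂ d₃ H : ℝ) (R : Sp N → ℝ) (ω e : Fin N → Sp N → ℝ), 0 < δ → δ ≤ δ₀ → 0 ≤ H →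
      H ≤ δ → -(N : ℝ) - s ≤ d₂ → (L / ((N : ℝ) + 2) - ((N : ℝ) + 1)) - s ≤ d₃ →
      Measurable R → (∀ θ, 1 - δ < R θ ∧ R θ ≤ 1 + 5 * δ) →
      (∀ i, BM (ω i) ∧ BM (e i) ∧
        (∀ θ, (ω i θ + (θ : E N) i * ph N L 1 (R θ)) ^ 2 ≤ 6 * δ * e i θ) ∧
        ∀ j, av (fun θ => ω i θ * (θ : E N) j) = 0) →
      0 ≤ 1 + H - av (fun θ => R θ ^ N) →
      (∀ i, |av (fun θ => (qq N (R θ) - qq N 1) * (θ : E N) i)| ≤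
        1 + 2 * H - av (fun θ => R θ ^ N)) →
      c * ((1 + H - av (fun θ => R θ ^ N)) + av (fun θ => (R θ - 1) ^ 2)) -
          (1 + s₀) * (dph N L 1 1 ^ 2 / N) * H ≤
        ∑ i, (av (fun θ => (θ : E N) i ^ 2 * ff N L (R θ)) + d₂ * n2 (ω i) + d₃ * n3 (ω i) +
          1 / 2 * av (e i) - C * δ * av (fun θ => ω i θ ^ 2) -
          C * δ * av (fun θ => (R θ - 1) ^ 2))

/-- (EN1) the inequality for one function, with the form of the inner ball. -/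
def T_EN1 : Prop := ∀ (N : ℕ) (L r₁ : ℝ), 2 ≤ N → Fz N L → Z0 N L r₁ →
  ∃ C δ₀ : ℝ, 0 < C ∧ 0 < δ₀ ∧ δ₀ ≤ 1 / 20 ∧ r₁ < 1 - δ₀ ∧ ∀ δ s : ℝ, 0 < δ → δ ≤ δ₀ → 0 < s →
    s ≤ 1 → ∃ κ c : ℝ, 0 < κ ∧ 0 < c ∧ ∀ (Ω : Set (E N)) (R : Sp N → ℝ) (v : E N → ℝ) (T : E N),
      IsOpen Ω → volume (Ω \ closedBall 0 (1 + δ / 2)) ≤ ENNReal.ofReal κ →
      Ex Ω (1 - δ) (1 + 5 * δ) R → ContDiff ℝ (⊤ : ℕ∞) v → HasCompactSupport v →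
      tsupport v ⊆ Ω → av (rs v (r₁ / (1 + δ / 2))) = 0 →
      (∀ j, c1 (rs v (1 - δ)) j = T j * ph N L 1 (1 - δ)) →
      ∃ (e : Sp N → ℝ) (W : ℝ), BM e ∧ (∀ θ, 0 ≤ e θ) ∧ 0 ≤ W ∧
        (∀ θ, (rs v (1 - δ) θ - inner ℝ T (θ : E N) * ph N L 1 (1 - δ) +
          inner ℝ T (θ : E N) * ph N L 1 (R θ)) ^ 2 ≤ 6 * δ * e θ) ∧
        ∫ x, v x ^ 2 ≤ C * ‖T‖ ^ 2 + 2 * W ∧
        ar N * (av (fun θ => inner ℝ T (θ : E N) ^ 2 * ff N L (R θ)) +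
          dd N L 2 (1 + δ / 2) (1 - δ) * n2 (rs v (1 - δ)) +
          dd N L 3 (1 + δ / 2) (1 - δ) * n3 (rs v (1 - δ)) + 1 / 2 * av e -
          C * δ * av (fun θ => (rs v (1 - δ) θ - inner ℝ T (θ : E N) * ph N L 1 (1 - δ)) ^ 2) -
          C * δ * ‖T‖ ^ 2 * av (fun θ => (R θ - 1) ^ 2)) + c * W +
          (1 - s) * PP L (1 + δ / 2) (1 - δ) (wT L T v) + c * HH (1 - δ) (wT L T v) ≤
        (∫ x, ‖fderiv ℝ v x‖ ^ 2) - L * ∫ x, v x ^ 2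

/-- (CS) the inequality with the inner radius `1 - δ`, holes filled in the ball of radius `ρ`. -/
def T_CS : Prop := ∀ (N : ℕ) (L s : ℝ), 2 ≤ N → Fz N L → 0 < s → s ≤ 1 →
  ∃ c δ₀ : ℝ, 0 < c ∧ 0 < δ₀ ∧ δ₀ ≤ 1 / 20 ∧ ∀ δ τ : ℝ, 0 < δ → δ ≤ δ₀ → 0 < τ →
    ∃ κ C : ℝ, 0 < κ ∧ 0 < C ∧ ∀ (Ω : Set (E N)) (ρ γ : ℝ), IsOpen Ω →
      volume Ω = volume (ball (0 : E N) 1) →
      volume.real (symmDiff Ω (ball (0 : E N) 1)) ≤ κ →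
      (∀ i, ∫ x in Ω, x i * Real.exp (-‖x‖ ^ 2) = 0) → 1 - δ < ρ → ρ ≤ 1 →
      γ ∈ adm N (N + 1) Ω → γ ≤ L + κ →
      ∃ R, Ex (Ω ∪ ball (0 : E N) ρ) (1 - δ) (1 + 5 * δ) R ∧
        c * ((1 + volume.real (ball (0 : E N) ρ \ Ω) / volume.real (ball (0 : E N) 1) -
            av (fun θ => R θ ^ N)) + av (fun θ => (R θ - 1) ^ 2)) +
          (1 - s) * (N : ℝ) ^ 2 * volume.real (ball (0 : E N) (1 - δ - τ) \ Ω) -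
          (1 + s) * dph N L 1 1 ^ 2 * volume.real (ball (0 : E N) ρ \ Ω) ≤ C * (γ - L)

/-- (CR1) the theorem for centred sets. -/
def T_CR1 : Prop := ∀ (N : ℕ) (L ε : ℝ), 2 ≤ N → Fz N L → 0 < ε → ∃ κ c : ℝ, 0 < κ ∧ 0 < c ∧
  ∀ (Ω : Set (E N)) (γ : ℝ), IsOpen Ω → volume Ω = volume (ball (0 : E N) 1) →
    volume.real (symmDiff Ω (ball (0 : E N) 1)) ≤ κ →
    (∀ i, ∫ x in Ω, x i * Real.exp (-‖x‖ ^ 2) = 0) → γ ∈ adm N (N + 1) Ω →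
    L + c * volume.real (symmDiff Ω (ball (0 : E N) 1)) ^ 2 +
      c * volume.real (symmDiff Ω (ball (0 : E N) 1) ∩ {x | ε ≤ |‖x‖ - 1|}) ≤ γ

/-- (LQ1) the theorem. -/
def T_LQ1 : Prop := ∀ (N : ℕ) (ε : ℝ), 2 ≤ N → 0 < ε → ∃ κ c : ℝ, 0 < κ ∧ 0 < c ∧
  ∀ (r : ℝ) (z : E N) (Ω : Set (E N)), 0 < r → IsOpen Ω →
    volume Ω = volume (ball (0 : E N) r) →
    volume.real (symmDiff Ω (ball z r)) ≤ κ * volume.real (ball (0 : E N) r) →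
    ∃ o : E N, lam N (N + 1) (ball (0 : E N) r) *
      (1 + c * (volume.real (symmDiff Ω (ball o r)) / volume.real (ball (0 : E N) r)) ^ 2 +
        c * (volume.real (symmDiff Ω (ball o r) ∩ {x | ε * r ≤ |‖x - o‖ - r|}) /
          volume.real (ball (0 : E N) r))) ≤
        lam N (N + 1) Ω

end Pool.Agent.H69.LQ
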