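import Pool.Agent.H69.LQ.CS

/-!
# LQ1, row CR1: the theorem for centred sets
-/

set_option autoImplicit false

open MeasureTheory Metric Set
open scoped ENNReal

namespace Pool.Agent.H69.LQ

open Pool.Agent.H85.LK (E adm lam Ann)

theorem unif (P : ℕ → ℝ → ℝ → Prop)
    (hmono : ∀ i κ κ' C C', κ' ≤ κ → C ≤ C' → P i κ C → P i κ' C') (n : ℕ)
    (h : ∀ i ≤ n, ∃ κ C : ℝ, 0 < κ ∧ 0 < C ∧ P i κ C) :
    ∃ κ C : ℝ, 0 < κ ∧ 0 < C ∧ ∀ i ≤ n, P i κ C := by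
  induction n with
  | zero =>
    obtain ⟨κ, C, h1, h2, h3⟩ := h 0 le_rfl
    refine ⟨κ, C, h1, h2, fun i hi => ?_⟩
    have : i = 0 := by omega
    rw [this]; exact h3
  | succ n ih =>
    obtain ⟨κ, C, h1, h2, h3⟩ := ih fun i hi => h i (by omega)
    obtain ⟨κ', C', h1', h2', h3'⟩ := h (n + 1) le_rfl
    refine ⟨min κ κ', max C C', lt_min h1 h1', lt_max_of_lt_left h2, fun i hi => ?_⟩
    rcases Nat.lt_or_ge i (n + 1) with h4 | h4
    · exact hmono i _ _ _ _ (min_le_left _ _) (le_max_left _ _) (h3 i (by omega))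
    · have : i = n + 1 := by omega
      rw [this]
      exact hmono _ _ _ _ _ (min_le_right _ _) (le_max_right _ _) h3'

/-- the volumes -/
theorem cr1_vol (hMP : T_MP) (hMO : T_MO) (hAS : T_AS) (hVA : T_VA) (hVB : T_VB) (N : ℕ) (L : ℝ)
    (hN : 2 ≤ N) (hFz : Fz N L) : ∃ B₀ δ₀ : ℝ, 0 < B₀ ∧ 0 < δ₀ ∧
    ∀ (Ω : Set (E N)) (δ ρ ε : ℝ) (R : Sp N → ℝ), 0 < δ → δ ≤ δ₀ → δ ≤ 1 / 20 → 5 * δ ≤ ε →
      1 - ε < ρ → ρ ≤ 1 → IsOpen Ω → volume Ω = volume (ball (0 : E N) 1) →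
      Ex (Ω ∪ ball (0 : E N) ρ) (1 - δ) (1 + 5 * δ) R →
      0 ≤ 1 + volume.real (ball (0 : E N) ρ \ Ω) / volume.real (ball (0 : E N) 1) -
        av (fun θ => R θ ^ N) ∧
      volume.real (symmDiff Ω (ball (0 : E N) 1)) ^ 2 +
        volume.real (symmDiff Ω (ball (0 : E N) 1) ∩ {x | ε ≤ |‖x‖ - 1|}) ≤
        B₀ * ((1 + volume.real (ball (0 : E N) ρ \ Ω) / volume.real (ball (0 : E N) 1) -
            av (fun θ => R θ ^ N)) + av (fun θ => (R θ - 1) ^ 2) +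
          volume.real (ball (0 : E N) ρ \ Ω)) := by
  haveI : Nonempty (Fin N) := ⟨⟨0, by omega⟩⟩
  obtain ⟨CA, δA, hCA, hδA, hδA', hASx⟩ := hAS N L hN hFz
  obtain ⟨hprob, har, harN, -⟩ := hMP N hN
  obtain ⟨V₀, hV₀⟩ : ∃ V₀ : ℝ, V₀ = volume.real (ball (0 : E N) 1) := ⟨_, rfl⟩
  have hV₀0 : 0 < V₀ := by
    rw [hV₀]
    exact ENNReal.toReal_pos (measure_ball_pos _ _ one_pos).ne' measure_ball_lt_top.ne
  refine ⟨8 * V₀ ^ 2 * CA ^ 2 + 9 * V₀ + 1, δA / 5, by positivity, by positivity, ?_⟩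
  intro Ω δ ρ ε R hδ hδ0 hδ20 hε hρε hρ1 hΩ hvol hEx
  have hvolfin : volume Ω ≠ ⊤ := by rw [hvol]; exact measure_ball_lt_top.ne
  have hvolR : volume.real Ω = V₀ := by rw [hV₀, Measure.real, Measure.real, hvol]
  obtain ⟨k, hk⟩ : ∃ k : ℝ, k = volume.real (ball (0 : E N) ρ \ Ω) := ⟨_, rfl⟩
  have hk0 : 0 ≤ k := by rw [hk]; exact measureReal_nonneg
  have hfinK : volume (ball (0 : E N) ρ \ Ω) ≠ ⊤ :=
    ((measure_mono diff_subset).trans_lt measure_ball_lt_top).ne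
  have hKm : MeasurableSet (ball (0 : E N) ρ \ Ω) := measurableSet_ball.diff hΩ.measurableSet
  have hun : Ω ∪ ball (0 : E N) ρ = Ω ∪ (ball (0 : E N) ρ \ Ω) := by rw [union_diff_self]
  have hdisj : Disjoint Ω (ball (0 : E N) ρ \ Ω) := disjoint_sdiff_right
  obtain ⟨Ω', hΩ'⟩ : ∃ Ω' : Set (E N), Ω' = Ω ∪ ball (0 : E N) ρ := ⟨_, rfl⟩
  have hO' : IsOpen Ω' := by rw [hΩ']; exact hΩ.union isOpen_ball
  have hvol' : volume.real Ω' = V₀ + k := by
    rw [hΩ', hun, measureReal_union hdisj hKm hvolfin hfinK, hvolR, hk]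
  have hfin' : volume Ω' ≠ ⊤ := by
    rw [hΩ']
    exact (measure_union_lt_top (lt_top_iff_ne_top.2 hvolfin) measure_ball_lt_top).ne
  rw [← hΩ'] at hEx
  have hRBM : BM R := ⟨hEx.meas, 2, fun θ => by
    rw [abs_of_pos (by linarith [hEx.lo θ])]
    linarith [hEx.hi θ]⟩
  have hva := hVA N Ω' (1 - δ) (1 + 5 * δ) R hN (by linarith) (by linarith) hO' hfin' hEx
  have hvb := hVB N Ω' (1 - δ) (1 + 5 * δ) R hN (by linarith) (by linarith) (by linarith) hO' hEx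
  rw [← hV₀] at hva hvb
  rw [hvol'] at hva
  rw [← hk, ← hV₀]
  obtain ⟨A, hA⟩ : ∃ A, A = av (fun θ => R θ ^ N) := ⟨_, rfl⟩
  obtain ⟨S, hS⟩ : ∃ S, S = av (fun θ => (R θ - 1) ^ 2) := ⟨_, rfl⟩
  have hS0 : 0 ≤ S := by rw [hS]; exact av_sq_nonneg _
  rw [← hA] at hva ⊢
  rw [← hS]
  -- finiteness
  have hsdsub : symmDiff Ω (ball (0 : E N) 1) ⊆ Ω ∪ ball (0 : E N) 1 := by
    intro x hx
    rcases hx with h | h
    · exact Or.inl h.1
    · exact Or.inr h.1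
  have hUfin : volume (Ω ∪ ball (0 : E N) 1) ≠ ⊤ :=
    (measure_union_lt_top (lt_top_iff_ne_top.2 hvolfin) measure_ball_lt_top).ne
  have hsdfin : volume (symmDiff Ω (ball (0 : E N) 1)) ≠ ⊤ :=
    ((measure_mono hsdsub).trans_lt (lt_top_iff_ne_top.2 hUfin)).ne
  have hg : 0 ≤ 1 + k / V₀ - A := by
    have h3 : 0 ≤ volume.real (Ω' \ ball (0 : E N) (1 + 5 * δ)) := measureReal_nonneg
    have h6 : A ≤ (V₀ + k) / V₀ := by rw [le_div_iff₀ hV₀0]; linarith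
    rw [add_div, div_self hV₀0.ne'] at h6
    linarith
  refine ⟨hg, ?_⟩
  -- the symmetric difference is twice the missing part
  have hBfin : volume (ball (0 : E N) 1 \ Ω) ≠ ⊤ :=
    ((measure_mono diff_subset).trans_lt measure_ball_lt_top).ne
  have hOfin : volume (Ω \ ball (0 : E N) 1) ≠ ⊤ :=
    ((measure_mono diff_subset).trans_lt (lt_top_iff_ne_top.2 hvolfin)).ne
  have hsame : volume.real (Ω \ ball (0 : E N) 1) = volume.real (ball (0 : E N) 1 \ Ω) := by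
    have h1 := measureReal_inter_add_diff (μ := volume) (s := Ω) (t := ball (0 : E N) 1)
      measurableSet_ball hvolfin
    have h2 := measureReal_inter_add_diff (μ := volume) (s := ball (0 : E N) 1) (t := Ω)
      hΩ.measurableSet measure_ball_lt_top.ne
    rw [inter_comm, hvolR] at h1
    rw [← hV₀] at h2
    linarith
  have hmiss : volume.real (ball (0 : E N) 1 \ Ω) ≤ k + V₀ * av (fun θ => |R θ ^ N - 1|) := by
    have h1 : ball (0 : E N) 1 \ Ω ⊆ (ball (0 : E N) ρ \ Ω) ∪ (ball (0 : E N) 1 \ Ω') := by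
      intro x hx
      by_cases h : x ∈ ball (0 : E N) ρ
      · exact Or.inl ⟨h, hx.2⟩
      · refine Or.inr ⟨hx.1, ?_⟩
        rw [hΩ']
        rintro (h2 | h2)
        · exact hx.2 h2
        · exact h h2
    have hfin2 : volume (ball (0 : E N) 1 \ Ω') ≠ ⊤ :=
      ((measure_mono diff_subset).trans_lt measure_ball_lt_top).ne
    have h2 := measureReal_mono (μ := volume) h1
      (measure_union_lt_top (lt_top_iff_ne_top.2 hfinK) (lt_top_iff_ne_top.2 hfin2)).ne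
    have h3 := measureReal_union_le (μ := volume) (ball (0 : E N) ρ \ Ω) (ball (0 : E N) 1 \ Ω')
    rw [← hk] at h3
    linarith
  have hsdle : volume.real (symmDiff Ω (ball (0 : E N) 1)) ≤
      2 * k + 2 * V₀ * av (fun θ => |R θ ^ N - 1|) := by
    have h1 : volume.real (symmDiff Ω (ball (0 : E N) 1)) ≤
        volume.real (Ω \ ball (0 : E N) 1) + volume.real (ball (0 : E N) 1 \ Ω) := by
      have := measureReal_union_le (μ := volume) (Ω \ ball (0 : E N) 1) (ball (0 : E N) 1 \ Ω)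
      exact this
    linarith
  have hkV : k ≤ V₀ := by
    rw [hk, hV₀]
    exact measureReal_mono (diff_subset.trans (ball_subset_ball hρ1)) measure_ball_lt_top.ne
  have hT : av (fun θ => |R θ ^ N - 1|) ^ 2 ≤ CA ^ 2 * S := by
    have hx : BM (fun θ => |R θ ^ N - 1|) := ((hRBM.pow N).sub (BM_const 1)).abs
    have h1 := av_cs hx (BM_const (N := N) 1)
    have h2 : (fun θ : Sp N => |R θ ^ N - 1| * 1) = fun θ => |R θ ^ N - 1| := by
      funext θ; rw [mul_one]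
    have h3 : av (fun _ : Sp N => (1 : ℝ) ^ 2) = 1 := by
      have := (hMO N hN).1
      simpa using this
    rw [h2, h3, mul_one] at h1
    refine h1.trans ?_
    rw [hS, ← av_const_mul]
    refine av_mono (hx.pow 2) (((hRBM.sub (BM_const 1)).pow 2).const_mul _) fun θ => ?_
    have h5 := (hASx (R θ) (by
      rw [abs_le]; constructor <;> linarith [hEx.lo θ, hEx.hi θ])).2.2.2.2.1
    rw [← sq_abs (R θ - 1), ← mul_pow]
    exact pow_le_pow_left₀ (abs_nonneg _) h5 2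
  -- the far part
  have hfar : volume.real (symmDiff Ω (ball (0 : E N) 1) ∩ {x | ε ≤ |‖x‖ - 1|}) ≤
      k + (V₀ + k - V₀ * A) := by
    have h1 : symmDiff Ω (ball (0 : E N) 1) ∩ {x | ε ≤ |‖x‖ - 1|} ⊆
        (ball (0 : E N) ρ \ Ω) ∪ (Ω' \ ball (0 : E N) (1 + 5 * δ)) := by
      rintro x ⟨hx, hx2⟩
      have hx3 : ε ≤ |‖x‖ - 1| := hx2
      rcases hx with h | h
      · refine Or.inr ⟨by rw [hΩ']; exact Or.inl h.1, ?_⟩
        have h4 : 1 ≤ ‖x‖ := by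
          have := h.2
          rw [mem_ball_zero_iff, not_lt] at this
          exact this
        rw [abs_of_nonneg (by linarith)] at hx3
        rw [mem_ball_zero_iff, not_lt]
        linarith
      · refine Or.inl ⟨?_, h.2⟩
        have h4 : ‖x‖ < 1 := by
          have := h.1
          rwa [mem_ball_zero_iff] at this
        rw [abs_of_nonpos (by linarith)] at hx3
        rw [mem_ball_zero_iff]
        linarith
    have hfin2 : volume (Ω' \ ball (0 : E N) (1 + 5 * δ)) ≠ ⊤ :=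
      ((measure_mono diff_subset).trans_lt (lt_top_iff_ne_top.2 hfin')).ne
    have h2 := measureReal_mono (μ := volume) h1
      (measure_union_lt_top (lt_top_iff_ne_top.2 hfinK) (lt_top_iff_ne_top.2 hfin2)).ne
    have h3 := measureReal_union_le (μ := volume) (ball (0 : E N) ρ \ Ω)
      (Ω' \ ball (0 : E N) (1 + 5 * δ))
    rw [← hk] at h3
    linarith
  have hgV : V₀ * (1 + k / V₀ - A) = V₀ + k - V₀ * A := by
    field_simp
  obtain ⟨g, hgd⟩ : ∃ g, g = 1 + k / V₀ - A := ⟨_, rfl⟩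
  rw [← hgd] at hg hgV ⊢
  rw [← hgV] at hfar
  obtain ⟨X, hX⟩ : ∃ X, X = av (fun θ => |R θ ^ N - 1|) := ⟨_, rfl⟩
  rw [← hX] at hsdle hT
  obtain ⟨Y, hY⟩ : ∃ Y, Y = volume.real (symmDiff Ω (ball (0 : E N) 1)) := ⟨_, rfl⟩
  rw [← hY] at hsdle ⊢
  have hY0 : 0 ≤ Y := by rw [hY]; exact measureReal_nonneg
  have h1 : Y ^ 2 ≤ (2 * k + 2 * V₀ * X) ^ 2 := pow_le_pow_left₀ hY0 hsdle 2
  have h2 : (2 * k + 2 * V₀ * X) ^ 2 ≤ 8 * k ^ 2 + 8 * V₀ ^ 2 * X ^ 2 := by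
    have := sq_nonneg (2 * k - 2 * V₀ * X)
    linarith
  have h3 : k ^ 2 ≤ V₀ * k := by
    have := mul_le_mul_of_nonneg_right hkV hk0
    linarith
  have h4 : V₀ ^ 2 * X ^ 2 ≤ V₀ ^ 2 * (CA ^ 2 * S) := mul_le_mul_of_nonneg_left hT (sq_nonneg _)
  have h5 : 0 ≤ 8 * V₀ ^ 2 * CA ^ 2 * g := by positivity
  have h6 : 0 ≤ 8 * V₀ ^ 2 * CA ^ 2 * k := by positivity
  have h7 : 0 ≤ V₀ * g := by positivity
  have h8 : 0 ≤ V₀ * S := by positivity
  have h9 : 0 ≤ V₀ * k := by positivity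
  have h10 : (8 * V₀ ^ 2 * CA ^ 2 + 9 * V₀ + 1) * (g + S + k) =
      8 * V₀ ^ 2 * CA ^ 2 * g + 8 * (V₀ ^ 2 * (CA ^ 2 * S)) + 8 * V₀ ^ 2 * CA ^ 2 * k +
      9 * (V₀ * g) + 9 * (V₀ * S) + 9 * (V₀ * k) + g + S + k := by ring
  rw [h10]
  linarith

theorem cr1_triv (N : ℕ) (ε : ℝ) (Ω : Set (E N)) (hvol : volume Ω = volume (ball (0 : E N) 1)) :
    volume.real (symmDiff Ω (ball (0 : E N) 1)) ≤ 2 * volume.real (ball (0 : E N) 1) ∧
    volume.real (symmDiff Ω (ball (0 : E N) 1) ∩ {x | ε ≤ |‖x‖ - 1|}) ≤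
      2 * volume.real (ball (0 : E N) 1) := by
  have hvolfin : volume Ω ≠ ⊤ := by rw [hvol]; exact measure_ball_lt_top.ne
  have hvolR : volume.real Ω = volume.real (ball (0 : E N) 1) := by
    rw [Measure.real, Measure.real, hvol]
  have hsdsub : symmDiff Ω (ball (0 : E N) 1) ⊆ Ω ∪ ball (0 : E N) 1 := by
    intro x hx
    rcases hx with h | h
    · exact Or.inl h.1
    · exact Or.inr h.1
  have hUfin : volume (Ω ∪ ball (0 : E N) 1) ≠ ⊤ :=
    (measure_union_lt_top (lt_top_iff_ne_top.2 hvolfin) measure_ball_lt_top).ne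
  have hsdfin : volume (symmDiff Ω (ball (0 : E N) 1)) ≠ ⊤ :=
    ((measure_mono hsdsub).trans_lt (lt_top_iff_ne_top.2 hUfin)).ne
  have hsd1 : volume.real (symmDiff Ω (ball (0 : E N) 1)) ≤
      2 * volume.real (ball (0 : E N) 1) := by
    have h2 := measureReal_mono (μ := volume) hsdsub hUfin
    have h3 := measureReal_union_le (μ := volume) Ω (ball (0 : E N) 1)
    linarith
  exact ⟨hsd1, (measureReal_mono inter_subset_left hsdfin).trans hsd1⟩

/-- the choice of the small number `s` -/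
theorem cr1_s (NN q2 : ℝ) (hq0 : 0 ≤ q2) (hq : q2 < NN) : ∃ s t : ℝ, 0 < s ∧ s ≤ 1 ∧ 0 < t ∧
    ∀ x y : ℝ, 0 ≤ x → 0 ≤ y → y ≤ (1 + s) * x → t * y ≤ (1 - s) * NN * x - (1 + s) * q2 * y := by
  have hNN : 0 < NN := lt_of_le_of_lt hq0 hq
  have hg : 0 < NN - q2 := by linarith
  obtain ⟨s, hs⟩ : ∃ s, s = (NN - q2) / (8 * NN) := ⟨_, rfl⟩
  have hs0 : 0 < s := by rw [hs]; positivity
  have hs8 : 8 * NN * s = NN - q2 := by rw [hs]; field_simp
  have hs1 : s ≤ 1 / 8 := by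
    rw [hs, div_le_iff₀ (by positivity)]
    linarith
  refine ⟨s, (NN - q2) / 4, hs0, by linarith, by positivity, fun x y hx hy hxy => ?_⟩
  have h1 : (1 + s) * q2 * y ≤ (1 + s) * q2 * ((1 + s) * x) :=
    mul_le_mul_of_nonneg_left hxy (by positivity)
  have h2 : (NN - q2) / 4 * y ≤ (NN - q2) / 4 * ((1 + s) * x) :=
    mul_le_mul_of_nonneg_left hxy (by positivity)
  have h3 : (NN - q2) / 4 * (1 + s) + (1 + s) * q2 * (1 + s) ≤ (1 - s) * NN := by
    have h4 : (1 + s) ^ 2 * q2 ≤ q2 + 3 * s * NN := by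
      have h5 : (1 + s) ^ 2 * q2 = q2 + (2 * s + s ^ 2) * q2 := by ring
      have h6 : (2 * s + s ^ 2) * q2 ≤ (2 * s + s ^ 2) * NN :=
        mul_le_mul_of_nonneg_left hq.le (by positivity)
      have h7 : s ^ 2 ≤ s := by nlinarith
      have h8 : s ^ 2 * NN ≤ s * NN := mul_le_mul_of_nonneg_right h7 hNN.le
      linarith
    have h9 : (NN - q2) / 4 * (1 + s) ≤ (NN - q2) / 4 * (9 / 8) :=
      mul_le_mul_of_nonneg_left (by linarith) (by positivity)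
    have h10 : (1 + s) * q2 * (1 + s) = (1 + s) ^ 2 * q2 := by ring
    linarith
  have h4 := mul_le_mul_of_nonneg_right h3 hx
  linarith

theorem cr1_delta (x y z : ℝ) (h1 : 0 < x) (h2 : 0 < y) (h3 : 0 < z) :
    ∃ δ : ℝ, 0 < δ ∧ 3 * δ ≤ x ∧ 3 * δ ≤ y ∧ 15 * δ ≤ z ∧ 3 * δ ≤ 1 / 20 := by
  obtain ⟨m, hm⟩ : ∃ m, m = min (x / 3) (min (y / 3) (min (z / 15) (1 / 60))) := ⟨_, rfl⟩
  have e1 : m ≤ x / 3 := by rw [hm]; exact min_le_left _ _
  have e2 : m ≤ y / 3 := by rw [hm]; exact (min_le_right _ _).trans (min_le_left _ _)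
  have e3 : m ≤ z / 15 := by
    rw [hm]; exact (min_le_right _ _).trans ((min_le_right _ _).trans (min_le_left _ _))
  have e4 : m ≤ 1 / 60 := by
    rw [hm]; exact (min_le_right _ _).trans ((min_le_right _ _).trans (min_le_right _ _))
  refine ⟨m, ?_, by linarith, by linarith, by linarith, by linarith⟩
  rw [hm]
  exact lt_min (by positivity) (lt_min (by positivity) (lt_min (by positivity) (by norm_num)))

theorem pf_CR1 (hMP : T_MP) (hMO : T_MO) (hAS : T_AS) (hVA : T_VA) (hVB : T_VB) (hVD : T_VD)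
    (hPG : T_PG) (hQN : T_QN) (hCS : T_CS1) : T_CR1 := by
  intro N L ε hN hFz hε
  haveI : Nonempty (Fin N) := ⟨⟨0, by omega⟩⟩
  obtain ⟨B₀, δB, hB₀, hδB, hvolx⟩ := cr1_vol hMP hMO hAS hVA hVB N L hN hFz
  obtain ⟨q2, hq2⟩ : ∃ q2 : ℝ, q2 = dph N L 1 1 ^ 2 := ⟨_, rfl⟩
  have hq20 : 0 ≤ q2 := by rw [hq2]; exact sq_nonneg _
  obtain ⟨s, t, hs, hs1, ht, hst⟩ := cr1_s ((N : ℝ) ^ 2) q2 hq20 (by rw [hq2]; exact hQN N L hN hFz)
  obtain ⟨c₁, δ₀, hc₁, hδ₀, hδ₀', hCSx⟩ := hCS N L s hN hFz hs hs1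
  obtain ⟨V₀, hV₀⟩ : ∃ V₀ : ℝ, V₀ = volume.real (ball (0 : E N) 1) := ⟨_, rfl⟩
  have hV₀0 : 0 < V₀ := by
    rw [hV₀]
    exact ENNReal.toReal_pos (measure_ball_pos _ _ one_pos).ne' measure_ball_lt_top.ne
  obtain ⟨δ, hδ, hδ1, hδ2, hδ3, hδ4⟩ := cr1_delta δ₀ δB ε hδ₀ hδB hε
  obtain ⟨G, hG⟩ : ∃ G : ℝ, G = 2 + 4 * (1 + s) * q2 * V₀ / (δ ^ 2 * c₁) := ⟨_, rfl⟩
  have hG2 : 2 ≤ G := by
    rw [hG]
    have : 0 ≤ 4 * (1 + s) * q2 * V₀ / (δ ^ 2 * c₁) := by positivity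
    linarith
  have hG3 : 4 * (1 + s) * q2 * V₀ ≤ G * (δ ^ 2 * c₁) := by
    have h1 : 4 * (1 + s) * q2 * V₀ / (δ ^ 2 * c₁) ≤ G := by rw [hG]; linarith
    rwa [div_le_iff₀ (by positivity)] at h1
  obtain ⟨M, hM2, hPGx⟩ := hPG s G hs
  have hM0 : (0 : ℝ) < M := by
    have : 0 < M := by omega
    exact_mod_cast this
  have hM2' : (2 : ℝ) ≤ M := by exact_mod_cast hM2
  -- the radii
  obtain ⟨x, hx⟩ : ∃ x : ℝ, x = δ / M := ⟨_, rfl⟩
  have hx0 : 0 < x := by rw [hx]; positivity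
  have hMx : M * x = δ := by rw [hx]; field_simp
  have hx2 : x ≤ δ / 2 := by
    have : 2 * x ≤ M * x := mul_le_mul_of_nonneg_right hM2' hx0.le
    linarith
  -- uniform constants
  obtain ⟨κ, C, hκ, hC, hun⟩ := unif (fun i κ C => ∀ (Ω : Set (E N)) (ρ γ : ℝ), IsOpen Ω →
      volume Ω = volume (ball (0 : E N) 1) →
      volume.real (symmDiff Ω (ball (0 : E N) 1)) ≤ κ →
      (∀ i, ∫ x in Ω, x i * Real.exp (-‖x‖ ^ 2) = 0) → 1 - (δ + (i + 1) * x) < ρ → ρ ≤ 1 →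
      γ ∈ adm N (N + 1) Ω → γ ≤ L + κ →
      ∃ (R : Sp N → ℝ) (m : ℝ), Ex (Ω ∪ ball (0 : E N) ρ) (1 - (δ + (i + 1) * x))
          (1 + 5 * (δ + (i + 1) * x)) R ∧ 0 < m ∧ m ≤ C ∧
        c₁ * ((1 + volume.real (ball (0 : E N) ρ \ Ω) / volume.real (ball (0 : E N) 1) -
            av (fun θ => R θ ^ N)) + av (fun θ => (R θ - 1) ^ 2)) +
          (1 - s) * (N : ℝ) ^ 2 * volume.real (ball (0 : E N) (1 - (δ + (i + 1) * x) - x) \ Ω) -
          (1 + s) * dph N L 1 1 ^ 2 * volume.real (ball (0 : E N) ρ \ Ω) ≤ m * (γ - L))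
    (by
      intro i κ κ' C C' h1 h2 h3 Ω ρ γ q1 q2 q3 q4 q5 q6 q7 q8
      obtain ⟨R, m, e1, e2, e3, e4⟩ := h3 Ω ρ γ q1 q2 (q3.trans h1) q4 q5 q6 q7 (by linarith)
      exact ⟨R, m, e1, e2, e3.trans h2, e4⟩) M
    (fun i hi => by
      have hi' : (i : ℝ) ≤ M := by exact_mod_cast hi
      have h1 : ((i : ℝ) + 1) * x ≤ 2 * δ := by
        have : (i : ℝ) * x ≤ M * x := mul_le_mul_of_nonneg_right hi' hx0.le
        linarith
      have h2 : 0 ≤ ((i : ℝ) + 1) * x := by positivity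
      exact hCSx (δ + ((i : ℝ) + 1) * x) x (by linarith) (by linarith) hx0)
  -- the constant
  obtain ⟨c₂, hc₂, hc₂1, hc₂2, hc₂3⟩ : ∃ c₂ : ℝ, 0 < c₂ ∧ c₂ ≤ c₁ / 4 ∧ c₂ ≤ t ∧
      c₂ ≤ c₁ / 4 * (δ ^ 2 / V₀) := by
    refine ⟨min (c₁ / 4) (min t (c₁ / 4 * (δ ^ 2 / V₀))), ?_, min_le_left _ _,
      (min_le_right _ _).trans (min_le_left _ _), (min_le_right _ _).trans (min_le_right _ _)⟩
    exact lt_min (by positivity) (lt_min ht (by positivity))
  obtain ⟨c, hc, hcx, hcy⟩ : ∃ c : ℝ, 0 < c ∧ c * (B₀ * C) ≤ c₂ ∧ c * (4 * V₀ ^ 2 + 2 * V₀) ≤ κ := by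
    refine ⟨min (c₂ / (B₀ * C)) (κ / (4 * V₀ ^ 2 + 2 * V₀)), ?_, ?_, ?_⟩
    · exact lt_min (by positivity) (by positivity)
    · have := min_le_left (c₂ / (B₀ * C)) (κ / (4 * V₀ ^ 2 + 2 * V₀))
      rwa [le_div_iff₀ (by positivity)] at this
    · have := min_le_right (c₂ / (B₀ * C)) (κ / (4 * V₀ ^ 2 + 2 * V₀))
      rwa [le_div_iff₀ (by positivity)] at this
  refine ⟨κ, c, hκ, hc, ?_⟩
  intro Ω γ hΩ hvol hsd hcen hγ
  -- the function `b`
  obtain ⟨b, hb⟩ : ∃ b : ℕ → ℝ, ∀ i : ℕ, b i =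
      volume.real (ball (0 : E N) (1 - (δ + i * x)) \ Ω) := ⟨_, fun _ => rfl⟩
  have hb0 : ∀ i, 0 ≤ b i := fun i => by rw [hb]; exact measureReal_nonneg
  have hbfin : ∀ r : ℝ, volume (ball (0 : E N) r \ Ω) ≠ ⊤ := fun r =>
    ((measure_mono diff_subset).trans_lt measure_ball_lt_top).ne
  have hbanti : ∀ i, b (i + 1) ≤ b i := fun i => by
    rw [hb, hb]
    refine measureReal_mono (diff_subset_diff_left (ball_subset_ball ?_)) (hbfin _)
    push_cast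
    linarith
  obtain ⟨htr1, htr2⟩ := cr1_triv N ε Ω hvol
  rw [← hV₀] at htr1 htr2
  rcases lt_or_ge (L + κ) γ with hbig | hsmall
  · have h1 : volume.real (symmDiff Ω (ball (0 : E N) 1)) ^ 2 ≤ 4 * V₀ ^ 2 := by
      have := pow_le_pow_left₀ measureReal_nonneg htr1 2
      linarith
    have h2 := mul_le_mul_of_nonneg_left h1 hc.le
    have h3 := mul_le_mul_of_nonneg_left htr2 hc.le
    linarith
  have hmain : ∃ (δ' ρ : ℝ) (R : Sp N → ℝ) (m : ℝ), 0 < δ' ∧ δ' ≤ 3 * δ ∧ 1 - 2 * δ ≤ ρ ∧ ρ ≤ 1 ∧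
      Ex (Ω ∪ ball (0 : E N) ρ) (1 - δ') (1 + 5 * δ') R ∧ 0 < m ∧ m ≤ C ∧
      (0 ≤ 1 + volume.real (ball (0 : E N) ρ \ Ω) / V₀ - av (fun θ => R θ ^ N) →
        c₂ * ((1 + volume.real (ball (0 : E N) ρ \ Ω) / V₀ - av (fun θ => R θ ^ N)) +
          av (fun θ => (R θ - 1) ^ 2) + volume.real (ball (0 : E N) ρ \ Ω)) ≤ m * (γ - L)) := by
    rcases hPGx b hb0 hbanti with ⟨i, hi, hbi⟩ | hGb
    · have hi' : (i : ℝ) + 2 ≤ M := by exact_mod_cast hi
      have h1 : ((i : ℝ) + 2) * x ≤ δ := by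
        have : ((i : ℝ) + 2) * x ≤ M * x := mul_le_mul_of_nonneg_right hi' hx0.le
        linarith
      have h2 : 0 ≤ (i : ℝ) * x := by positivity
      obtain ⟨R, m, hEx, hm, hmC, hin⟩ := hun i (by omega) Ω (1 - (δ + i * x)) γ hΩ hvol hsd hcen
        (by linarith) (by linarith) hγ hsmall
      refine ⟨δ + (i + 1) * x, 1 - (δ + i * x), R, m, by linarith, by linarith, by linarith,
        by linarith, hEx, hm, hmC, fun hg => ?_⟩
      have hb2 : b (i + 2) = volume.real (ball (0 : E N) (1 - (δ + (i + 1) * x) - x) \ Ω) := by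
        rw [hb]
        have h3 : 1 - (δ + ((i + 2 : ℕ) : ℝ) * x) = 1 - (δ + (i + 1) * x) - x := by
          push_cast
          ring
        rw [h3]
      rw [← hV₀] at hin
      rw [← hb2, ← hb i, ← hq2] at hin
      rw [← hb i] at hg ⊢
      have h3 := hst (b (i + 2)) (b i) (hb0 _) (hb0 _) hbi
      have hS0 : 0 ≤ av (fun θ : Sp N => (R θ - 1) ^ 2) := av_sq_nonneg _
      have h4 := mul_le_mul_of_nonneg_right (hc₂1.trans (by linarith : c₁ / 4 ≤ c₁))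
        (add_nonneg hg hS0)
      have h5 := mul_le_mul_of_nonneg_right hc₂2 (hb0 i)
      linarith
    · have h1 : (M : ℝ) * x = δ := hMx
      obtain ⟨R, m, hEx, hm, hmC, hin⟩ := hun M le_rfl Ω (1 - (δ + M * x)) γ hΩ hvol hsd hcen
        (by linarith) (by linarith) hγ hsmall
      refine ⟨δ + (M + 1) * x, 1 - (δ + M * x), R, m, by linarith, by linarith, by linarith,
        by linarith, hEx, hm, hmC, fun hg => ?_⟩
      rw [← hV₀] at hin
      rw [← hb M, ← hq2] at hin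
      rw [← hb M] at hg ⊢
      obtain ⟨S, hS⟩ : ∃ S, S = av (fun θ : Sp N => (R θ - 1) ^ 2) := ⟨_, rfl⟩
      have hS0 : 0 ≤ S := by rw [hS]; exact av_sq_nonneg _
      have hO' : IsOpen (Ω ∪ ball (0 : E N) (1 - (δ + M * x))) := hΩ.union isOpen_ball
      have hvd := hVD N _ (1 - (δ + (M + 1) * x)) (1 + 5 * (δ + (M + 1) * x)) (1 - δ) R hN
        (by linarith) (by linarith) (by linarith) (by linarith) (by linarith) hO' hEx
      rw [← hV₀, ← hS] at hvd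
      have h2 : (1 - (1 - δ)) ^ 2 = δ ^ 2 := by ring
      rw [h2] at hvd
      have h3 : b 0 ≤ volume.real (ball (0 : E N) (1 - δ) \
          (Ω ∪ ball (0 : E N) (1 - (δ + M * x)))) + b M := by
        rw [hb, hb]
        have h4 : ball (0 : E N) (1 - (δ + ((0 : ℕ) : ℝ) * x)) \ Ω ⊆
            (ball (0 : E N) (1 - δ) \ (Ω ∪ ball (0 : E N) (1 - (δ + M * x)))) ∪
            (ball (0 : E N) (1 - (δ + M * x)) \ Ω) := by
          intro y hy
          have h5 : (1 - (δ + ((0 : ℕ) : ℝ) * x)) = 1 - δ := by push_cast; ring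
          rw [h5] at hy
          by_cases h6 : y ∈ ball (0 : E N) (1 - (δ + M * x))
          · exact Or.inr ⟨h6, hy.2⟩
          · refine Or.inl ⟨hy.1, ?_⟩
            rintro (h7 | h7)
            · exact hy.2 h7
            · exact h6 h7
        have hfin1 : volume (ball (0 : E N) (1 - δ) \ (Ω ∪ ball (0 : E N) (1 - (δ + M * x)))) ≠ ⊤ :=
          ((measure_mono diff_subset).trans_lt measure_ball_lt_top).ne
        refine (measureReal_mono h4 (measure_union_lt_top (lt_top_iff_ne_top.2 hfin1)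
          (lt_top_iff_ne_top.2 (hbfin _))).ne).trans (measureReal_union_le _ _)
      obtain ⟨z, hz⟩ : ∃ z, z = volume.real (ball (0 : E N) (1 - δ) \
          (Ω ∪ ball (0 : E N) (1 - (δ + M * x)))) := ⟨_, rfl⟩
      rw [← hz] at hvd h3
      have hbM := hb0 M
      -- `G b_M ≤ b_0 ≤ z + b_M`, so `(G / 2) b_M ≤ z`
      have h4 : G * b M ≤ 2 * z := by
        have h5 : 2 * b M ≤ G * b M := mul_le_mul_of_nonneg_right hG2 hbM
        linarith
      have h5 : G * b M * δ ^ 2 ≤ 2 * (V₀ * S) := by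
        have := mul_le_mul_of_nonneg_right h4 (sq_nonneg δ)
        linarith
      -- the loss
      have h6 : (1 + s) * q2 * b M ≤ c₁ / 2 * S := by
        have h7 := mul_le_mul_of_nonneg_right hG3 hbM
        have h8 := mul_le_mul_of_nonneg_left h5 hc₁.le
        have h9 : 4 * ((1 + s) * q2 * b M) * V₀ ≤ 2 * (c₁ * S) * V₀ := by linarith
        have h10 := le_of_mul_le_mul_right h9 hV₀0
        linarith
      -- `b_M` itself
      have h7 : c₂ * b M ≤ c₁ / 4 * S := by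
        have h8 : 2 * b M * δ ^ 2 ≤ G * b M * δ ^ 2 :=
          mul_le_mul_of_nonneg_right (mul_le_mul_of_nonneg_right hG2 hbM) (sq_nonneg δ)
        have h9 : b M * δ ^ 2 ≤ V₀ * S := by linarith
        have h10 : c₂ * b M ≤ c₁ / 4 * (δ ^ 2 / V₀) * b M := mul_le_mul_of_nonneg_right hc₂3 hbM
        have h11 : c₁ / 4 * (δ ^ 2 / V₀) * b M = c₁ / 4 * ((b M * δ ^ 2) / V₀) := by ring
        have h12 : (b M * δ ^ 2) / V₀ ≤ S := by
          rw [div_le_iff₀ hV₀0]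
          linarith
        have h13 := mul_le_mul_of_nonneg_left h12 (show 0 ≤ c₁ / 4 by positivity)
        linarith
      have h8 := mul_le_mul_of_nonneg_right hc₂1 (add_nonneg hg hS0)
      have h9 : 0 ≤ (1 - s) * (N : ℝ) ^ 2 *
          volume.real (ball (0 : E N) (1 - (δ + (M + 1) * x) - x) \ Ω) :=
        mul_nonneg (mul_nonneg (by linarith) (sq_nonneg _)) measureReal_nonneg
      rw [← hS] at hin ⊢
      have h10 : 0 ≤ c₁ * (1 + b M / V₀ - av (fun θ => R θ ^ N)) := mul_nonneg hc₁.le hg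
      linarith
  obtain ⟨δ', ρ, R, m, hδ'0, hδ'1, hρ1, hρ2, hEx, hm, hmC, hin⟩ := hmain
  obtain ⟨hg, hv⟩ := hvolx Ω δ' ρ ε R hδ'0 (by linarith) (by linarith) (by linarith) (by linarith)
    hρ2 hΩ hvol hEx
  rw [← hV₀] at hg hv
  have hin' := hin hg
  have hS0 : 0 ≤ av (fun θ : Sp N => (R θ - 1) ^ 2) := av_sq_nonneg _
  have hk0 : 0 ≤ volume.real (ball (0 : E N) ρ \ Ω) := measureReal_nonneg
  obtain ⟨Q, hQ⟩ : ∃ Q, Q = (1 + volume.real (ball (0 : E N) ρ \ Ω) / V₀ -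
      av (fun θ => R θ ^ N)) + av (fun θ => (R θ - 1) ^ 2) +
      volume.real (ball (0 : E N) ρ \ Ω) := ⟨_, rfl⟩
  rw [← hQ] at hv hin'
  have hQ0 : 0 ≤ Q := by rw [hQ]; linarith
  have hγ0 : 0 ≤ γ - L := by
    by_contra hcon
    have h1 := mul_neg_of_pos_of_neg hm (not_le.1 hcon)
    have h2 := mul_nonneg hc₂.le hQ0
    linarith
  have h1 : c₂ * Q ≤ C * (γ - L) := hin'.trans (mul_le_mul_of_nonneg_right hmC hγ0)
  have h2 : c * (B₀ * C) * Q ≤ c₂ * Q := mul_le_mul_of_nonneg_right hcx hQ0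
  have h3 : c * (B₀ * Q) * C ≤ (γ - L) * C := by
    have : c * (B₀ * C) * Q = c * (B₀ * Q) * C := by ring
    linarith
  have h4 : c * (B₀ * Q) ≤ γ - L := le_of_mul_le_mul_right h3 hC
  have h5 := mul_le_mul_of_nonneg_left hv hc.le
  linarith

end Pool.Agent.H69.LQ
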