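import Pool.Agent.H69.LQ.EN
import Pool.Agent.H69.LQ.Targets1

/-!
# LQ, row EN1: the inequality for one function, with the form of the inner ball
-/

set_option autoImplicit false

open MeasureTheory Metric Set
open scoped ENNReal

namespace Pool.Agent.H69.LQ

open Pool.Agent.H85.LK (E adm lam Ann)

/-- the norms of the parts are at most the norm -/
theorem n23_le {N : ℕ} (hPY : T_PY) (hN : 2 ≤ N) (F : Sp N → ℝ) (hF : BM F) :
    0 ≤ n2 F ∧ 0 ≤ n3 F ∧ n2 F + n3 F ≤ av (fun θ => F θ ^ 2) := by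
  obtain ⟨h, -⟩ := hPY N F hN hF
  have hn0 : 0 ≤ n0 F := by unfold n0; exact sq_nonneg _
  have hn1 : 0 ≤ n1 F := by
    unfold n1
    exact div_nonneg (Finset.sum_nonneg fun j _ => sq_nonneg _) (Nat.cast_nonneg _)
  have hn2 : 0 ≤ n2 F := by
    unfold n2
    exact mul_nonneg (by positivity)
      (Finset.sum_nonneg fun j _ => Finset.sum_nonneg fun k _ => sq_nonneg _)
  have hn3 : 0 ≤ n3 F := by unfold n3; exact av_sq_nonneg _
  exact ⟨hn2, hn3, by linarith⟩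

theorem wparts {N : ℕ} (w : E N → ℝ) (hw : ContDiff ℝ (⊤ : ℕ∞) w) (a : ℝ) :
    IntegrableOn (fun x => ‖fderiv ℝ w x‖ ^ 2) (ball 0 a) ∧
    IntegrableOn (fun x => w x ^ 2) (ball 0 a) := by
  constructor
  · exact ((((hw.continuous_fderiv (by norm_num)).norm).pow 2).continuousOn.integrableOn_compact
      (isCompact_closedBall (0 : E N) a)).mono_set ball_subset_closedBall
  · exact ((hw.continuous.pow 2).continuousOn.integrableOn_compact
      (isCompact_closedBall (0 : E N) a)).mono_set ball_subset_closedBall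

/-- the algebra of the inner ball -/
theorem en1_alg (G X L μ θ s c AR BD OM δ M PPv : ℝ) (hG : 0 ≤ G) (hX : 0 ≤ X) (hL : 0 < L)
    (hAR : 0 < AR) (hOM : 0 ≤ OM) (hθs : θ ≤ s) (hθM : θ * M ≤ δ) (hθ : 0 ≤ θ)
    (hBD : |BD| ≤ M * OM) (hP : PPv = G - μ ^ 2 * L * X - AR * BD) (hP0 : 0 ≤ PPv)
    (hc1 : c ≤ θ) (hc2 : 2 * c ≤ ((1 - θ) * μ ^ 2 - 1) * L) :
    AR * BD - AR * (δ * OM) + (1 - s) * PPv + c * (G + X) + c * X ≤ G - L * X := by
  have h1 : θ * BD ≤ δ * OM := by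
    have h2 : θ * BD ≤ θ * (M * OM) := mul_le_mul_of_nonneg_left ((le_abs_self _).trans hBD) hθ
    have h3 : θ * (M * OM) ≤ δ * OM := by
      rw [← mul_assoc]
      exact mul_le_mul_of_nonneg_right hθM hOM
    linarith
  have h2 : AR * (θ * BD) ≤ AR * (δ * OM) := mul_le_mul_of_nonneg_left h1 hAR.le
  have h3 : (1 - s) * PPv ≤ (1 - θ) * PPv := mul_le_mul_of_nonneg_right (by linarith) hP0
  have h4 : c * G ≤ θ * G := mul_le_mul_of_nonneg_right hc1 hG
  have h5 : 2 * c * X ≤ ((1 - θ) * μ ^ 2 - 1) * L * X := mul_le_mul_of_nonneg_right hc2 hX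
  have h6 : (1 - θ) * PPv = (1 - θ) * G - (1 - θ) * μ ^ 2 * L * X - AR * BD + AR * (θ * BD) := by
    rw [hP]; ring
  nlinarith

/-- the final algebra -/
theorem en1_fin (N : ℕ) (AR AF AE AG AK OM S TN QW PW HW B1 B2 B3 EV D2 D3 X Y δ L C C₀ c₀ c
    S1 S2 P : ℝ) (har : 0 < AR) (hδ : 0 < δ) (_hX0 : 0 ≤ X) (hY0 : 0 ≤ Y) (hae0 : 0 ≤ AE)
    (_hag0 : 0 ≤ AG) (hak0 : 0 ≤ AK) (havω : 0 ≤ OM) (_hS0 : 0 ≤ S) (hc : 0 < c) (hc1 : c ≤ 1)
    (hc3 : c * 2 ^ N * δ ^ 2 ≤ c₀) (hc4 : c * 2 ^ N * 12 ≤ 1) (hCC : C₀ + 2 ≤ C)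
    (hδ20 : δ ≤ 1 / 20) (hCδ : C₀ * δ ≤ 1 / 4) (hS12 : S1 ≤ S2)
    (hgle : AG ≤ 12 * δ * OM + 36 * δ ^ 2 * AE)
    (hOUy : AF + (1 - C₀ * δ) * AE + c₀ / δ ^ 2 * AK - C₀ * δ * OM - S1 ≤
      1 / AR * (B2 - δ ^ 2 * B3) + P * TN)
    (hI : B1 = AR * (P * TN) + QW)
    (hinner : AR * (D2 + D3) - AR * (δ * OM) + PW + HW + c * X ≤ QW)
    (hEfa : B1 + B2 - δ ^ 2 * B3 + Y ≤ EV) :
    AR * (AF + D2 + D3 + 1 / 2 * AE - C * δ * OM - S2) +
      c * (X + AR * 2 ^ N * (AG + AK) + Y) + PW + HW ≤ EV := by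
  have h2N : (0 : ℝ) < 2 ^ N := by positivity
  have h5 := mul_le_mul_of_nonneg_left hOUy har.le
  have h6 : AR * (1 / AR * (B2 - δ ^ 2 * B3) + P * TN) = (B2 - δ ^ 2 * B3) + AR * (P * TN) := by
    field_simp
  rw [h6] at h5
  have h5' : AR * (AF + (1 - C₀ * δ) * AE + c₀ / δ ^ 2 * AK - C₀ * δ * OM - S1) =
      AR * AF + AR * ((1 - C₀ * δ) * AE) + AR * (c₀ / δ ^ 2 * AK) - AR * (C₀ * δ * OM) - AR * S1 := by
    ring
  have h7 : c * (AR * 2 ^ N * AG) ≤ AR * (δ * OM) + 1 / 4 * (AR * AE) := by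
    have h8 : c * 2 ^ N * AG ≤ c * 2 ^ N * (12 * δ * OM + 36 * δ ^ 2 * AE) :=
      mul_le_mul_of_nonneg_left hgle (by positivity)
    have h9 : c * 2 ^ N * (12 * δ * OM) ≤ δ * OM := by
      have := mul_le_mul_of_nonneg_right hc4 (mul_nonneg hδ.le havω)
      linarith
    have h10 : c * 2 ^ N * (36 * δ ^ 2 * AE) ≤ 1 / 4 * AE := by
      have h11 := mul_le_mul_of_nonneg_right hc4 (mul_nonneg (sq_nonneg δ) hae0)
      have h12 : δ ^ 2 * AE ≤ 1 / 12 * AE := by
        refine mul_le_mul_of_nonneg_right ?_ hae0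
        have h14 := pow_le_pow_left₀ hδ.le hδ20 2
        norm_num at h14 ⊢
        linarith
      linarith
    have h13 : c * 2 ^ N * AG ≤ δ * OM + 1 / 4 * AE := by linarith
    have h14 := mul_le_mul_of_nonneg_left h13 har.le
    have h15 : AR * (c * 2 ^ N * AG) = c * (AR * 2 ^ N * AG) := by ring
    have h16 : AR * (δ * OM + 1 / 4 * AE) = AR * (δ * OM) + 1 / 4 * (AR * AE) := by ring
    linarith
  have h8 : c * (AR * 2 ^ N * AK) ≤ AR * (c₀ / δ ^ 2 * AK) := by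
    have h9 : c * 2 ^ N ≤ c₀ / δ ^ 2 := by rw [le_div_iff₀ (by positivity)]; exact hc3
    calc c * (AR * 2 ^ N * AK) = AR * (c * 2 ^ N * AK) := by ring
      _ ≤ _ := mul_le_mul_of_nonneg_left (mul_le_mul_of_nonneg_right h9 hak0) har.le
  have h10 : c * Y ≤ Y := by
    have := mul_le_mul_of_nonneg_right hc1 hY0
    linarith
  have h11 : AR * (C₀ * δ * OM) + 2 * (AR * (δ * OM)) ≤ AR * (C * δ * OM) := by
    have h12 : C₀ * δ * OM + 2 * (δ * OM) ≤ C * δ * OM := by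
      have := mul_le_mul_of_nonneg_right (mul_le_mul_of_nonneg_right hCC hδ.le) havω
      linarith
    have h13 := mul_le_mul_of_nonneg_left h12 har.le
    have h14 : AR * (C₀ * δ * OM + 2 * (δ * OM)) = AR * (C₀ * δ * OM) + 2 * (AR * (δ * OM)) := by
      ring
    linarith
  have h12 : AR * S1 ≤ AR * S2 := mul_le_mul_of_nonneg_left hS12 har.le
  have h13 : 3 / 4 * (AR * AE) ≤ AR * ((1 - C₀ * δ) * AE) := by
    have h14 : 3 / 4 * AE ≤ (1 - C₀ * δ) * AE := mul_le_mul_of_nonneg_right (by linarith) hae0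
    have h15 := mul_le_mul_of_nonneg_left h14 har.le
    linarith
  have e1 : AR * (AF + D2 + D3 + 1 / 2 * AE - C * δ * OM - S2) =
      AR * AF + AR * (D2 + D3) + 1 / 2 * (AR * AE) - AR * (C * δ * OM) - AR * S2 := by ring
  have e2 : c * (X + AR * 2 ^ N * (AG + AK) + Y) =
      c * X + c * (AR * 2 ^ N * AG) + c * (AR * 2 ^ N * AK) + c * Y := by ring
  rw [e1, e2]
  linarith

theorem en1_r (r₁ δ δ₀ : ℝ) (hδ : 0 < δ) (h20 : δ ≤ 1 / 20) (h1 : δ ≤ δ₀) (h2 : r₁ < 1 - δ₀) :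
    r₁ < (1 - δ) * (1 + δ / 2) := by
  nlinarith

theorem en1_m (δ : ℝ) (hδ : 0 < δ) : (1 + δ / 2) * (1 - δ) < 1 := by
  nlinarith

theorem en1_t (M δ s : ℝ) (hM0 : 0 ≤ M) (hδ : 0 < δ) (hs : 0 < s) :
    ∃ M' t : ℝ, M' = M ∧ 0 < t ∧ t ≤ s ∧ t ≤ δ / 4 ∧ t * M' ≤ δ := by
  refine ⟨M, min s (min (δ / 4) (δ / (M + 1))), rfl, ?_, min_le_left _ _,
    (min_le_right _ _).trans (min_le_left _ _), ?_⟩
  · exact lt_min hs (lt_min (by linarith) (by positivity))
  · have h1 : min s (min (δ / 4) (δ / (M + 1))) ≤ δ / (M + 1) :=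
      (min_le_right _ _).trans (min_le_right _ _)
    have h2 : 0 ≤ min s (min (δ / 4) (δ / (M + 1))) :=
      le_min hs.le (le_min (by linarith) (by positivity))
    rw [le_div_iff₀ (by positivity)] at h1
    linarith

theorem en1_c (N : ℕ) (δ L c₀ t : ℝ) (hδ : 0 < δ) (hL : 0 < L) (hc₀ : 0 < c₀) (ht : 0 < t) :
    ∃ c : ℝ, 0 < c ∧ c ≤ 1 ∧ c * 2 ^ N * δ ^ 2 ≤ c₀ ∧ c * 2 ^ N * 12 ≤ 1 ∧
      (c ≤ δ * L / 4 ∧ c ≤ t) := by
  obtain ⟨m, hm⟩ : ∃ m : ℝ, m = min 1 (min (δ * L / 4) (min (c₀ / (2 ^ N * δ ^ 2))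
    (min (1 / (2 ^ N * 12)) t))) := ⟨_, rfl⟩
  refine ⟨m, ?_, ?_, ?_, ?_, ?_, ?_⟩
  · rw [hm]
    exact lt_min one_pos (lt_min (by positivity) (lt_min (by positivity)
      (lt_min (by positivity) ht)))
  · rw [hm]; exact min_le_left _ _
  · have h1 : m ≤ c₀ / (2 ^ N * δ ^ 2) := by
      rw [hm]
      exact (min_le_right _ _).trans ((min_le_right _ _).trans (min_le_left _ _))
    rw [le_div_iff₀ (by positivity)] at h1
    linarith
  · have h1 : m ≤ 1 / (2 ^ N * 12) := by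
      rw [hm]
      exact (min_le_right _ _).trans ((min_le_right _ _).trans
        ((min_le_right _ _).trans (min_le_left _ _)))
    rw [le_div_iff₀ (by positivity)] at h1
    linarith
  · rw [hm]; exact (min_le_right _ _).trans (min_le_left _ _)
  · rw [hm]
    exact (min_le_right _ _).trans ((min_le_right _ _).trans
      ((min_le_right _ _).trans (min_le_right _ _)))

theorem pf_EN1 (hJS : T_JS) (hMP : T_MP) (hMO : T_MO) (hMC : T_MC) (hPY : T_PY) (hLF : T_LF)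
    (hPH : T_PH) (hP1 : T_P1) (hI3 : T_I3) (hOU : T_OU) (hFA : T_FA) (hCO : T_CO) : T_EN1 := by
  intro N L r₁ hN hFz hZ0
  obtain ⟨C₀, c₀, δ₁, hC₀, hc₀, hδ₁, hδ₁', hOUx⟩ := hOU N L hN hFz
  obtain ⟨hprob, har, harN, -⟩ := hMP N hN
  obtain ⟨hph, hsm, -⟩ := hPH N L hN
  have hL := hFz.pos
  -- a bound for `p`
  obtain ⟨K, hK0, hK⟩ : ∃ K : ℝ, 0 ≤ K ∧ ∀ r, 0 ≤ r → r ≤ 2 → |ph N L 1 r| ≤ K := by
    obtain ⟨K, hK⟩ := (isCompact_Icc (a := (0 : ℝ)) (b := 2)).exists_bound_of_continuousOn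
      (f := ph N L 1) (hsm 1).1.continuous.continuousOn
    refine ⟨|K|, abs_nonneg _, fun r h0 h2 => ?_⟩
    have := hK r ⟨h0, h2⟩
    rw [Real.norm_eq_abs] at this
    exact this.trans (le_abs_self K)
  obtain ⟨V₀, hV₀⟩ : ∃ V₀ : ℝ, V₀ = volume.real (ball (0 : E N) 1) := ⟨_, rfl⟩
  have hV₀0 : 0 ≤ V₀ := by rw [hV₀]; exact measureReal_nonneg
  have h2N : (0 : ℝ) < 2 ^ N := by positivity
  obtain ⟨C, hCdef⟩ : ∃ C : ℝ, C = C₀ + 2 + 2 * K ^ 2 * V₀ + ar N * 2 ^ N * K ^ 2 := ⟨_, rfl⟩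
  have hc1' : 0 ≤ 2 * K ^ 2 * V₀ := by positivity
  have hc2' : 0 ≤ ar N * 2 ^ N * K ^ 2 := by positivity
  have hCC : C₀ + 2 ≤ C := by rw [hCdef]; linarith
  obtain ⟨δ₀, hδ₀, hδ₀1, hδ₀2, hδ₀3⟩ : ∃ δ₀ : ℝ, 0 < δ₀ ∧ δ₀ ≤ δ₁ ∧ C₀ * δ₀ ≤ 1 / 4 ∧
      r₁ < 1 - δ₀ := by
    refine ⟨min δ₁ (min (1 / (4 * C₀)) ((1 - r₁) / 2)), ?_, min_le_left _ _, ?_, ?_⟩
    · exact lt_min hδ₁ (lt_min (by positivity) (by linarith [hZ0.lt]))
    · have h1 : min δ₁ (min (1 / (4 * C₀)) ((1 - r₁) / 2)) ≤ 1 / (4 * C₀) :=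
        (min_le_right _ _).trans (min_le_left _ _)
      calc C₀ * min δ₁ (min (1 / (4 * C₀)) ((1 - r₁) / 2)) ≤ C₀ * (1 / (4 * C₀)) :=
            mul_le_mul_of_nonneg_left h1 hC₀.le
        _ = 1 / 4 := by field_simp
    · have h1 : min δ₁ (min (1 / (4 * C₀)) ((1 - r₁) / 2)) ≤ (1 - r₁) / 2 :=
        (min_le_right _ _).trans (min_le_right _ _)
      linarith [hZ0.lt]
  refine ⟨C, δ₀, by linarith, hδ₀, hδ₀1.trans hδ₁', hδ₀3, fun δ s hδ hδle hs hs1 => ?_⟩
  have hδ20 : δ ≤ 1 / 20 := hδle.trans (hδ₀1.trans hδ₁')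
  obtain ⟨κ, hκ, hFAx⟩ := hFA N L δ hN hL hδ hδ20
  -- the small parameter of the inner ball
  obtain ⟨M, t, hpack⟩ : ∃ M t : ℝ,
      M = |dd N L 2 (1 + δ / 2) (1 - δ)| + |dd N L 3 (1 + δ / 2) (1 - δ)| ∧
      0 < t ∧ t ≤ s ∧ t ≤ δ / 4 ∧ t * M ≤ δ := en1_t _ δ s (by positivity) hδ hs
  obtain ⟨c, hc, hc1, hc3, hc4, hpack2⟩ : ∃ c : ℝ, 0 < c ∧ c ≤ 1 ∧
      c * 2 ^ N * δ ^ 2 ≤ c₀ ∧ c * 2 ^ N * 12 ≤ 1 ∧ (c ≤ δ * L / 4 ∧ c ≤ t) :=
    en1_c N δ L c₀ t hδ hL hc₀ hpack.2.1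
  refine ⟨κ, c, hκ, hc, ?_⟩
  intro Ω R v T hΩ hvol hEx hv hvc hvs hmean hcoef
  obtain ⟨u, y, hu, hy, huc, hyc, huΩ, hub, huv, huy, hEfa⟩ := hFAx Ω v hΩ hvol hv hvc hvs
  obtain ⟨a, ha⟩ : ∃ a, a = 1 - δ := ⟨_, rfl⟩
  obtain ⟨b, hb⟩ : ∃ b, b = 1 + 5 * δ := ⟨_, rfl⟩
  have hOUy := hOUx δ Ω R u T hδ (hδle.trans hδ₀1) hEx hu huΩ hub
  obtain ⟨hI3a, hI3b⟩ := hI3 N L r₁ (1 + δ / 2) (1 - δ) hN hFz hZ0 (by linarith)
    (by
      rw [div_lt_iff₀ (by linarith)]
      exact en1_r r₁ δ δ₀ hδ hδ20 hδle hδ₀3) (en1_m δ hδ)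
  have hpack3 := hI3b v T hv hmean hcoef
  have hpack4 : True ∧ 0 ≤ PP L (1 + δ / 2) (1 - δ) (wT L T v) :=
    ⟨trivial, hI3a (wT L T v) hpack3.1 hpack3.2.1 hpack3.2.2.1⟩
  rw [← ha] at hOUy hcoef hpack hpack3 hpack4
  rw [← hb] at hOUy hEfa hub
  have ha0 : 0 < a := by linarith
  have hab : a < b := by linarith
  have hb0 : 0 < b := by linarith
  have hb2 : b ≤ 2 := by linarith
  -- continuity
  obtain ⟨-, hCOu⟩ := hCO N hN
  obtain ⟨hrsu, hdru, hderu, -⟩ := hCOu u hu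
  obtain ⟨hrsv, -, -, -⟩ := hCOu v hv
  have hRab : ∀ θ, a ≤ R θ ∧ R θ ≤ b := fun θ => by
    rw [ha, hb]; exact ⟨(hEx.lo θ).le, hEx.hi θ⟩
  have hRm := hEx.meas
  have hphc : Continuous (ph N L 1) := (hsm 1).1.continuous
  have hdphc : Continuous (dph N L 1) := (hsm 1).2.continuous
  have hinc : Continuous fun q : ℝ × Sp N => inner ℝ T ((q.2 : Sp N) : E N) :=
    continuous_const.inner (continuous_subtype_val.comp continuous_snd)
  have hwc : Continuous fun q : ℝ × Sp N =>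
      rs u q.1 q.2 - inner ℝ T ((q.2 : Sp N) : E N) * ph N L 1 q.1 :=
    hrsu.sub (hinc.mul (hphc.comp continuous_fst))
  have hwc' : Continuous fun q : ℝ × Sp N =>
      dr u q.1 q.2 - inner ℝ T ((q.2 : Sp N) : E N) * dph N L 1 q.1 :=
    hdru.sub (hinc.mul (hdphc.comp continuous_fst))
  -- the three functions on the sphere
  obtain ⟨e, he⟩ : ∃ e : Sp N → ℝ, e = fun θ : Sp N => ∫ r in a..R θ,
      (dr u r θ - inner ℝ T (θ : E N) * dph N L 1 r) ^ 2 := ⟨_, rfl⟩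
  obtain ⟨g, hg⟩ : ∃ g : Sp N → ℝ, g = fun θ : Sp N => ∫ r in a..R θ,
      (rs u r θ - inner ℝ T (θ : E N) * ph N L 1 r) ^ 2 := ⟨_, rfl⟩
  obtain ⟨k, hk⟩ : ∃ k : Sp N → ℝ, k = fun θ : Sp N => ∫ r in R θ..b, rs u r θ ^ 2 := ⟨_, rfl⟩
  have heBM : BM e := by rw [he]; exact BM_int (hwc'.pow 2) hRm a b hRab
  have hgBM : BM g := by rw [hg]; exact BM_int (hwc.pow 2) hRm a b hRab
  have hkBM : BM k := by rw [hk]; exact BM_int' (hrsu.pow 2) hRm a b hRab
  have he0 : ∀ θ, 0 ≤ e θ := fun θ => by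
    rw [he]
    exact intervalIntegral.integral_nonneg (hRab θ).1 fun r _ => sq_nonneg _
  have hg0 : ∀ θ, 0 ≤ g θ := fun θ => by
    rw [hg]
    exact intervalIntegral.integral_nonneg (hRab θ).1 fun r _ => sq_nonneg _
  have hk0 : ∀ θ, 0 ≤ k θ := fun θ => by
    rw [hk]
    exact intervalIntegral.integral_nonneg (hRab θ).2 fun r _ => sq_nonneg _
  -- restriction to the sphere of radius `a`
  have hrsa : rs u a = rs v a := by
    funext θ
    unfold rs
    apply huv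
    rw [norm_smul_sp, abs_of_pos ha0]
    linarith
  obtain ⟨ω, hω⟩ : ∃ ω : Sp N → ℝ, ω = fun θ : Sp N =>
      rs v a θ - inner ℝ T (θ : E N) * ph N L 1 a := ⟨_, rfl⟩
  have hvaBM : BM (rs v a) := BM_cont (hrsv.comp (continuous_const.prodMk continuous_id))
  have hωBM : BM ω := by rw [hω]; exact hvaBM.sub ((BM_inner T).mul (BM_const _))
  have huR : ∀ θ, rs u (R θ) θ = 0 := by
    intro θ
    rcases lt_or_eq_of_le (hEx.hi θ) with h | h
    · exact huΩ _ (hEx.out θ h)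
    · unfold rs
      apply hub
      rw [norm_smul_sp, h, abs_of_pos (by linarith), hb]
  have hwC1 : ∀ θ : Sp N, C1 (fun r => rs u r θ - inner ℝ T (θ : E N) * ph N L 1 r)
      (fun r => dr u r θ - inner ℝ T (θ : E N) * dph N L 1 r) := fun θ =>
    ⟨fun r => (hderu r θ).sub ((hph 1 r).const_mul _),
      hwc'.comp (continuous_id.prodMk continuous_const)⟩
  have hP : ∀ θ : Sp N, (ω θ + inner ℝ T (θ : E N) * ph N L 1 (R θ)) ^ 2 ≤ 6 * δ * e θ ∧
      g θ ≤ 12 * δ * ω θ ^ 2 + 36 * δ ^ 2 * e θ := by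
    intro θ
    obtain ⟨h1, h2⟩ := hP1 a (R θ) _ _ (hRab θ).1 (hwC1 θ)
    simp only [huR θ, zero_sub] at h1
    have hlen : R θ - a ≤ 6 * δ := by linarith [(hRab θ).2]
    have hlen0 : 0 ≤ R θ - a := by linarith [(hRab θ).1]
    have hωθ : ω θ = rs u a θ - inner ℝ T (θ : E N) * ph N L 1 a := by rw [hω, hrsa]
    rw [← hωθ] at h1 h2
    have heθ : e θ = ∫ r in a..R θ, (dr u r θ - inner ℝ T (θ : E N) * dph N L 1 r) ^ 2 := by
      rw [he]
    have hgθ : g θ = ∫ r in a..R θ, (rs u r θ - inner ℝ T (θ : E N) * ph N L 1 r) ^ 2 := by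
      rw [hg]
    rw [← heθ] at h1 h2
    rw [← hgθ] at h2
    have he' := he0 θ
    constructor
    · have h3 : (ω θ + inner ℝ T (θ : E N) * ph N L 1 (R θ)) ^ 2 =
          (-(inner ℝ T (θ : E N) * ph N L 1 (R θ)) - ω θ) ^ 2 := by ring
      rw [h3]
      exact h1.trans (mul_le_mul_of_nonneg_right hlen he')
    · refine h2.trans ?_
      have h4 : (R θ - a) ^ 2 ≤ 36 * δ ^ 2 := by
        have := pow_le_pow_left₀ hlen0 hlen 2
        linarith only [this]
      have h5 := mul_le_mul_of_nonneg_right h4 he'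
      have h6 := mul_le_mul_of_nonneg_right hlen (sq_nonneg (ω θ))
      linarith only [h5, h6]
  obtain ⟨X, hX⟩ : ∃ X : ℝ, X = ∫ x in ball (0 : E N) a, (v x - gT L T x) ^ 2 := ⟨_, rfl⟩
  obtain ⟨Y, hY⟩ : ∃ Y : ℝ, Y = ∫ x, y x ^ 2 := ⟨_, rfl⟩
  have hX0 : 0 ≤ X := by rw [hX]; exact integral_nonneg fun x => sq_nonneg _
  have hY0 : 0 ≤ Y := by rw [hY]; exact integral_nonneg fun x => sq_nonneg _
  have hag0 : 0 ≤ av g := av_nonneg hg0
  have hak0 : 0 ≤ av k := av_nonneg hk0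
  have hae0 : 0 ≤ av e := av_nonneg he0
  have havω : 0 ≤ av (fun θ => ω θ ^ 2) := av_sq_nonneg _
  have hgle : av g ≤ 12 * δ * av (fun θ => ω θ ^ 2) + 36 * δ ^ 2 * av e := by
    rw [← av_const_mul, ← av_const_mul,
      ← av_add ((hωBM.pow 2).const_mul _) (heBM.const_mul _)]
    exact av_mono hgBM (((hωBM.pow 2).const_mul _).add (heBM.const_mul _)) fun θ => (hP θ).2
  -- integrability
  have hcu2 : Continuous fun x => u x ^ 2 := hu.continuous.pow 2
  have hcsu2 : HasCompactSupport fun x => u x ^ 2 := by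
    have := huc.comp_left (g := fun z : ℝ => z ^ 2) (by norm_num)
    exact this
  have hcsy2 : HasCompactSupport fun x => y x ^ 2 := by
    have := hyc.comp_left (g := fun z : ℝ => z ^ 2) (by norm_num)
    exact this
  have hIu2 : Integrable fun x => u x ^ 2 := hcu2.integrable_of_hasCompactSupport hcsu2
  have hIy2 : Integrable fun x => y x ^ 2 :=
    (hy.continuous.pow 2).integrable_of_hasCompactSupport hcsy2
  have hfc : Continuous fun x => ‖fderiv ℝ u x‖ ^ 2 :=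
    ((hu.continuous_fderiv (by norm_num)).norm).pow 2
  have hcsf : HasCompactSupport fun x => ‖fderiv ℝ u x‖ ^ 2 := by
    have h1 := huc.fderiv (𝕜 := ℝ)
    have := h1.comp_left (g := fun z => ‖z‖ ^ 2) (by simp)
    exact this
  have hIf : Integrable fun x => ‖fderiv ℝ u x‖ ^ 2 := hfc.integrable_of_hasCompactSupport hcsf
  refine ⟨e, X + ar N * 2 ^ N * (av g + av k) + Y, heBM, he0, by positivity, ?_, ?_, ?_⟩
  · intro θ
    have := (hP θ).1
    rw [hω] at this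
    rw [← ha]
    exact this
  · -- the norm
    have h1 : ∫ x, v x ^ 2 = (∫ x, u x ^ 2) + Y := by
      rw [hY, ← integral_add hIu2 hIy2]
      refine integral_congr_ae (ae_of_all _ fun x => ?_)
      exact (huy x).symm
    have h2 := split_int (fun x => u x ^ 2) a b hcu2 hcsu2 ha0 hb0 fun x hx => by
      rw [hub x hx.le]
      norm_num
    have h3 : ∫ x in ball (0 : E N) a, u x ^ 2 ≤ 2 * K ^ 2 * V₀ * ‖T‖ ^ 2 + 2 * X := by
      have hb1 : volume (ball (0 : E N) a) ≤ volume (ball (0 : E N) 1) :=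
        measure_mono (ball_subset_ball (by linarith))
      have hvr : volume.real (ball (0 : E N) a) ≤ V₀ := by
        rw [hV₀]
        exact ENNReal.toReal_mono measure_ball_lt_top.ne hb1
      have hgTc : Continuous (gT L T : E N → ℝ) := by
        unfold gT
        have hJ : Continuous (J ((N : ℝ) / 2 + 1)) := (hJS _ (by positivity)).1.continuous
        exact (continuous_const.inner continuous_id).mul
          (hJ.comp ((continuous_const.mul (continuous_norm.pow 2)).div_const 4))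
      have hIX : IntegrableOn (fun x => (v x - gT L T x) ^ 2) (ball (0 : E N) a) :=
        (((hv.continuous.sub hgTc).pow 2).continuousOn.integrableOn_compact
          (isCompact_closedBall (0 : E N) a)).mono_set ball_subset_closedBall
      have hIc : IntegrableOn (fun _ : E N => 2 * K ^ 2 * ‖T‖ ^ 2) (ball (0 : E N) a) :=
        continuous_const.continuousOn.integrableOn_compact
          (isCompact_closedBall (0 : E N) a) |>.mono_set ball_subset_closedBall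
      have h4 : ∫ x in ball (0 : E N) a, u x ^ 2 ≤
          ∫ x in ball (0 : E N) a, (2 * K ^ 2 * ‖T‖ ^ 2 + 2 * (v x - gT L T x) ^ 2) := by
        refine setIntegral_mono_on hIu2.integrableOn ?_ measurableSet_ball fun x hx => ?_
        · exact hIc.add (hIX.const_mul 2)
        · rw [mem_ball_zero_iff] at hx
          rw [huv x (by linarith)]
          have h5 := gT_bound L K hK T x (by linarith)
          have h6 : gT L T x ^ 2 ≤ K ^ 2 * ‖T‖ ^ 2 := by
            rw [← mul_pow, ← sq_abs]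
            exact pow_le_pow_left₀ (abs_nonneg _) h5 2
          linarith only [h6, sq_nonneg (v x - 2 * gT L T x)]
      rw [integral_add hIc (hIX.const_mul 2),
        setIntegral_const, integral_const_mul, ← hX, smul_eq_mul] at h4
      have h7 : volume.real (ball (0 : E N) a) * (2 * K ^ 2 * ‖T‖ ^ 2) ≤
          V₀ * (2 * K ^ 2 * ‖T‖ ^ 2) := mul_le_mul_of_nonneg_right hvr (by positivity)
      linarith
    have h4 : ∫ x in an a b, u x ^ 2 ≤ ar N * 2 ^ N * (2 * av g + av k + K ^ 2 * ‖T‖ ^ 2) := by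
      have h5 := (hMC N (fun x => u x ^ 2) a b hN hcu2 ha0.le hab.le).2.1
      rw [h5, mul_assoc]
      refine mul_le_mul_of_nonneg_left ?_ har.le
      have hc6 : Continuous fun q : ℝ × Sp N => q.1 ^ (N - 1) * rs (fun x => u x ^ 2) q.1 q.2 :=
        (continuous_fst.pow _).mul (hrsu.pow 2)
      have h7 : BM (fun θ : Sp N => 2 * g θ + k θ + K ^ 2 * ‖T‖ ^ 2) :=
        ((hgBM.const_mul 2).add hkBM).add (BM_const _)
      have h8 : av (fun θ : Sp N => 2 ^ N * (2 * g θ + k θ + K ^ 2 * ‖T‖ ^ 2)) =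
          2 ^ N * (2 * av g + av k + K ^ 2 * ‖T‖ ^ 2) := by
        rw [av_const_mul, av_add ((hgBM.const_mul 2).add hkBM) (BM_const _),
          av_add (hgBM.const_mul 2) hkBM, av_const_mul]
        have h9 : av (fun _ : Sp N => K ^ 2 * ‖T‖ ^ 2) = K ^ 2 * ‖T‖ ^ 2 := by
          have h10 := av_const_mul (N := N) (K ^ 2 * ‖T‖ ^ 2) (fun _ => (1 : ℝ))
          rw [(hMO N hN).1, mul_one] at h10
          simpa using h10
        rw [h9]
      rw [← h8]
      refine av_mono ?_ (h7.const_mul _) fun θ => ?_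
      · have := BM_int (F := fun q => q.1 ^ (N - 1) * rs (fun x => u x ^ 2) q.1 q.2) hc6
          (R := fun _ => b) measurable_const a b fun _ => ⟨hab.le, le_rfl⟩
        exact this
      · have hcθ : Continuous fun r : ℝ => rs u r θ ^ 2 :=
          (hrsu.comp (continuous_id.prodMk continuous_const)).pow 2
        have hi1 : IntervalIntegrable (fun r => rs u r θ ^ 2) volume a b :=
          hcθ.intervalIntegrable _ _
        have h10 : ∫ r in a..b, r ^ (N - 1) * rs (fun x => u x ^ 2) r θ ≤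
            ∫ r in a..b, 2 ^ N * rs u r θ ^ 2 := by
          refine intervalIntegral.integral_mono_on hab.le
            (((continuous_id.pow _).mul hcθ).intervalIntegrable _ _)
            ((continuous_const.mul hcθ).intervalIntegrable _ _) fun r hr => ?_
          have hr0 : 0 ≤ r := ha0.le.trans hr.1
          have h11 : r ^ (N - 1) ≤ 2 ^ N :=
            (pow_le_pow_left₀ hr0 (hr.2.trans hb2) _).trans
              (pow_le_pow_right₀ (by norm_num) (by omega))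
          exact mul_le_mul_of_nonneg_right h11 (sq_nonneg _)
        refine h10.trans ?_
        rw [intervalIntegral.integral_const_mul]
        refine mul_le_mul_of_nonneg_left ?_ h2N.le
        have h12 := intervalIntegral.integral_add_adjacent_intervals
          (hcθ.intervalIntegrable (μ := volume) a (R θ)) (hcθ.intervalIntegrable (R θ) b)
        have hkθ : k θ = ∫ r in R θ..b, rs u r θ ^ 2 := by rw [hk]
        have hgθ : g θ = ∫ r in a..R θ,
            (rs u r θ - inner ℝ T (θ : E N) * ph N L 1 r) ^ 2 := by rw [hg]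
        rw [← h12, ← hkθ]
        have hcw : Continuous fun r : ℝ =>
            (rs u r θ - inner ℝ T (θ : E N) * ph N L 1 r) ^ 2 :=
          (hwc.comp (continuous_id.prodMk continuous_const)).pow 2
        have h13 : ∫ r in a..R θ, rs u r θ ^ 2 ≤
            ∫ r in a..R θ, (2 * (rs u r θ - inner ℝ T (θ : E N) * ph N L 1 r) ^ 2 +
              2 * (K ^ 2 * ‖T‖ ^ 2)) := by
          refine intervalIntegral.integral_mono_on (hRab θ).1 (hcθ.intervalIntegrable _ _)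
            (((continuous_const.mul hcw).add continuous_const).intervalIntegrable _ _)
            fun r hr => ?_
          have h14 : |ph N L 1 r| ≤ K := hK r (ha0.le.trans hr.1) ((hr.2.trans (hRab θ).2).trans hb2)
          have h15 : (inner ℝ T (θ : E N) * ph N L 1 r) ^ 2 ≤ K ^ 2 * ‖T‖ ^ 2 := by
            rw [mul_pow, mul_comm]
            refine mul_le_mul ?_ (inner_sq_le T θ) (sq_nonneg _) (sq_nonneg _)
            rw [← sq_abs]
            exact pow_le_pow_left₀ (abs_nonneg _) h14 2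
          linarith only [h15, sq_nonneg (rs u r θ - 2 * (inner ℝ T (θ : E N) * ph N L 1 r))]
        have h13b : ∫ r in a..R θ, (2 * (rs u r θ - inner ℝ T (θ : E N) * ph N L 1 r) ^ 2 +
              2 * (K ^ 2 * ‖T‖ ^ 2)) = 2 * g θ + (R θ - a) * (2 * (K ^ 2 * ‖T‖ ^ 2)) := by
          rw [hgθ, ← intervalIntegral.integral_const_mul]
          have h17 : (R θ - a) * (2 * (K ^ 2 * ‖T‖ ^ 2)) =
              ∫ _ in a..R θ, (2 * (K ^ 2 * ‖T‖ ^ 2)) := by
            rw [intervalIntegral.integral_const, smul_eq_mul]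
          rw [h17]
          exact intervalIntegral.integral_add
            ((continuous_const.mul hcw).intervalIntegrable _ _)
            (continuous_const.intervalIntegrable _ _)
        rw [h13b] at h13
        have hlen : R θ - a ≤ 1 / 2 := by linarith [(hRab θ).2]
        have h16 : (R θ - a) * (2 * (K ^ 2 * ‖T‖ ^ 2)) ≤ 1 / 2 * (2 * (K ^ 2 * ‖T‖ ^ 2)) :=
          mul_le_mul_of_nonneg_right hlen (by positivity)
        linarith
    rw [h1, h2]
    have h5 : ar N * 2 ^ N * (2 * av g + av k + K ^ 2 * ‖T‖ ^ 2) ≤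
        2 * (ar N * 2 ^ N * (av g + av k)) + ar N * 2 ^ N * K ^ 2 * ‖T‖ ^ 2 := by
      have : 0 ≤ ar N * 2 ^ N * av k := by positivity
      linarith only [this]
    have h6 : (C₀ + 2) * ‖T‖ ^ 2 ≥ 0 := by positivity
    have h7 : C * ‖T‖ ^ 2 = (C₀ + 2) * ‖T‖ ^ 2 + 2 * K ^ 2 * V₀ * ‖T‖ ^ 2 +
        ar N * 2 ^ N * K ^ 2 * ‖T‖ ^ 2 := by rw [hCdef]; ring
    rw [h7]
    linarith
  · -- the energy
    have h1 : (∫ x, ‖fderiv ℝ u x‖ ^ 2) - L * ∫ x, u x ^ 2 =
        (∫ x in ball (0 : E N) a, (‖fderiv ℝ v x‖ ^ 2 - L * v x ^ 2)) +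
          ∫ x in an a b, (‖fderiv ℝ u x‖ ^ 2 - L * u x ^ 2) := by
      rw [← integral_const_mul, ← integral_sub hIf (hIu2.const_mul L)]
      have hcF : Continuous fun x => ‖fderiv ℝ u x‖ ^ 2 - L * u x ^ 2 :=
        hfc.sub (continuous_const.mul hcu2)
      rw [split_int (fun x => ‖fderiv ℝ u x‖ ^ 2 - L * u x ^ 2) a b hcF
        (by
          have := hcsf.add (f' := fun x => -(L * u x ^ 2)) (by
            have h2 := hcsu2.comp_left (g := fun z : ℝ => -(L * z)) (by norm_num)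
            exact h2)
          have h3 : (fun x => ‖fderiv ℝ u x‖ ^ 2 - L * u x ^ 2) =
              (fun x => ‖fderiv ℝ u x‖ ^ 2) + fun x => -(L * u x ^ 2) := by
            funext x; simp [sub_eq_add_neg]
          rw [h3]
          exact this) ha0 hb0
        (fun x hx => by
          rw [fderiv_zero_outside u b (fun x hx => hub x hx) x hx, hub x hx.le]
          norm_num)]
      congr 1
      refine setIntegral_congr_fun measurableSet_ball fun x hx => ?_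
      rw [mem_ball_zero_iff] at hx
      have h2 : u =ᶠ[nhds x] v := by
        have h3 : ∀ᶠ z in nhds x, ‖z‖ < a := continuous_norm.continuousAt.eventually (gt_mem_nhds hx)
        filter_upwards [h3] with z hz
        exact huv z (by linarith)
      rw [h2.fderiv_eq, huv x (by linarith)]
    have h2 := av_bdry hMP hMO hLF hN (rs v a) hvaBM T (a ^ (N - 1) * dph N L 1 a)
      (ph N L 1 a) hcoef
    rw [hrsa] at hOUy
    rw [h2] at hOUy
    have he2 : av (fun θ => ∫ r in a..R θ, (dr u r θ - inner ℝ T (θ : E N) * dph N L 1 r) ^ 2) =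
        av e := by rw [he]
    have hk2 : av (fun θ => ∫ r in R θ..b, rs u r θ ^ 2) = av k := by rw [hk]
    have hω2 : av (fun θ => (rs v a θ - inner ℝ T (θ : E N) * ph N L 1 a) ^ 2) =
        av (fun θ => ω θ ^ 2) := by rw [hω]
    rw [he2, hk2, hω2] at hOUy
    rw [← ha, hω2]
    rw [h1] at hEfa
    -- the inner ball
    obtain ⟨hM, ht, hts, ht4, htM⟩ := hpack
    obtain ⟨hwsm, hwm, hwc0, hwn2, hwn3, hI2y⟩ := hpack3
    obtain ⟨-, hPP0⟩ := hpack4
    obtain ⟨hc2, hc5⟩ := hpack2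
    have hinner : ar N * (dd N L 2 (1 + δ / 2) a * n2 (rs v a) +
        dd N L 3 (1 + δ / 2) a * n3 (rs v a)) - ar N * (δ * av (fun θ => ω θ ^ 2)) +
        (1 - s) * PP L (1 + δ / 2) a (wT L T v) + c * HH a (wT L T v) + c * X ≤
        ∫ x in ball (0 : E N) a, (‖fderiv ℝ (wT L T v) x‖ ^ 2 - L * wT L T v x ^ 2) := by
      obtain ⟨hi1, hi2⟩ := wparts (wT L T v) hwsm a
      obtain ⟨G, hG⟩ : ∃ G, G = ∫ x in ball (0 : E N) a, ‖fderiv ℝ (wT L T v) x‖ ^ 2 := ⟨_, rfl⟩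
      have hG0 : 0 ≤ G := by rw [hG]; exact integral_nonneg fun x => sq_nonneg _
      have hX' : X = ∫ x in ball (0 : E N) a, wT L T v x ^ 2 := hX
      have e1 : ∫ x in ball (0 : E N) a, (‖fderiv ℝ (wT L T v) x‖ ^ 2 - L * wT L T v x ^ 2) =
          G - L * X := by
        rw [integral_sub hi1 (hi2.const_mul L), integral_const_mul, hG, hX']
      have e2 : HH a (wT L T v) = G + X := by
        unfold HH
        rw [integral_add hi1 hi2, hG, hX']
      have e3 : PP L (1 + δ / 2) a (wT L T v) = G - (1 + δ / 2) ^ 2 * L * X -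
          ar N * (dd N L 2 (1 + δ / 2) a * n2 (rs v a) +
            dd N L 3 (1 + δ / 2) a * n3 (rs v a)) := by
        unfold PP
        rw [integral_sub hi1 (hi2.const_mul _), integral_const_mul, hG, hX', hwn2, hwn3]
      have hrw : rs (wT L T v) a = ω := by
        rw [hω]
        funext θ
        show v (a • (θ : E N)) - gT L T (a • (θ : E N)) = _
        rw [gT_smul]
        rfl
      obtain ⟨hn2, hn3, hn23⟩ := n23_le hPY hN ω hωBM
      rw [← hrw, hwn2, hwn3] at hn23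
      rw [← hrw, hwn2] at hn2
      rw [← hrw, hwn3] at hn3
      rw [hrw] at hn23
      have hBD : |dd N L 2 (1 + δ / 2) a * n2 (rs v a) + dd N L 3 (1 + δ / 2) a * n3 (rs v a)| ≤
          M * av (fun θ => ω θ ^ 2) := by
        refine (abs_add_le _ _).trans ?_
        rw [abs_mul, abs_mul, abs_of_nonneg hn2, abs_of_nonneg hn3, hM]
        have q1 := abs_nonneg (dd N L 2 (1 + δ / 2) a)
        have q2 := abs_nonneg (dd N L 3 (1 + δ / 2) a)
        have q3 := mul_le_mul_of_nonneg_left (show n2 (rs v a) ≤ av (fun θ => ω θ ^ 2) by linarith) q1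
        have q4 := mul_le_mul_of_nonneg_left (show n3 (rs v a) ≤ av (fun θ => ω θ ^ 2) by linarith) q2
        linarith
      rw [e1, e2]
      refine en1_alg G X L (1 + δ / 2) t s c (ar N) _ (av (fun θ => ω θ ^ 2)) δ M _ hG0 hX0 hL har
        havω hts htM ht.le hBD e3 hPP0 hc5 ?_
      have q1 : δ / 2 ≤ (1 - t) * (1 + δ / 2) ^ 2 - 1 := by
        have q0 : (1 + δ / 2) ^ 2 = 1 + δ + δ ^ 2 / 4 := by ring
        have q0' : δ ^ 2 ≤ 1 := by
          have := pow_le_pow_left₀ hδ.le (show δ ≤ 1 by linarith) 2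
          linarith
        have q0'' : 0 ≤ δ ^ 2 := sq_nonneg _
        have q2 : (1 + δ / 2) ^ 2 ≤ 2 := by linarith
        have q3 : t * (1 + δ / 2) ^ 2 ≤ δ / 4 * 2 :=
          mul_le_mul ht4 q2 (sq_nonneg _) (by linarith)
        have q4 : (1 - t) * (1 + δ / 2) ^ 2 - 1 =
            (1 + δ / 2) ^ 2 - t * (1 + δ / 2) ^ 2 - 1 := by ring
        linarith
      have q2 := mul_le_mul_of_nonneg_right q1 hL.le
      linarith
    have hS0 : 0 ≤ av (fun θ : Sp N => (R θ - 1) ^ 2) := av_sq_nonneg _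
    generalize (∫ x in ball (0 : E N) a, (‖fderiv ℝ (wT L T v) x‖ ^ 2 - L * wT L T v x ^ 2)) = QW
      at hI2y hinner
    generalize (1 - s) * PP L (1 + δ / 2) a (wT L T v) = PW at hinner ⊢
    generalize c * HH a (wT L T v) = HW at hinner ⊢
    generalize (∫ x in ball (0 : E N) a, (‖fderiv ℝ v x‖ ^ 2 - L * v x ^ 2)) = B1 at hEfa hI2y
    generalize (∫ x in an a b, (‖fderiv ℝ u x‖ ^ 2 - L * u x ^ 2)) = B2 at hEfa hOUy
    generalize (∫ x in an (1 + δ / 2) b, (‖fderiv ℝ u x‖ ^ 2 + u x ^ 2)) = B3 at hEfa hOUy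
    generalize (∫ x, ‖fderiv ℝ v x‖ ^ 2) - L * ∫ x, v x ^ 2 = EV at hEfa ⊢
    generalize av (fun θ => inner ℝ T (θ : E N) ^ 2 * ff N L (R θ)) = AF at hOUy ⊢
    generalize av (fun θ : Sp N => (R θ - 1) ^ 2) = S at hOUy hS0 ⊢
    rw [← hY] at hEfa
    generalize dd N L 2 (1 + δ / 2) a * n2 (rs v a) = D2 at hinner ⊢
    generalize dd N L 3 (1 + δ / 2) a * n3 (rs v a) = D3 at hinner ⊢
    generalize av (fun θ => ω θ ^ 2) = OM at hOUy hgle havω hinner ⊢
    generalize ‖T‖ ^ 2 / (N : ℝ) = TN at hOUy hI2y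
    exact en1_fin N (ar N) AF (av e) (av g) (av k) OM S TN QW PW HW B1 B2 B3 EV D2 D3 X Y δ L C C₀ c₀ c
      (C₀ * δ * ‖T‖ ^ 2 * S) (C * δ * ‖T‖ ^ 2 * S)
      (a ^ (N - 1) * dph N L 1 a * ph N L 1 a) har hδ hX0 hY0 hae0 hag0 hak0 havω hS0 hc hc1 hc3 hc4
      hCC hδ20 (by
        have := mul_le_mul_of_nonneg_left hδle hC₀.le
        linarith)
      (by
        refine mul_le_mul_of_nonneg_right ?_ hS0
        refine mul_le_mul_of_nonneg_right ?_ (sq_nonneg _)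
        exact mul_le_mul_of_nonneg_right (by linarith) hδ.le)
      hgle hOUy (by rw [hI2y]; ring) hinner hEfa

end Pool.Agent.H69.LQ
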