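import Pool.Agent.H69.LQ.CR
import Pool.Agent.H69.LQ.EN1
import Pool.Agent.H69.LQ.Targets1

/-!
# LQ1, row CS: the main inequality, with the holes in a ball filled
-/

set_option autoImplicit false

open MeasureTheory Metric Set
open scoped ENNReal

namespace Pool.Agent.H69.LQ

open Pool.Agent.H85.LK (E adm lam Ann)

/-- (CS1) the inequality with the inner radius `1 - δ`, holes filled in the ball of radius `ρ`. -/
def T_CS1 : Prop := ∀ (N : ℕ) (L s : ℝ), 2 ≤ N → Fz N L → 0 < s → s ≤ 1 →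
  ∃ c δ₀ : ℝ, 0 < c ∧ 0 < δ₀ ∧ δ₀ ≤ 1 / 20 ∧ ∀ δ τ : ℝ, 0 < δ → δ ≤ δ₀ → 0 < τ →
    ∃ κ C : ℝ, 0 < κ ∧ 0 < C ∧ ∀ (Ω : Set (E N)) (ρ γ : ℝ), IsOpen Ω →
      volume Ω = volume (ball (0 : E N) 1) →
      volume.real (symmDiff Ω (ball (0 : E N) 1)) ≤ κ →
      (∀ i, ∫ x in Ω, x i * Real.exp (-‖x‖ ^ 2) = 0) → 1 - δ < ρ → ρ ≤ 1 →
      γ ∈ adm N (N + 1) Ω → γ ≤ L + κ →
      ∃ (R : Sp N → ℝ) (m : ℝ), Ex (Ω ∪ ball (0 : E N) ρ) (1 - δ) (1 + 5 * δ) R ∧ 0 < m ∧ m ≤ C ∧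
        c * ((1 + volume.real (ball (0 : E N) ρ \ Ω) / volume.real (ball (0 : E N) 1) -
            av (fun θ => R θ ^ N)) + av (fun θ => (R θ - 1) ^ 2)) +
          (1 - s) * (N : ℝ) ^ 2 * volume.real (ball (0 : E N) (1 - δ - τ) \ Ω) -
          (1 + s) * dph N L 1 1 ^ 2 * volume.real (ball (0 : E N) ρ \ Ω) ≤ m * (γ - L)

/-- geometry of the filled set -/
theorem fill_geo (hMO : T_MO) (hVA : T_VA) (hVC : T_VC) (N : ℕ) (hN : 2 ≤ N) (Ω : Set (E N))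
    (a b ρ : ℝ) (R : Sp N → ℝ) (ha : 0 < a) (hab : a < b) (hρ : ρ ≤ 1) (hO : IsOpen Ω)
    (hvol : volume Ω = volume (ball (0 : E N) 1))
    (hcen : ∀ i, ∫ x in Ω, x i * Real.exp (-‖x‖ ^ 2) = 0)
    (hEx : Ex (Ω ∪ ball (0 : E N) ρ) a b R) :
    0 ≤ 1 + volume.real (ball (0 : E N) ρ \ Ω) / volume.real (ball (0 : E N) 1) -
      av (fun θ => R θ ^ N) ∧
    ∀ i, |av (fun θ => (qq N (R θ) - qq N 1) * (θ : E N) i)| ≤
      1 + 2 * (volume.real (ball (0 : E N) ρ \ Ω) / volume.real (ball (0 : E N) 1)) -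
        av (fun θ => R θ ^ N) := by
  haveI : Nonempty (Fin N) := ⟨⟨0, by omega⟩⟩
  obtain ⟨V₀, hV₀⟩ : ∃ V₀ : ℝ, V₀ = volume.real (ball (0 : E N) 1) := ⟨_, rfl⟩
  have hV₀0 : 0 < V₀ := by
    rw [hV₀]
    exact ENNReal.toReal_pos (measure_ball_pos _ _ one_pos).ne' measure_ball_lt_top.ne
  obtain ⟨k, hk⟩ : ∃ k : ℝ, k = volume.real (ball (0 : E N) ρ \ Ω) := ⟨_, rfl⟩
  have hk0 : 0 ≤ k := by rw [hk]; exact measureReal_nonneg
  have hfinO : volume Ω ≠ ⊤ := by rw [hvol]; exact measure_ball_lt_top.ne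
  have hfinK : volume (ball (0 : E N) ρ \ Ω) ≠ ⊤ :=
    ((measure_mono diff_subset).trans_lt measure_ball_lt_top).ne
  have hKm : MeasurableSet (ball (0 : E N) ρ \ Ω) := measurableSet_ball.diff hO.measurableSet
  have hun : Ω ∪ ball (0 : E N) ρ = Ω ∪ (ball (0 : E N) ρ \ Ω) := by
    rw [union_diff_self]
  have hdisj : Disjoint Ω (ball (0 : E N) ρ \ Ω) := disjoint_sdiff_right
  have hO' : IsOpen (Ω ∪ ball (0 : E N) ρ) := hO.union isOpen_ball
  have hvolR : volume.real Ω = V₀ := by rw [hV₀, Measure.real, Measure.real, hvol]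
  have hvol' : volume.real (Ω ∪ ball (0 : E N) ρ) = V₀ + k := by
    rw [hun, measureReal_union hdisj hKm hfinO hfinK, hvolR, hk]
  have hfin' : volume (Ω ∪ ball (0 : E N) ρ) ≠ ⊤ :=
    (measure_union_lt_top (lt_top_iff_ne_top.2 hfinO) measure_ball_lt_top).ne
  have h1 := hVA N _ a b R hN ha hab hO' hfin' hEx
  have h2 := hVC N _ a b R hN ha hab hO' hfin' hEx
  rw [← hV₀, hvol'] at h1
  rw [← hV₀, ← hk]
  obtain ⟨A, hA⟩ : ∃ A, A = av (fun θ => R θ ^ N) := ⟨_, rfl⟩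
  rw [← hA] at h1 ⊢
  have h3 : 0 ≤ volume.real ((Ω ∪ ball (0 : E N) ρ) \ ball (0 : E N) b) := measureReal_nonneg
  have h4 : V₀ * A ≤ V₀ + k := by linarith
  have h5 : 0 ≤ 1 + k / V₀ - A := by
    have h6 : A ≤ (V₀ + k) / V₀ := by rw [le_div_iff₀ hV₀0]; linarith
    rw [add_div, div_self hV₀0.ne'] at h6
    linarith
  refine ⟨h5, fun i => ?_⟩
  have h6 := h2 i
  rw [← hV₀, hvol', ← hA] at h6
  have hint : ∀ s : Set (E N), MeasurableSet s → volume s ≠ ⊤ →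
      IntegrableOn (fun x : E N => x i * Real.exp (-‖x‖ ^ 2)) s := by
    intro s hs hfs
    have hc : Continuous fun x : E N => x i * Real.exp (-‖x‖ ^ 2) := by fun_prop
    refine Measure.integrableOn_of_bounded (M := 1) hfs hc.aestronglyMeasurable
      (ae_of_all _ fun x => ?_)
    have h7 : |x i| ≤ ‖x‖ := by
      have := PiLp.norm_apply_le x i
      simpa using this
    rw [norm_mul, Real.norm_eq_abs, Real.norm_eq_abs, Real.abs_exp]
    have h8 : ‖x‖ ≤ Real.exp (‖x‖ ^ 2) := by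
      have := Real.add_one_le_exp (‖x‖ ^ 2)
      nlinarith [sq_nonneg (‖x‖ - 1), norm_nonneg x]
    rw [Real.exp_neg]
    calc |x i| * (Real.exp (‖x‖ ^ 2))⁻¹ ≤ Real.exp (‖x‖ ^ 2) * (Real.exp (‖x‖ ^ 2))⁻¹ :=
          mul_le_mul_of_nonneg_right (h7.trans h8) (inv_nonneg.2 (Real.exp_pos _).le)
      _ = 1 := mul_inv_cancel₀ (Real.exp_pos _).ne'
  have h7 : |∫ x in Ω ∪ ball (0 : E N) ρ, x i * Real.exp (-‖x‖ ^ 2)| ≤ k := by
    rw [hun, setIntegral_union hdisj hKm (hint _ hO.measurableSet hfinO) (hint _ hKm hfinK),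
      hcen i, zero_add, hk]
    have h8 := norm_setIntegral_le_of_norm_le_const (μ := volume) (C := 1)
      (s := ball (0 : E N) ρ \ Ω) (f := fun x : E N => x i * Real.exp (-‖x‖ ^ 2))
      (lt_top_iff_ne_top.2 hfinK) (fun x hx => by
        have hx1 : ‖x‖ < 1 := by
          have := hx.1
          rw [mem_ball_zero_iff] at this
          linarith
        have h7 : |x i| ≤ ‖x‖ := by
          have := PiLp.norm_apply_le x i
          simpa using this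
        rw [norm_mul, Real.norm_eq_abs, Real.norm_eq_abs, Real.abs_exp]
        have h9 : Real.exp (-‖x‖ ^ 2) ≤ 1 := by
          rw [Real.exp_le_one_iff]
          have := sq_nonneg ‖x‖
          linarith
        calc |x i| * Real.exp (-‖x‖ ^ 2) ≤ 1 * 1 :=
              mul_le_mul (by linarith) h9 (Real.exp_pos _).le zero_le_one
          _ = 1 := one_mul 1)
    rw [Real.norm_eq_abs, one_mul] at h8
    exact h8
  obtain ⟨Z, hZ⟩ : ∃ Z, Z = av (fun θ => (qq N (R θ) - qq N 1) * (θ : E N) i) := ⟨_, rfl⟩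
  rw [← hZ] at h6 ⊢
  have h8 : |N * V₀ * Z| ≤ k + (V₀ + k - V₀ * A) := by
    have h9 : N * V₀ * Z = (N * V₀ * Z - ∫ x in Ω ∪ ball (0 : E N) ρ, x i * Real.exp (-‖x‖ ^ 2)) +
        ∫ x in Ω ∪ ball (0 : E N) ρ, x i * Real.exp (-‖x‖ ^ 2) := by ring
    rw [h9]
    refine (abs_add_le _ _).trans ?_
    linarith
  have hN1 : (1 : ℝ) ≤ N := by exact_mod_cast (by omega : 1 ≤ N)
  rw [abs_mul, abs_of_pos (by positivity)] at h8
  have h9 : V₀ * |Z| ≤ N * V₀ * |Z| := by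
    refine mul_le_mul_of_nonneg_right ?_ (abs_nonneg _)
    nlinarith
  have h10 : |Z| ≤ (k + (V₀ + k - V₀ * A)) / V₀ := by
    rw [le_div_iff₀ hV₀0]
    linarith
  have h11 : (k + (V₀ + k - V₀ * A)) / V₀ = 1 + 2 * (k / V₀) - A := by
    field_simp
    ring
  rwa [h11] at h10

theorem cs_delta (δE δS δB : ℝ) (M C : ℝ) (h1 : 0 < δE) (h2 : 0 < δS) (h3 : 0 < δB)
    (hMC : 0 < M + C) : ∃ δ₀ : ℝ, 0 < δ₀ ∧ δ₀ ≤ δE ∧ δ₀ ≤ δS ∧ δ₀ ≤ δB ∧
      12 * (M + C) * δ₀ ≤ 1 := by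
  refine ⟨min δE (min δS (min δB (1 / (12 * (M + C))))), ?_,
    min_le_left _ _, (min_le_right _ _).trans (min_le_left _ _),
    (min_le_right _ _).trans ((min_le_right _ _).trans (min_le_left _ _)), ?_⟩
  · have : 0 < 1 / (12 * (M + C)) := by positivity
    exact lt_min h1 (lt_min h2 (lt_min h3 this))
  · have h4 : min δE (min δS (min δB (1 / (12 * (M + C))))) ≤ 1 / (12 * (M + C)) :=
      (min_le_right _ _).trans ((min_le_right _ _).trans (min_le_right _ _))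
    rw [le_div_iff₀ (by positivity)] at h4
    linarith

theorem cs_kappa (κE κH x y : ℝ) (h1 : 0 < κE) (h2 : 0 < κH) (h3 : 0 < x) (h4 : 0 < y) :
    ∃ κ : ℝ, 0 < κ ∧ κ ≤ κE ∧ κ ≤ κH ∧ κ ≤ x ∧ κ ≤ y :=
  ⟨min κE (min κH (min x y)), lt_min h1 (lt_min h2 (lt_min h3 h4)), min_le_left _ _,
    (min_le_right _ _).trans (min_le_left _ _),
    (min_le_right _ _).trans ((min_le_right _ _).trans (min_le_left _ _)),
    (min_le_right _ _).trans ((min_le_right _ _).trans (min_le_right _ _))⟩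

/-- the final algebra -/
theorem cs_fin (NN AR V₀ g S H k kt cS cE s q G nC SW SI PH m : ℝ) (hNN : 0 ≤ NN)
    (hAR : AR = NN * V₀) (hV : 0 < V₀) (hNpos : 0 < NN) (hH : H = k / V₀) (hs : 0 < s)
    (hs1 : s ≤ 1) (hkt : 0 ≤ kt) (hcE : 0 < cE) (hSW : 0 ≤ SW) (hSI : 0 < SI)
    (hHG : (NN ^ 2 - s / 2 * NN ^ 2) * kt ≤ PH) (hG : G ≤ cE / 4)
    (hnorm : SI ≤ nC + 2 * SW)
    (hsum : AR * (cS * (g + S) - (1 + s) * (q ^ 2 / NN) * H) + cE * SW + (1 - s / 2) * PH ≤ G * SI)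
    (hm : m = if G < 0 then min SI nC else nC) :
    AR * cS * (g + S) + (1 - s) * NN ^ 2 * kt - (1 + s) * q ^ 2 * k ≤ m * G := by
  have e1 : AR * (cS * (g + S) - (1 + s) * (q ^ 2 / NN) * H) =
      AR * cS * (g + S) - (1 + s) * q ^ 2 * k := by
    rw [hAR, hH]
    field_simp
  rw [e1] at hsum
  have e2 : (1 - s) * NN ^ 2 * kt ≤ (1 - s / 2) * PH := by
    have h1 := mul_le_mul_of_nonneg_left hHG (show (0 : ℝ) ≤ 1 - s / 2 by linarith)
    have h2 : (1 - s / 2) * ((NN ^ 2 - s / 2 * NN ^ 2) * kt) =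
        (1 - s) * NN ^ 2 * kt + s ^ 2 / 4 * (NN ^ 2 * kt) := by ring
    have h3 : 0 ≤ s ^ 2 / 4 * (NN ^ 2 * kt) := by positivity
    linarith
  have e3 : 0 ≤ cE * SW := mul_nonneg hcE.le hSW
  rw [hm]
  split_ifs with hneg
  · have h1 : G * SI ≤ min SI nC * G := by
      have := mul_le_mul_of_nonpos_right (min_le_left SI nC) hneg.le
      linarith
    linarith
  · have hG0 : 0 ≤ G := not_lt.1 hneg
    have h1 : G * SI ≤ G * (nC + 2 * SW) := mul_le_mul_of_nonneg_left hnorm hG0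
    have h2 : G * SW ≤ cE / 4 * SW := mul_le_mul_of_nonneg_right hG hSW
    have h3 : G * (nC + 2 * SW) = nC * G + 2 * (G * SW) := by ring
    linarith

theorem pf_CS1 (hMP : T_MP) (hMO : T_MO) (hPY : T_PY) (hLF : T_LF)
    (hPV : T_PV) (hBV : T_BV) (hEX : T_EX) (hVA : T_VA) (hVC : T_VC) (hSU : T_SU1)
    (hDI : T_DI) (hEN : T_EN1) (hI3 : T_I3) (hHG : T_HG) (hZ0 : T_Z0) (hCO : T_CO) : T_CS1 := by
  intro N L s hN hFz hs hs1
  obtain ⟨r₁, hr₁⟩ := hZ0 N L hN hFz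
  obtain ⟨C, δE, hC, hδE, hδE', hr1, hENx⟩ := hEN N L r₁ hN hFz hr₁
  obtain ⟨cS, σ, δS, hcS, hσ, hδS, hδS', hSUx⟩ := hSU N L hN hFz C s hC hs
  obtain ⟨δB, hδB, hBVx⟩ := hBV N L hN hFz σ hσ
  obtain ⟨hprob, har, harN, -⟩ := hMP N hN
  obtain ⟨hp1, -, -, -, -, -, -⟩ := hPV N L hN hFz
  haveI : Nonempty (Fin N) := ⟨⟨0, by omega⟩⟩
  have hN0 : (0 : ℝ) < N := by
    have : 0 < N := by omega
    exact_mod_cast this
  obtain ⟨V₀, hV₀⟩ : ∃ V₀ : ℝ, V₀ = volume.real (ball (0 : E N) 1) := ⟨_, rfl⟩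
  have hV₀0 : 0 < V₀ := by
    rw [hV₀]
    exact ENNReal.toReal_pos (measure_ball_pos _ _ one_pos).ne' measure_ball_lt_top.ne
  obtain ⟨D, hD⟩ : ∃ D : ℝ, D = L / ((N : ℝ) + 2) - ((N : ℝ) + 1) := ⟨_, rfl⟩
  obtain ⟨M, hM⟩ : ∃ M : ℝ, M = N + σ + |D| := ⟨_, rfl⟩
  have hM0 : 0 < M := by rw [hM]; positivity
  obtain ⟨δ₀, hδ₀, hδ₀1, hδ₀2, hδ₀3, hδ₀6⟩ := cs_delta δE δS δB M C hδE hδS hδB (by linarith)
  refine ⟨ar N * cS, δ₀, by positivity, hδ₀, hδ₀1.trans hδE', fun δ τ hδ hδle hτ => ?_⟩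
  have hδ1 : δ ≤ δE := hδle.trans hδ₀1
  have hδ2 : δ ≤ δS := hδle.trans hδ₀2
  have hδ3 : δ ≤ δB := hδle.trans hδ₀3
  have hδ6 : 12 * (M + C) * δ ≤ 1 := by
    have := mul_le_mul_of_nonneg_left hδle (show 0 ≤ 12 * (M + C) by linarith)
    linarith
  have hδ20 : δ ≤ 1 / 20 := hδ1.trans hδE'
  obtain ⟨κE, cE, hκE, hcE, hENy⟩ := hENx δ (s / 2) hδ hδ1 (by linarith) (by linarith)
  obtain ⟨hμ1, hμ2⟩ : r₁ / (1 + δ / 2) < 1 - δ ∧ (1 + δ / 2) * (1 - δ) < 1 := by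
    constructor
    · rw [div_lt_iff₀ (by linarith)]
      exact en1_r r₁ δ δE hδ hδ20 hδ1 hr1
    · exact en1_m δ hδ
  obtain ⟨κH, hκH, hHGx⟩ := hHG N L r₁ (1 + δ / 2) (1 - δ) τ (s / 2 * (N : ℝ) ^ 2) cE hN hFz hr₁
    (by linarith) hμ1 hμ2 hτ (by positivity) hcE
  obtain ⟨hI3a, hI3b⟩ := hI3 N L r₁ (1 + δ / 2) (1 - δ) hN hFz hr₁ (by linarith) hμ1 hμ2
  obtain ⟨d2lo, d3lo⟩ := hBVx δ hδ hδ3
  obtain ⟨a, ha⟩ : ∃ a, a = 1 - δ := ⟨_, rfl⟩
  obtain ⟨d2, hd2⟩ : ∃ d2, d2 = dd N L 2 (1 + δ / 2) (1 - δ) := ⟨_, rfl⟩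
  obtain ⟨d3, hd3⟩ : ∃ d3, d3 = dd N L 3 (1 + δ / 2) (1 - δ) := ⟨_, rfl⟩
  rw [← hd2] at d2lo
  rw [← hd3, ← hD] at d3lo
  have hd2' : dd N L 2 (1 + δ / 2) a = d2 := by rw [ha, hd2]
  have hd3' : dd N L 3 (1 + δ / 2) a = d3 := by rw [ha, hd3]
  have hd2M : -M ≤ d2 := by rw [hM]; have := abs_nonneg D; linarith
  have hd3M : -M ≤ d3 := by rw [hM]; have := neg_abs_le D; linarith
  have hpa : 0 < ph N L 1 a := hp1 a (by linarith) (by linarith)
  obtain ⟨κ, hκ, hκ1, hκ2, hκ3, hκ4⟩ := cs_kappa κE κH (δ * V₀) (cE / 4) hκE hκH (by positivity)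
    (by positivity)
  refine ⟨κ, N * C, hκ, by positivity, ?_⟩
  intro Ω ρ γ hΩ hvol hsd hcen hρ hρ1 hγ hγL
  -- geometry
  have hvolfin : volume Ω ≠ ⊤ := by rw [hvol]; exact measure_ball_lt_top.ne
  have hsdfin : volume (symmDiff Ω (ball (0 : E N) 1)) ≠ ⊤ := by
    have h1 : symmDiff Ω (ball (0 : E N) 1) ⊆ Ω ∪ ball (0 : E N) 1 := by
      intro x hx
      rcases hx with h | h
      · exact Or.inl h.1
      · exact Or.inr h.1
    exact ((measure_mono h1).trans_lt (measure_union_lt_top (lt_top_iff_ne_top.2 hvolfin)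
      measure_ball_lt_top)).ne
  have hsd' : volume (symmDiff Ω (ball (0 : E N) 1)) ≤ ENNReal.ofReal κ := by
    rw [← ENNReal.ofReal_toReal hsdfin]
    exact ENNReal.ofReal_le_ofReal hsd
  obtain ⟨Ω', hΩ'⟩ : ∃ Ω' : Set (E N), Ω' = Ω ∪ ball (0 : E N) ρ := ⟨_, rfl⟩
  have hΩ'o : IsOpen Ω' := by rw [hΩ']; exact hΩ.union isOpen_ball
  have hsub : Ω ⊆ Ω' := by rw [hΩ']; exact subset_union_left
  have hclosed : closedBall (0 : E N) (1 - δ) ⊆ Ω' := by
    rw [hΩ']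
    exact (closedBall_subset_ball (by linarith)).trans subset_union_right
  have hfar : volume (Ω' \ closedBall (0 : E N) (1 + δ / 2)) ≤ ENNReal.ofReal κE := by
    refine le_trans (measure_mono ?_) (hsd'.trans (ENNReal.ofReal_le_ofReal hκ1))
    intro x hx
    rw [hΩ'] at hx
    obtain ⟨h1, h2⟩ := hx
    rw [mem_closedBall_zero_iff, not_le] at h2
    rcases h1 with h | h
    · refine Or.inl ⟨h, ?_⟩
      rw [mem_ball_zero_iff, not_lt]
      linarith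
    · rw [mem_ball_zero_iff] at h
      linarith
  have hhole : volume (ball (0 : E N) (1 - δ) \ Ω) ≤ ENNReal.ofReal κH := by
    refine le_trans (measure_mono ?_) (hsd'.trans (ENNReal.ofReal_le_ofReal hκ2))
    intro x hx
    exact Or.inr ⟨ball_subset_ball (by linarith) hx.1, hx.2⟩
  obtain ⟨k, hk⟩ : ∃ k : ℝ, k = volume.real (ball (0 : E N) ρ \ Ω) := ⟨_, rfl⟩
  have hk0 : 0 ≤ k := by rw [hk]; exact measureReal_nonneg
  have hkκ : k ≤ κ := by
    rw [hk]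
    refine le_trans (measureReal_mono ?_ hsdfin) hsd
    intro x hx
    exact Or.inr ⟨ball_subset_ball hρ1 hx.1, hx.2⟩
  obtain ⟨H, hH⟩ : ∃ H : ℝ, H = k / V₀ := ⟨_, rfl⟩
  have hH0 : 0 ≤ H := by rw [hH]; positivity
  have hHδ : H ≤ δ := by
    rw [hH, div_le_iff₀ hV₀0]
    linarith
  obtain ⟨R, hEx⟩ := hEX N Ω' (1 - δ) (1 + 5 * δ) hN (by linarith) (by linarith) hΩ'o hclosed
  obtain ⟨hg0, hcent⟩ := fill_geo hMO hVA hVC N hN Ω (1 - δ) (1 + 5 * δ) ρ R (by linarith)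
    (by linarith) hρ1 hΩ hvol hcen (by rw [← hΩ']; exact hEx)
  rw [← hk, ← hV₀, ← hH] at hg0 hcent
  obtain ⟨g, hg⟩ : ∃ g, g = 1 + H - av (fun θ => R θ ^ N) := ⟨_, rfl⟩
  obtain ⟨S, hS⟩ : ∃ S, S = av (fun θ => (R θ - 1) ^ 2) := ⟨_, rfl⟩
  have hS0 : 0 ≤ S := by rw [hS]; exact av_sq_nonneg _
  -- the test space
  obtain ⟨V, hVdim, hV⟩ := hγ
  have hsmall : γ - L ≤ cE / 4 := by linarith
  obtain ⟨hCO1, hCOu⟩ := hCO N hN
  have hcont : ∀ v ∈ V, ∀ r : ℝ, BM (rs v r) := fun v hv r =>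
    BM_cont ((hCOu v (hV v hv).1).1.comp (continuous_const.prodMk continuous_id))
  have hEV : ∀ v ∈ V, (∫ x, ‖fderiv ℝ v x‖ ^ 2) - L * ∫ x, v x ^ 2 ≤
      (γ - L) * ∫ x, v x ^ 2 := fun v hv => by
    have := (hV v hv).2.2.2
    linarith
  obtain ⟨l, hl⟩ : ∃ l : (E N → ℝ) → ℝ, ∀ v, l v = av (rs v (r₁ / (1 + δ / 2))) :=
    ⟨_, fun _ => rfl⟩
  obtain ⟨T, hT⟩ : ∃ T : (E N → ℝ) → E N, ∀ v j, T v j = c1 (rs v a) j / ph N L 1 a :=
    ⟨fun v => WithLp.toLp 2 fun j => c1 (rs v a) j / ph N L 1 a, fun _ _ => rfl⟩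
  have hTc : ∀ v j, c1 (rs v a) j = T v j * ph N L 1 a := fun v j => by
    rw [hT]; field_simp
  have hker : ∀ v ∈ V, l v = 0 → T v = 0 → v = 0 := by
    intro v hv hlv hTv
    obtain ⟨h1, h2, h3, -⟩ := hV v hv
    obtain ⟨e, W, he, he0, hW0, hω, hnorm, hen⟩ := hENy Ω' R v 0 hΩ'o hfar hEx h1 h2 (h3.trans hsub)
      (by rw [← hl]; exact hlv) (fun j => by
        rw [← ha, hTc, hTv])
    simp only [inner_zero_left, zero_mul, sub_zero, add_zero, norm_zero, mul_zero,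
      ne_eq, OfNat.ofNat_ne_zero, not_false_eq_true, zero_pow, zero_add] at hω hnorm hen
    have hw0 := hI3b v 0 h1 (by rw [← hl]; exact hlv) (fun j => by
      rw [← ha, hTc, hTv])
    have hPPn := hI3a _ hw0.1 hw0.2.1 hw0.2.2.1
    have hHHn : 0 ≤ HH (1 - δ) (wT L 0 v) := by
      unfold HH
      exact integral_nonneg fun x => by positivity
    have hPPn' : 0 ≤ (1 - s / 2) * PP L (1 + δ / 2) (1 - δ) (wT L 0 v) :=
      mul_nonneg (by linarith) hPPn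
    have hHHn' : 0 ≤ cE * HH (1 - δ) (wT L 0 v) := mul_nonneg hcE.le hHHn
    generalize (1 - s / 2) * PP L (1 + δ / 2) (1 - δ) (wT L 0 v) = PPt at hen hPPn'
    generalize cE * HH (1 - δ) (wT L 0 v) = HHt at hen hHHn'
    rw [av_zero, ← ha, hd2', hd3', zero_add] at hen
    rw [← ha] at hω
    have hBMω := hcont v hv a
    obtain ⟨hpyt, -⟩ := hPY N (rs v a) hN hBMω
    have hn0 : 0 ≤ n0 (rs v a) := by unfold n0; exact sq_nonneg _
    have hn1 : 0 ≤ n1 (rs v a) := by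
      unfold n1; exact div_nonneg (Finset.sum_nonneg fun j _ => sq_nonneg _) hN0.le
    have hn2 : 0 ≤ n2 (rs v a) := by
      unfold n2
      exact mul_nonneg (by positivity)
        (Finset.sum_nonneg fun j _ => Finset.sum_nonneg fun k _ => sq_nonneg _)
    have hn3 : 0 ≤ n3 (rs v a) := by unfold n3; exact av_sq_nonneg _
    have hQ : av (fun θ => rs v a θ ^ 2) ≤ 6 * δ * av e := by
      rw [← av_const_mul]
      exact av_mono (hBMω.pow 2) (he.const_mul _) hω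
    obtain ⟨Q, hQdef⟩ : ∃ Q, Q = av (fun θ => rs v a θ ^ 2) := ⟨_, rfl⟩
    rw [← hQdef] at hQ hpyt hen
    have hQ0 : 0 ≤ Q := by rw [hQdef]; exact av_sq_nonneg _
    have h5 : 0 ≤ d2 * n2 (rs v a) + d3 * n3 (rs v a) + M * Q := by
      have h6 : 0 ≤ (d2 + M) * n2 (rs v a) := mul_nonneg (by linarith) hn2
      have h7 : 0 ≤ (d3 + M) * n3 (rs v a) := mul_nonneg (by linarith) hn3
      have h8 : M * (n2 (rs v a) + n3 (rs v a)) ≤ M * Q :=
        mul_le_mul_of_nonneg_left (by linarith) hM0.le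
      linarith
    have h6 : (M + C) * Q ≤ 1 / 2 * av e := by
      have h7 : (M + C) * Q ≤ (M + C) * (6 * δ * av e) :=
        mul_le_mul_of_nonneg_left hQ (by linarith)
      have h8 : (M + C) * (6 * δ * av e) ≤ 1 / 2 * av e := by
        have h9 := mul_le_mul_of_nonneg_right hδ6 (av_nonneg he0)
        linarith
      linarith
    have h7 : C * δ * Q ≤ C * Q := by
      have : C * δ * Q ≤ C * 1 * Q := by
        refine mul_le_mul_of_nonneg_right ?_ hQ0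
        exact mul_le_mul_of_nonneg_left (by linarith) hC.le
      linarith
    have h8 : cE * W ≤ (γ - L) * ∫ x, v x ^ 2 := by
      refine le_trans ?_ (hEV v hv)
      refine le_trans ?_ hen
      have h9 : 0 ≤ ar N * (d2 * n2 (rs v a) + d3 * n3 (rs v a) +
          1 / 2 * av e - C * δ * Q) := mul_nonneg har.le (by linarith)
      linarith
    have h9 : 0 ≤ ∫ x, v x ^ 2 := integral_nonneg fun x => sq_nonneg _
    have h10 : (γ - L) * (∫ x, v x ^ 2) ≤ cE / 4 * ∫ x, v x ^ 2 :=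
      mul_le_mul_of_nonneg_right hsmall h9
    have h11 : cE / 4 * (∫ x, v x ^ 2) ≤ cE / 4 * (2 * W) :=
      mul_le_mul_of_nonneg_left (by linarith) (by linarith)
    have h12 : W ≤ 0 := by
      by_contra hcon
      have : 0 < cE * W := mul_pos hcE (not_le.1 hcon)
      linarith
    exact sq_int_zero v h1.continuous h2 (by linarith)
  -- linearity
  have hadd : ∀ v ∈ V, ∀ w ∈ V, l (v + w) = l v + l w ∧ T (v + w) = T v + T w := by
    intro v hv w hw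
    have h1 : ∀ r : ℝ, ∀ P : Sp N → ℝ, BM P → av (fun θ => rs (v + w) r θ * P θ) =
        av (fun θ => rs v r θ * P θ) + av (fun θ => rs w r θ * P θ) := by
      intro r P hP
      rw [← av_add ((hcont v hv r).mul hP) ((hcont w hw r).mul hP)]
      congr 1
      funext θ
      show (v (r • (θ : E N)) + w (r • (θ : E N))) * P θ = _
      unfold rs
      ring
    constructor
    · have h2 := h1 (r₁ / (1 + δ / 2)) (fun _ => 1) (BM_const 1)
      simp only [mul_one] at h2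
      rw [hl, hl, hl]
      exact h2
    · ext j
      have h2 := h1 a (fun θ => (θ : E N) j) (BM_coord j)
      rw [PiLp.add_apply, hT, hT, hT]
      unfold c1
      rw [h2]
      ring
  have hsmul : ∀ v ∈ V, ∀ k : ℝ, l (k • v) = k * l v ∧ T (k • v) = k • T v := by
    intro v hv k
    have h1 : ∀ r : ℝ, ∀ P : Sp N → ℝ, av (fun θ => rs (k • v) r θ * P θ) =
        k * av (fun θ => rs v r θ * P θ) := by
      intro r P
      rw [← av_const_mul]
      congr 1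
      funext θ
      show (k * v (r • (θ : E N))) * P θ = _
      unfold rs
      ring
    constructor
    · have h2 := h1 (r₁ / (1 + δ / 2)) (fun _ => 1)
      simp only [mul_one] at h2
      rw [hl, hl]
      exact h2
    · ext j
      have h2 := h1 a (fun θ => (θ : E N) j)
      rw [PiLp.smul_apply, hT, hT, smul_eq_mul]
      unfold c1
      rw [h2]
      ring
  have hex : ∀ i : Fin N, ∃ v ∈ V, l v = 0 ∧ T v = EuclideanSpace.single i (1 : ℝ) := fun i =>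
    hDI N V l T hVdim hadd hsmul hker _
  choose v hvV hvl hvT using hex
  have hENz : ∀ i : Fin N, ∃ (e : Sp N → ℝ) (W : ℝ), BM e ∧ (∀ θ, 0 ≤ e θ) ∧ 0 ≤ W ∧
      (∀ θ : Sp N, (rs (v i) a θ - (θ : E N) i * ph N L 1 a +
        (θ : E N) i * ph N L 1 (R θ)) ^ 2 ≤ 6 * δ * e θ) ∧
      ∫ x, v i x ^ 2 ≤ C + 2 * W ∧
      ar N * (av (fun θ => (θ : E N) i ^ 2 * ff N L (R θ)) + d2 * n2 (rs (v i) a) +
        d3 * n3 (rs (v i) a) + 1 / 2 * av e -
        C * δ * av (fun θ => (rs (v i) a θ - (θ : E N) i * ph N L 1 a) ^ 2) -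
        C * δ * S) + cE * W + (1 - s / 2) * PP L (1 + δ / 2) (1 - δ) (wT L (ee i) (v i)) +
        cE * HH (1 - δ) (wT L (ee i) (v i)) ≤ (γ - L) * ∫ x, v i x ^ 2 := by
    intro i
    obtain ⟨h1, h2, h3, -⟩ := hV (v i) (hvV i)
    obtain ⟨e, W, he, he0, hW0, hω, hnorm, hen⟩ := hENy Ω' R (v i)
      (EuclideanSpace.single i (1 : ℝ)) hΩ'o hfar hEx h1 h2 (h3.trans hsub)
      (by rw [← hl]; exact hvl i) (fun j => by
        rw [← ha, hTc, hvT i])
    have hn1 : ‖EuclideanSpace.single i (1 : ℝ)‖ = 1 := by simp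
    have hee : EuclideanSpace.single i (1 : ℝ) = ee i := rfl
    rw [hee] at hen
    generalize (1 - s / 2) * PP L (1 + δ / 2) (1 - δ) (wT L (ee i) (v i)) = PPt at hen ⊢
    generalize cE * HH (1 - δ) (wT L (ee i) (v i)) = HHt at hen ⊢
    rw [← hee] at hen
    simp only [inner_single, hn1, one_pow, mul_one] at hω hnorm hen
    rw [← ha, ← hS, hd2', hd3'] at hen
    rw [← ha] at hω
    exact ⟨e, W, he, he0, hW0, hω, hnorm, hen.trans (hEV _ (hvV i))⟩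
  choose e W he he0 hW0 hω hnorm hen using hENz
  -- the functions `ω i`
  obtain ⟨ω, hωdef⟩ : ∃ ω : Fin N → Sp N → ℝ, ∀ i, ω i = fun θ : Sp N =>
      rs (v i) a θ - (θ : E N) i * ph N L 1 a := ⟨_, fun _ => rfl⟩
  have hLFi : ∀ i, (∀ j, av (fun θ => ω i θ * (θ : E N) j) = 0) ∧
      n2 (ω i) = n2 (rs (v i) a) ∧ n3 (ω i) = n3 (rs (v i) a) := by
    intro i
    obtain ⟨h1, h2, h3, h4, -⟩ := hLF N (rs (v i) a)
      ((ph N L 1 a) • EuclideanSpace.single i (1 : ℝ)) hN (hcont _ (hvV i) a)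
    have h5 : (fun θ : Sp N => rs (v i) a θ -
        inner ℝ ((ph N L 1 a) • EuclideanSpace.single i (1 : ℝ)) (θ : E N)) = ω i := by
      rw [hωdef]
      funext θ
      rw [real_inner_smul_left, inner_single]
      ring
    rw [h5] at h1 h2 h3 h4
    refine ⟨fun j => ?_, ?_, ?_⟩
    · have h6 := h1 j
      rw [hTc, hvT i] at h6
      have h7 : ((ph N L 1 a) • (EuclideanSpace.single i (1 : ℝ) : E N)) j =
          (EuclideanSpace.single i (1 : ℝ) : E N) j * ph N L 1 a := by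
        rw [PiLp.smul_apply, smul_eq_mul]; ring
      rw [h7, sub_self] at h6
      unfold c1 at h6
      exact (mul_eq_zero.1 h6).resolve_left hN0.ne'
    · unfold n2
      simp only [h3]
    · unfold n3
      simp only [h4]
  have hωBM : ∀ i, BM (ω i) := fun i => by
    rw [hωdef]
    exact (hcont _ (hvV i) a).sub ((BM_coord i).mul (BM_const _))
  have hsum := hSUx δ d2 d3 H R ω e hδ hδ2 hH0 hHδ d2lo (by rw [← hD]; exact d3lo) hEx.meas
    (fun θ => ⟨hEx.lo θ, hEx.hi θ⟩)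
    (fun i => ⟨hωBM i, he i, fun θ => by rw [hωdef]; exact hω i θ, (hLFi i).1⟩) hg0 hcent
  rw [← hg, ← hS] at hsum
  have hHGy := hHGx Ω v hΩ hhole fun i => by
    obtain ⟨h1, h2, h3, -⟩ := hV (v i) (hvV i)
    exact ⟨h1, h2, h3, by rw [← hl]; exact hvl i, fun j => by
      rw [← ha, hTc, hvT i]; rfl⟩
  have hsum2 : ar N * (cS * (g + S) - (1 + s) * (dph N L 1 1 ^ 2 / N) * H) + cE * ∑ i, W i +
      (1 - s / 2) * ∑ i, (PP L (1 + δ / 2) (1 - δ) (wT L (ee i) (v i)) +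
        cE * HH (1 - δ) (wT L (ee i) (v i))) ≤ (γ - L) * ∑ i, ∫ x, v i x ^ 2 := by
    have h1 := mul_le_mul_of_nonneg_left hsum har.le
    rw [Finset.mul_sum] at h1
    have h2 : ∑ i, (ar N * (av (fun θ => (θ : E N) i ^ 2 * ff N L (R θ)) + d2 * n2 (ω i) +
        d3 * n3 (ω i) + 1 / 2 * av (e i) - C * δ * av (fun θ => ω i θ ^ 2) - C * δ * S) +
        cE * W i + (1 - s / 2) * (PP L (1 + δ / 2) (1 - δ) (wT L (ee i) (v i)) +
        cE * HH (1 - δ) (wT L (ee i) (v i)))) ≤ ∑ i, (γ - L) * ∫ x, v i x ^ 2 := by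
      refine Finset.sum_le_sum fun i _ => ?_
      have h3 := hen i
      rw [(hLFi i).2.1, (hLFi i).2.2, hωdef]
      have h4 : 0 ≤ HH (1 - δ) (wT L (ee i) (v i)) := by
        unfold HH
        exact integral_nonneg fun x => by positivity
      have h5 : (1 - s / 2) * (cE * HH (1 - δ) (wT L (ee i) (v i))) ≤
          cE * HH (1 - δ) (wT L (ee i) (v i)) := by
        have h6 := mul_nonneg hcE.le h4
        have h7 : 0 ≤ s / 2 * (cE * HH (1 - δ) (wT L (ee i) (v i))) := mul_nonneg (by linarith) h6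
        linarith
      have h8 : (1 - s / 2) * (PP L (1 + δ / 2) (1 - δ) (wT L (ee i) (v i)) +
          cE * HH (1 - δ) (wT L (ee i) (v i))) =
          (1 - s / 2) * PP L (1 + δ / 2) (1 - δ) (wT L (ee i) (v i)) +
          (1 - s / 2) * (cE * HH (1 - δ) (wT L (ee i) (v i))) := mul_add _ _ _
      rw [h8]
      refine le_trans ?_ h3
      linarith
    rw [Finset.sum_add_distrib, Finset.sum_add_distrib, ← Finset.mul_sum (a := cE),
      ← Finset.mul_sum (a := 1 - s / 2), ← Finset.mul_sum (a := γ - L)] at h2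
    linarith
  have hnormS : ∑ i, (∫ x, v i x ^ 2) ≤ N * C + 2 * ∑ i, W i := by
    have h1 : ∑ i : Fin N, (∫ x, v i x ^ 2) ≤ ∑ i, (C + 2 * W i) :=
      Finset.sum_le_sum fun i _ => hnorm i
    rw [Finset.sum_add_distrib, ← Finset.mul_sum] at h1
    simpa using h1
  have hWS : 0 ≤ ∑ i, W i := Finset.sum_nonneg fun i _ => hW0 i
  have hpos : 0 < ∑ i : Fin N, ∫ x, v i x ^ 2 := by
    by_contra hcon
    rw [not_lt] at hcon
    have i₀ : Fin N := ⟨0, by omega⟩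
    have h3 : ∫ x, v i₀ x ^ 2 ≤ 0 := by
      refine le_trans ?_ hcon
      exact Finset.single_le_sum (f := fun i => ∫ x, v i x ^ 2)
        (fun i _ => integral_nonneg fun x => sq_nonneg _) (Finset.mem_univ i₀)
    obtain ⟨h4, h5, -, -⟩ := hV (v i₀) (hvV i₀)
    have h6 := sq_int_zero (v i₀) h4.continuous h5 h3
    have h7 := (hsmul (v i₀) (hvV i₀) 0).2
    rw [zero_smul, zero_smul, ← h6, hvT i₀] at h7
    have h8 := congrArg (fun z : E N => z i₀) h7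
    simp at h8
  have hNC : 0 < (N : ℝ) * C := mul_pos hN0 hC
  refine ⟨R, if γ - L < 0 then min (∑ i : Fin N, ∫ x, v i x ^ 2) (N * C) else N * C,
    by rw [← hΩ']; exact hEx, ?_, ?_, ?_⟩
  · split_ifs
    · exact lt_min hpos hNC
    · exact hNC
  · split_ifs
    · exact min_le_right _ _
    · exact le_rfl
  · rw [← hk, ← hV₀, ← hH, ← hg, ← hS]
    exact cs_fin N (ar N) V₀ g S H k _ cS cE s (dph N L 1 1) (γ - L) (N * C) (∑ i, W i) _ _ _
      hN0.le (by rw [harN, hV₀]) hV₀0 hN0 hH hs hs1 measureReal_nonneg hcE hWS hpos hHGy hsmall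
      hnormS hsum2 rfl

end Pool.Agent.H69.LQ
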