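import Pool.Agent.H69.LQ.Lib

/-!
# LQ, row CR: the theorem for centred sets
-/

set_option autoImplicit false

open MeasureTheory Metric Set
open scoped ENNReal

namespace Pool.Agent.H69.LQ

open Pool.Agent.H85.LK (E adm lam Ann)

theorem vol_shell (N : ℕ) (k : ℝ) (hN : 2 ≤ N) (hk : 0 < k) : ∃ κ₀ : ℝ, 0 < κ₀ ∧
    ∀ κ : ℝ, 0 < κ → κ ≤ κ₀ → κ < 1 → ∀ Ω : Set (E N), volume Ω = volume (ball (0 : E N) 1) →
      ball 0 (1 - κ) ⊆ Ω → volume (Ω \ ball (0 : E N) (1 - κ)) ≤ ENNReal.ofReal k := by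
  haveI : Nonempty (Fin N) := ⟨⟨0, by omega⟩⟩
  obtain ⟨V₀, hV₀⟩ : ∃ V₀ : ℝ, V₀ = volume.real (ball (0 : E N) 1) := ⟨_, rfl⟩
  have hV₀0 : 0 ≤ V₀ := by rw [hV₀]; exact measureReal_nonneg
  refine ⟨k / (N * V₀ + 1), by positivity, ?_⟩
  intro κ hκ hκle hκ1 Ω hΩ hsub
  have h1 : volume (ball (0 : E N) (1 - κ)) ≠ ⊤ := measure_ball_lt_top.ne
  rw [measure_diff hsub measurableSet_ball.nullMeasurableSet h1, hΩ]
  have h2 : volume (ball (0 : E N) (1 - κ)) = ENNReal.ofReal ((1 - κ) ^ N) *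
      volume (ball (0 : E N) 1) := by
    rw [Measure.addHaar_ball _ _ (by linarith)]
    simp
  rw [h2]
  have h3 : volume (ball (0 : E N) 1) = ENNReal.ofReal V₀ := by
    rw [hV₀, Measure.real, ENNReal.ofReal_toReal measure_ball_lt_top.ne]
  rw [h3, ← ENNReal.ofReal_mul (pow_nonneg (by linarith) _),
    ← ENNReal.ofReal_sub _ (mul_nonneg (pow_nonneg (by linarith) _) hV₀0)]
  refine ENNReal.ofReal_le_ofReal ?_
  have h4 : 1 - N * κ ≤ (1 - κ) ^ N := by
    have := one_add_mul_le_pow (a := -κ) (by linarith) N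
    have h5 : (1 + -κ) = 1 - κ := by ring
    rw [h5] at this
    linarith
  have h5 : κ * (N * V₀ + 1) ≤ k := by
    rw [le_div_iff₀ (by positivity)] at hκle
    exact hκle
  nlinarith [mul_le_mul_of_nonneg_right h4 hV₀0]

theorem sq_int_zero {N : ℕ} (v : E N → ℝ) (hv : Continuous v) (hc : HasCompactSupport v)
    (h : ∫ x, v x ^ 2 ≤ 0) : v = 0 := by
  have hcs : HasCompactSupport fun x => v x ^ 2 := by
    have := hc.comp_left (g := fun z : ℝ => z ^ 2) (by norm_num)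
    exact this
  have hI : Integrable fun x => v x ^ 2 := (hv.pow 2).integrable_of_hasCompactSupport hcs
  have h0 : ∫ x, v x ^ 2 = 0 := le_antisymm h (integral_nonneg fun x => sq_nonneg _)
  rw [integral_eq_zero_iff_of_nonneg (fun x => sq_nonneg _) hI] at h0
  have h1 : (fun x => v x ^ 2) = fun _ => (0 : ℝ) :=
    (Continuous.ae_eq_iff_eq volume (hv.pow 2) continuous_const).1 h0
  funext x
  have := congrFun h1 x
  simpa using this

theorem inner_single {N : ℕ} (i : Fin N) (θ : Sp N) :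
    inner ℝ (EuclideanSpace.single i (1 : ℝ)) (θ : E N) = (θ : E N) i := by
  rw [EuclideanSpace.inner_single_left]
  simp

theorem pf_CR (hMP : T_MP) (hMO : T_MO) (hPY : T_PY) (hLF : T_LF) (hPH : T_PH)
    (hPV : T_PV) (hBV : T_BV) (hEX : T_EX) (hV1 : T_V1) (hV2 : T_V2) (hV3 : T_V3) (hSU : T_SU)
    (hDI : T_DI) (hEN : T_EN) (hZ0 : T_Z0) (hCO : T_CO) (hAS : T_AS) : T_CR := by
  intro N L ε hN hFz hε
  obtain ⟨r₁, hr₁⟩ := hZ0 N L hN hFz
  obtain ⟨C, δE, hC, hδE, hδE', hr1, hENx⟩ := hEN N L r₁ hN hFz hr₁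
  obtain ⟨cS, s, δS, hcS, hs, hδS, hδS', hSUx⟩ := hSU N L hN hFz C hC
  obtain ⟨δB, hδB, hBVx⟩ := hBV N L hN hFz s hs
  obtain ⟨CA, δA, hCA, hδA, hδA', hASx⟩ := hAS N L hN hFz
  obtain ⟨hprob, har, harN, -⟩ := hMP N hN
  obtain ⟨hp1, -, -, -, -, -, -⟩ := hPV N L hN hFz
  have hN0 : (0 : ℝ) < N := by
    have : 0 < N := by omega
    exact_mod_cast this
  obtain ⟨V₀, hV₀⟩ : ∃ V₀ : ℝ, V₀ = volume.real (ball (0 : E N) 1) := ⟨_, rfl⟩
  have hV₀0 : 0 ≤ V₀ := by rw [hV₀]; exact measureReal_nonneg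
  obtain ⟨D, hD⟩ : ∃ D : ℝ, D = L / ((N : ℝ) + 2) - ((N : ℝ) + 1) := ⟨_, rfl⟩
  obtain ⟨M, hM⟩ : ∃ M : ℝ, M = N + s + |D| := ⟨_, rfl⟩
  have hM0 : 0 < M := by rw [hM]; positivity
  obtain ⟨δ, hδ, hδ1, hδ2, hδ3, hδ4, hδ5, hδ6⟩ : ∃ δ : ℝ, 0 < δ ∧ δ ≤ δE ∧ δ ≤ δS ∧ δ ≤ δB ∧
      5 * δ ≤ δA ∧ 5 * δ ≤ ε ∧ 12 * (M + C) * δ ≤ 1 := by
    refine ⟨min δE (min δS (min δB (min (δA / 5) (min (ε / 5) (1 / (12 * (M + C))))))), ?_,
      min_le_left _ _, (min_le_right _ _).trans (min_le_left _ _),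
      (min_le_right _ _).trans ((min_le_right _ _).trans (min_le_left _ _)), ?_, ?_, ?_⟩
    · have : 0 < 1 / (12 * (M + C)) := by positivity
      exact lt_min hδE (lt_min hδS (lt_min hδB (lt_min (by linarith) (lt_min (by linarith) this))))
    · have h1 : min δE (min δS (min δB (min (δA / 5) (min (ε / 5) (1 / (12 * (M + C))))))) ≤
          δA / 5 := (min_le_right _ _).trans ((min_le_right _ _).trans
            ((min_le_right _ _).trans (min_le_left _ _)))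
      linarith
    · have h1 : min δE (min δS (min δB (min (δA / 5) (min (ε / 5) (1 / (12 * (M + C))))))) ≤
          ε / 5 := (min_le_right _ _).trans ((min_le_right _ _).trans
            ((min_le_right _ _).trans ((min_le_right _ _).trans (min_le_left _ _))))
      linarith
    · have h1 : min δE (min δS (min δB (min (δA / 5) (min (ε / 5) (1 / (12 * (M + C))))))) ≤
          1 / (12 * (M + C)) := (min_le_right _ _).trans ((min_le_right _ _).trans
            ((min_le_right _ _).trans ((min_le_right _ _).trans (min_le_right _ _))))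
      rw [le_div_iff₀ (by positivity)] at h1
      linarith
  have hδ20 : δ ≤ 1 / 20 := hδ1.trans hδE'
  obtain ⟨κ', cE, hκ', hcE, hENy⟩ := hENx δ hδ hδ1
  obtain ⟨κ₀, hκ₀, hshell⟩ := vol_shell N κ' hN hκ'
  obtain ⟨d2lo, d3lo⟩ := hBVx δ hδ hδ3
  obtain ⟨a, ha⟩ : ∃ a, a = 1 - δ := ⟨_, rfl⟩
  obtain ⟨d2, hd2⟩ : ∃ d2, d2 = dd N L 2 (1 + δ / 2) (1 - δ) := ⟨_, rfl⟩
  obtain ⟨d3, hd3⟩ : ∃ d3, d3 = dd N L 3 (1 + δ / 2) (1 - δ) := ⟨_, rfl⟩
  rw [← hd2] at d2lo
  rw [← hd3, ← hD] at d3lo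
  have hd2' : dd N L 2 (1 + δ / 2) a = d2 := by rw [ha, hd2]
  have hd3' : dd N L 3 (1 + δ / 2) a = d3 := by rw [ha, hd3]
  have hd2M : -M ≤ d2 := by rw [hM]; have := abs_nonneg D; linarith
  have hd3M : -M ≤ d3 := by rw [hM]; have := neg_abs_le D; linarith
  have hpa : 0 < ph N L 1 a := hp1 a (by linarith) (by linarith)
  refine ⟨min (min κ₀ (δ / 2)) (1 / 2),
    min (cE / (4 * (4 * V₀ ^ 2 + V₀ + 1)))
      (ar N * cS / (N * C * (4 * V₀ ^ 2 * CA ^ 2 + V₀ + 1))), ?_, ?_, ?_, ?_⟩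
  · exact lt_min (lt_min hκ₀ (by linarith)) (by norm_num)
  · exact (min_le_right _ _).trans_lt (by norm_num)
  · exact lt_min (by positivity) (by positivity)
  intro Ω γ hΩ hvol hball hcen hγ
  obtain ⟨κ, hκdef⟩ : ∃ κ, κ = min (min κ₀ (δ / 2)) (1 / 2) := ⟨_, rfl⟩
  rw [← hκdef] at hball
  have hκ0 : 0 < κ := by rw [hκdef]; exact lt_min (lt_min hκ₀ (by linarith)) (by norm_num)
  have hκ1 : κ ≤ κ₀ := by rw [hκdef]; exact (min_le_left _ _).trans (min_le_left _ _)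
  have hκ2 : κ ≤ δ / 2 := by rw [hκdef]; exact (min_le_left _ _).trans (min_le_right _ _)
  have hκ3 : κ < 1 := by
    rw [hκdef]; exact (min_le_right _ _).trans_lt (by norm_num)
  obtain ⟨c, hcdef⟩ : ∃ c, c = min (cE / (4 * (4 * V₀ ^ 2 + V₀ + 1)))
      (ar N * cS / (N * C * (4 * V₀ ^ 2 * CA ^ 2 + V₀ + 1))) := ⟨_, rfl⟩
  rw [← hcdef]
  have hc0 : 0 < c := by rw [hcdef]; exact lt_min (by positivity) (by positivity)
  have hc1 : c * (4 * V₀ ^ 2 + V₀) ≤ cE / 4 := by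
    have h1 : c ≤ cE / (4 * (4 * V₀ ^ 2 + V₀ + 1)) := by rw [hcdef]; exact min_le_left _ _
    rw [le_div_iff₀ (by positivity)] at h1
    linarith
  have hc2 : c * (4 * V₀ ^ 2 * CA ^ 2 + V₀) * (N * C) ≤ ar N * cS := by
    have h1 : c ≤ ar N * cS / (N * C * (4 * V₀ ^ 2 * CA ^ 2 + V₀ + 1)) := by
      rw [hcdef]; exact min_le_right _ _
    rw [le_div_iff₀ (by positivity)] at h1
    have h2 : 0 ≤ c * (N * C) := by positivity
    linarith
  -- geometry
  have hclosed : closedBall (0 : E N) (1 - δ) ⊆ Ω :=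
    (closedBall_subset_ball (by linarith)).trans hball
  have hfar : volume (Ω \ closedBall (0 : E N) (1 + δ / 2)) ≤ ENNReal.ofReal κ' := by
    refine le_trans (measure_mono ?_) (hshell κ hκ0 hκ1 hκ3 Ω hvol hball)
    exact diff_subset_diff_right ((ball_subset_ball (by linarith)).trans ball_subset_closedBall)
  obtain ⟨R, hEx⟩ := hEX N Ω (1 - δ) (1 + 5 * δ) hN (by linarith) (by linarith) hΩ hclosed
  obtain ⟨hg0, hvfar⟩ := hV1 N Ω (1 - δ) (1 + 5 * δ) R hN (by linarith) (by linarith) hΩ hvol hEx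
  have hvsd := hV2 N Ω (1 - δ) (1 + 5 * δ) R hN (by linarith) (by linarith) hΩ hvol hEx
  have hcent := hV3 N Ω (1 - δ) (1 + 5 * δ) R hN (by linarith) (by linarith) hΩ hvol hEx hcen
  obtain ⟨g, hg⟩ : ∃ g, g = 1 - av (fun θ => R θ ^ N) := ⟨_, rfl⟩
  obtain ⟨S, hS⟩ : ∃ S, S = av (fun θ => (R θ - 1) ^ 2) := ⟨_, rfl⟩
  have hS0 : 0 ≤ S := by rw [hS]; exact av_sq_nonneg _
  have hRBM : BM R := ⟨hEx.meas, 2, fun θ => by
    rw [abs_of_pos (by linarith [hEx.lo θ])]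
    linarith [hEx.hi θ]⟩
  have hvolfin : volume Ω ≠ ⊤ := by rw [hvol]; exact measure_ball_lt_top.ne
  have hvolR : volume.real Ω = V₀ := by rw [hV₀, Measure.real, Measure.real, hvol]
  -- the volumes
  have hfar2 : volume.real (Ω \ ball (0 : E N) (1 + ε)) ≤ V₀ * g := by
    rw [hg, hV₀]
    refine le_trans (measureReal_mono (diff_subset_diff_right (ball_subset_ball (by linarith)))
      ?_) hvfar
    exact (lt_of_le_of_lt (measure_mono diff_subset) (lt_top_iff_ne_top.2 hvolfin)).ne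
  have hfar3 : volume.real (Ω \ ball (0 : E N) (1 + ε)) ≤ V₀ := by
    rw [← hvolR]
    exact measureReal_mono diff_subset hvolfin
  have hsd0 : 0 ≤ volume.real (symmDiff Ω (ball (0 : E N) 1)) := measureReal_nonneg
  have hsd1 : volume.real (symmDiff Ω (ball (0 : E N) 1)) ≤ 2 * V₀ := by
    have h1 : symmDiff Ω (ball (0 : E N) 1) ⊆ Ω ∪ ball (0 : E N) 1 := by
      intro x hx
      rcases hx with h | h
      · exact Or.inl h.1
      · exact Or.inr h.1
    have h2 : volume.real (symmDiff Ω (ball (0 : E N) 1)) ≤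
        volume.real (Ω ∪ ball (0 : E N) 1) :=
      measureReal_mono h1 (measure_union_lt_top (lt_top_iff_ne_top.2 hvolfin)
        measure_ball_lt_top).ne
    have h3 := measureReal_union_le (μ := volume) Ω (ball (0 : E N) 1)
    rw [hvolR, ← hV₀] at h3
    linarith
  have hsd2 : volume.real (symmDiff Ω (ball (0 : E N) 1)) ^ 2 ≤ 4 * V₀ ^ 2 * CA ^ 2 * S := by
    have hx : BM (fun θ => |R θ ^ N - 1|) := ((hRBM.pow N).sub (BM_const 1)).abs
    have h1 := av_cs hx (BM_const (N := N) 1)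
    have h2 : (fun θ : Sp N => |R θ ^ N - 1| * 1) = fun θ => |R θ ^ N - 1| := by
      funext θ; rw [mul_one]
    have h3 : av (fun _ : Sp N => (1 : ℝ) ^ 2) = 1 := by
      have := (hMO N hN).1
      simpa using this
    rw [h2, h3, mul_one] at h1
    have h4 : av (fun θ : Sp N => |R θ ^ N - 1| ^ 2) ≤ CA ^ 2 * S := by
      rw [hS, ← av_const_mul]
      refine av_mono (hx.pow 2) (((hRBM.sub (BM_const 1)).pow 2).const_mul _) fun θ => ?_
      have h5 := (hASx (R θ) (by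
        rw [abs_le]; constructor <;> linarith [hEx.lo θ, hEx.hi θ])).2.2.2.2.1
      rw [← sq_abs (R θ - 1), ← mul_pow]
      exact pow_le_pow_left₀ (abs_nonneg _) h5 2
    have h5 : volume.real (symmDiff Ω (ball (0 : E N) 1)) ^ 2 ≤
        (2 * V₀ * av (fun θ => |R θ ^ N - 1|)) ^ 2 := by
      rw [← hV₀] at hvsd
      exact pow_le_pow_left₀ hsd0 hvsd 2
    refine h5.trans ?_
    rw [mul_pow, mul_pow]
    have h6 : av (fun θ : Sp N => |R θ ^ N - 1|) ^ 2 ≤ CA ^ 2 * S := h1.trans h4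
    nlinarith [mul_le_mul_of_nonneg_left h6 (sq_nonneg V₀)]
  -- the trivial case
  rcases le_or_gt (cE / 4) (γ - L) with hbig | hsmall
  · have h1 : volume.real (symmDiff Ω (ball (0 : E N) 1)) ^ 2 ≤ 4 * V₀ ^ 2 := by
      have := pow_le_pow_left₀ hsd0 hsd1 2
      linarith
    nlinarith [mul_le_mul_of_nonneg_left h1 hc0.le, mul_le_mul_of_nonneg_left hfar3 hc0.le]
  -- the test space
  obtain ⟨V, hVdim, hV⟩ := hγ
  obtain ⟨hCO1, hCOu⟩ := hCO N hN
  have hcont : ∀ v ∈ V, ∀ r : ℝ, BM (rs v r) := fun v hv r =>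
    BM_cont ((hCOu v (hV v hv).1).1.comp (continuous_const.prodMk continuous_id))
  have hEV : ∀ v ∈ V, (∫ x, ‖fderiv ℝ v x‖ ^ 2) - L * ∫ x, v x ^ 2 ≤
      (γ - L) * ∫ x, v x ^ 2 := fun v hv => by
    have := (hV v hv).2.2.2
    linarith
  obtain ⟨l, hl⟩ : ∃ l : (E N → ℝ) → ℝ, ∀ v, l v = av (rs v (r₁ / (1 + δ / 2))) :=
    ⟨_, fun _ => rfl⟩
  obtain ⟨T, hT⟩ : ∃ T : (E N → ℝ) → E N, ∀ v j, T v j = c1 (rs v a) j / ph N L 1 a :=
    ⟨fun v => WithLp.toLp 2 fun j => c1 (rs v a) j / ph N L 1 a, fun _ _ => rfl⟩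
  have hTc : ∀ v j, c1 (rs v a) j = T v j * ph N L 1 a := fun v j => by
    rw [hT]; field_simp
  have hker : ∀ v ∈ V, l v = 0 → T v = 0 → v = 0 := by
    intro v hv hlv hTv
    obtain ⟨h1, h2, h3, -⟩ := hV v hv
    obtain ⟨e, W, he, he0, hW0, hω, hnorm, hen⟩ := hENy Ω R v 0 hΩ hfar hEx h1 h2 h3
      (by rw [← hl]; exact hlv) (fun j => by
        rw [← ha, hTc, hTv])
    simp only [inner_zero_left, zero_mul, sub_zero, add_zero, norm_zero, mul_zero,
      ne_eq, OfNat.ofNat_ne_zero, not_false_eq_true, zero_pow, zero_add] at hω hnorm hen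
    rw [av_zero, ← ha, hd2', hd3', zero_add] at hen
    rw [← ha] at hω
    have hBMω := hcont v hv a
    obtain ⟨hpyt, -⟩ := hPY N (rs v a) hN hBMω
    have hn0 : 0 ≤ n0 (rs v a) := by unfold n0; exact sq_nonneg _
    have hn1 : 0 ≤ n1 (rs v a) := by
      unfold n1; exact div_nonneg (Finset.sum_nonneg fun j _ => sq_nonneg _) hN0.le
    have hn2 : 0 ≤ n2 (rs v a) := by
      unfold n2
      exact mul_nonneg (by positivity)
        (Finset.sum_nonneg fun j _ => Finset.sum_nonneg fun k _ => sq_nonneg _)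
    have hn3 : 0 ≤ n3 (rs v a) := by unfold n3; exact av_sq_nonneg _
    have hQ : av (fun θ => rs v a θ ^ 2) ≤ 6 * δ * av e := by
      rw [← av_const_mul]
      exact av_mono (hBMω.pow 2) (he.const_mul _) hω
    obtain ⟨Q, hQdef⟩ : ∃ Q, Q = av (fun θ => rs v a θ ^ 2) := ⟨_, rfl⟩
    rw [← hQdef] at hQ hpyt hen
    have hQ0 : 0 ≤ Q := by rw [hQdef]; exact av_sq_nonneg _
    have h5 : 0 ≤ d2 * n2 (rs v a) + d3 * n3 (rs v a) + M * Q := by
      have h6 : 0 ≤ (d2 + M) * n2 (rs v a) := mul_nonneg (by linarith) hn2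
      have h7 : 0 ≤ (d3 + M) * n3 (rs v a) := mul_nonneg (by linarith) hn3
      have h8 : M * (n2 (rs v a) + n3 (rs v a)) ≤ M * Q :=
        mul_le_mul_of_nonneg_left (by linarith) hM0.le
      linarith
    have h6 : (M + C) * Q ≤ 1 / 2 * av e := by
      have h7 : (M + C) * Q ≤ (M + C) * (6 * δ * av e) :=
        mul_le_mul_of_nonneg_left hQ (by linarith)
      have h8 : (M + C) * (6 * δ * av e) ≤ 1 / 2 * av e := by
        have h9 := mul_le_mul_of_nonneg_right hδ6 (av_nonneg he0)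
        linarith
      linarith
    have h7 : C * δ * Q ≤ C * Q := by
      have : C * δ * Q ≤ C * 1 * Q := by
        refine mul_le_mul_of_nonneg_right ?_ hQ0
        exact mul_le_mul_of_nonneg_left (by linarith) hC.le
      linarith
    have h8 : cE * W ≤ (γ - L) * ∫ x, v x ^ 2 := by
      refine le_trans ?_ (hEV v hv)
      refine le_trans ?_ hen
      have h9 : 0 ≤ ar N * (d2 * n2 (rs v a) + d3 * n3 (rs v a) +
          1 / 2 * av e - C * δ * Q) := mul_nonneg har.le (by linarith)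
      linarith
    have h9 : 0 ≤ ∫ x, v x ^ 2 := integral_nonneg fun x => sq_nonneg _
    have h10 : (γ - L) * (∫ x, v x ^ 2) ≤ cE / 4 * ∫ x, v x ^ 2 :=
      mul_le_mul_of_nonneg_right hsmall.le h9
    have h11 : cE / 4 * (∫ x, v x ^ 2) ≤ cE / 4 * (2 * W) :=
      mul_le_mul_of_nonneg_left (by linarith) (by linarith)
    have h12 : W ≤ 0 := by
      by_contra hcon
      have : 0 < cE * W := mul_pos hcE (not_le.1 hcon)
      linarith
    exact sq_int_zero v h1.continuous h2 (by linarith)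
  -- linearity
  have hadd : ∀ v ∈ V, ∀ w ∈ V, l (v + w) = l v + l w ∧ T (v + w) = T v + T w := by
    intro v hv w hw
    have h1 : ∀ r : ℝ, ∀ P : Sp N → ℝ, BM P → av (fun θ => rs (v + w) r θ * P θ) =
        av (fun θ => rs v r θ * P θ) + av (fun θ => rs w r θ * P θ) := by
      intro r P hP
      rw [← av_add ((hcont v hv r).mul hP) ((hcont w hw r).mul hP)]
      congr 1
      funext θ
      show (v (r • (θ : E N)) + w (r • (θ : E N))) * P θ = _
      unfold rs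
      ring
    constructor
    · have h2 := h1 (r₁ / (1 + δ / 2)) (fun _ => 1) (BM_const 1)
      simp only [mul_one] at h2
      rw [hl, hl, hl]
      exact h2
    · ext j
      have h2 := h1 a (fun θ => (θ : E N) j) (BM_coord j)
      rw [PiLp.add_apply, hT, hT, hT]
      unfold c1
      rw [h2]
      ring
  have hsmul : ∀ v ∈ V, ∀ k : ℝ, l (k • v) = k * l v ∧ T (k • v) = k • T v := by
    intro v hv k
    have h1 : ∀ r : ℝ, ∀ P : Sp N → ℝ, av (fun θ => rs (k • v) r θ * P θ) =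
        k * av (fun θ => rs v r θ * P θ) := by
      intro r P
      rw [← av_const_mul]
      congr 1
      funext θ
      show (k * v (r • (θ : E N))) * P θ = _
      unfold rs
      ring
    constructor
    · have h2 := h1 (r₁ / (1 + δ / 2)) (fun _ => 1)
      simp only [mul_one] at h2
      rw [hl, hl]
      exact h2
    · ext j
      have h2 := h1 a (fun θ => (θ : E N) j)
      rw [PiLp.smul_apply, hT, hT, smul_eq_mul]
      unfold c1
      rw [h2]
      ring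
  have hex : ∀ i : Fin N, ∃ v ∈ V, l v = 0 ∧ T v = EuclideanSpace.single i (1 : ℝ) := fun i =>
    hDI N V l T hVdim hadd hsmul hker _
  choose v hvV hvl hvT using hex
  have hENz : ∀ i : Fin N, ∃ (e : Sp N → ℝ) (W : ℝ), BM e ∧ (∀ θ, 0 ≤ e θ) ∧ 0 ≤ W ∧
      (∀ θ : Sp N, (rs (v i) a θ - (θ : E N) i * ph N L 1 a +
        (θ : E N) i * ph N L 1 (R θ)) ^ 2 ≤ 6 * δ * e θ) ∧
      ∫ x, v i x ^ 2 ≤ C + 2 * W ∧
      ar N * (av (fun θ => (θ : E N) i ^ 2 * ff N L (R θ)) + d2 * n2 (rs (v i) a) +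
        d3 * n3 (rs (v i) a) + 1 / 2 * av e -
        C * δ * av (fun θ => (rs (v i) a θ - (θ : E N) i * ph N L 1 a) ^ 2) -
        C * δ * S) + cE * W ≤ (γ - L) * ∫ x, v i x ^ 2 := by
    intro i
    obtain ⟨h1, h2, h3, -⟩ := hV (v i) (hvV i)
    obtain ⟨e, W, he, he0, hW0, hω, hnorm, hen⟩ := hENy Ω R (v i)
      (EuclideanSpace.single i (1 : ℝ)) hΩ hfar hEx h1 h2 h3
      (by rw [← hl]; exact hvl i) (fun j => by
        rw [← ha, hTc, hvT i])
    have hn1 : ‖EuclideanSpace.single i (1 : ℝ)‖ = 1 := by simp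
    simp only [inner_single, hn1, one_pow, mul_one] at hω hnorm hen
    rw [← ha, ← hS, hd2', hd3'] at hen
    rw [← ha] at hω
    exact ⟨e, W, he, he0, hW0, hω, hnorm, hen.trans (hEV _ (hvV i))⟩
  choose e W he he0 hW0 hω hnorm hen using hENz
  -- the functions `ω i`
  obtain ⟨ω, hωdef⟩ : ∃ ω : Fin N → Sp N → ℝ, ∀ i, ω i = fun θ : Sp N =>
      rs (v i) a θ - (θ : E N) i * ph N L 1 a := ⟨_, fun _ => rfl⟩
  have hLFi : ∀ i, (∀ j, av (fun θ => ω i θ * (θ : E N) j) = 0) ∧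
      n2 (ω i) = n2 (rs (v i) a) ∧ n3 (ω i) = n3 (rs (v i) a) := by
    intro i
    obtain ⟨h1, h2, h3, h4, -⟩ := hLF N (rs (v i) a)
      ((ph N L 1 a) • EuclideanSpace.single i (1 : ℝ)) hN (hcont _ (hvV i) a)
    have h5 : (fun θ : Sp N => rs (v i) a θ -
        inner ℝ ((ph N L 1 a) • EuclideanSpace.single i (1 : ℝ)) (θ : E N)) = ω i := by
      rw [hωdef]
      funext θ
      rw [real_inner_smul_left, inner_single]
      ring
    rw [h5] at h1 h2 h3 h4
    refine ⟨fun j => ?_, ?_, ?_⟩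
    · have h6 := h1 j
      rw [hTc, hvT i] at h6
      have h7 : ((ph N L 1 a) • (EuclideanSpace.single i (1 : ℝ) : E N)) j =
          (EuclideanSpace.single i (1 : ℝ) : E N) j * ph N L 1 a := by
        rw [PiLp.smul_apply, smul_eq_mul]; ring
      rw [h7, sub_self] at h6
      unfold c1 at h6
      exact (mul_eq_zero.1 h6).resolve_left hN0.ne'
    · unfold n2
      simp only [h3]
    · unfold n3
      simp only [h4]
  have hωBM : ∀ i, BM (ω i) := fun i => by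
    rw [hωdef]
    exact (hcont _ (hvV i) a).sub ((BM_coord i).mul (BM_const _))
  have hsum := hSUx δ d2 d3 R ω e hδ hδ2 d2lo (by rw [← hD]; exact d3lo) hEx.meas
    (fun θ => ⟨hEx.lo θ, hEx.hi θ⟩)
    (fun i => ⟨hωBM i, he i, fun θ => by rw [hωdef]; exact hω i θ, (hLFi i).1⟩) hg0 hcent
  rw [← hg, ← hS] at hsum
  have hsum2 : ar N * (cS * (g + S)) + cE * ∑ i, W i ≤ (γ - L) * ∑ i, ∫ x, v i x ^ 2 := by
    have h1 := mul_le_mul_of_nonneg_left hsum har.le
    rw [Finset.mul_sum] at h1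
    rw [Finset.mul_sum, Finset.mul_sum]
    have h2 : ∑ i, (ar N * (av (fun θ => (θ : E N) i ^ 2 * ff N L (R θ)) + d2 * n2 (ω i) +
        d3 * n3 (ω i) + 1 / 2 * av (e i) - C * δ * av (fun θ => ω i θ ^ 2) - C * δ * S) +
        cE * W i) ≤ ∑ i, (γ - L) * ∫ x, v i x ^ 2 := by
      refine Finset.sum_le_sum fun i _ => ?_
      have h3 := hen i
      rw [(hLFi i).2.1, (hLFi i).2.2, hωdef]
      exact h3
    rw [Finset.sum_add_distrib] at h2
    linarith
  have hnormS : ∑ i, (∫ x, v i x ^ 2) ≤ N * C + 2 * ∑ i, W i := by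
    have h1 : ∑ i : Fin N, (∫ x, v i x ^ 2) ≤ ∑ i, (C + 2 * W i) :=
      Finset.sum_le_sum fun i _ => hnorm i
    rw [Finset.sum_add_distrib, ← Finset.mul_sum] at h1
    simpa using h1
  have hWS : 0 ≤ ∑ i, W i := Finset.sum_nonneg fun i _ => hW0 i
  have hg0' : 0 ≤ g := by rw [hg]; exact hg0
  have hnn : 0 ≤ ∑ i : Fin N, ∫ x, v i x ^ 2 :=
    Finset.sum_nonneg fun i _ => integral_nonneg fun x => sq_nonneg _
  have hG : 0 ≤ γ - L := by
    by_contra hcon
    rw [not_le] at hcon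
    have h1 : 0 ≤ ar N * (cS * (g + S)) + cE * ∑ i, W i := by positivity
    have h2 : ∑ i : Fin N, (∫ x, v i x ^ 2) ≤ 0 := by
      by_contra hcon2
      have := mul_neg_of_neg_of_pos hcon (not_le.1 hcon2)
      linarith
    have i₀ : Fin N := ⟨0, by omega⟩
    have h3 : ∫ x, v i₀ x ^ 2 ≤ 0 := by
      refine le_trans ?_ h2
      exact Finset.single_le_sum (f := fun i => ∫ x, v i x ^ 2)
        (fun i _ => integral_nonneg fun x => sq_nonneg _) (Finset.mem_univ i₀)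
    obtain ⟨h4, h5, -, -⟩ := hV (v i₀) (hvV i₀)
    have h6 := sq_int_zero (v i₀) h4.continuous h5 h3
    have h7 := (hsmul (v i₀) (hvV i₀) 0).2
    rw [zero_smul, zero_smul, ← h6, hvT i₀] at h7
    have h8 := congrArg (fun z : E N => z i₀) h7
    simp at h8
  have h1 : (γ - L) * (∑ i, ∫ x, v i x ^ 2) ≤ (γ - L) * (N * C) + cE / 2 * ∑ i, W i := by
    have h2 := mul_le_mul_of_nonneg_left hnormS hG
    have h3 : (γ - L) * (∑ i, W i) ≤ cE / 4 * ∑ i, W i :=
      mul_le_mul_of_nonneg_right hsmall.le hWS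
    linarith
  have h2 : ar N * cS * (g + S) ≤ (γ - L) * (N * C) := by
    have : 0 ≤ cE * ∑ i, W i := mul_nonneg hcE.le hWS
    linarith
  have h3 : c * (4 * V₀ ^ 2 * CA ^ 2 + V₀) * (N * C) * (g + S) ≤ (γ - L) * (N * C) :=
    (mul_le_mul_of_nonneg_right hc2 (by linarith)).trans h2
  have h4 : c * (4 * V₀ ^ 2 * CA ^ 2 + V₀) * (g + S) ≤ γ - L := by
    have hNC : 0 < (N : ℝ) * C := mul_pos hN0 hC
    by_contra hcon
    have := mul_lt_mul_of_pos_right (not_le.1 hcon) hNC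
    linarith
  have h5 : c * volume.real (symmDiff Ω (ball (0 : E N) 1)) ^ 2 ≤
      c * (4 * V₀ ^ 2 * CA ^ 2 * S) := mul_le_mul_of_nonneg_left hsd2 hc0.le
  have h6 : c * volume.real (Ω \ ball (0 : E N) (1 + ε)) ≤ c * (V₀ * g) :=
    mul_le_mul_of_nonneg_left hfar2 hc0.le
  have h7 : 0 ≤ c * (4 * V₀ ^ 2 * CA ^ 2) * g := by positivity
  have h8 : 0 ≤ c * V₀ * S := by positivity
  linarith

end Pool.Agent.H69.LQ
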