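import Pool.Agent.H69.LQ.Lib

/-!
# LQ, row EN: the inequality for one function
-/

set_option autoImplicit false

open MeasureTheory Metric Set
open scoped ENNReal

namespace Pool.Agent.H69.LQ

open Pool.Agent.H85.LK (E adm lam Ann)

variable {N : ℕ}

/-- an integral over the whole space splits into the ball and the annulus -/
theorem split_int (F : E N → ℝ) (a b : ℝ) (hF : Continuous F) (hc : HasCompactSupport F)
    (ha : 0 < a) (hb : 0 < b) (h0 : ∀ x, b < ‖x‖ → F x = 0) :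
    ∫ x, F x = (∫ x in ball (0 : E N) a, F x) + ∫ x in an a b, F x := by
  have hI : Integrable F := hF.integrable_of_hasCompactSupport hc
  have h1 := integral_add_compl (s := ball (0 : E N) a) isOpen_ball.measurableSet hI
  rw [← h1]
  congr 1
  have hm : MeasurableSet (an a b : Set (E N)) := by
    have : (an a b : Set (E N)) = (fun x : E N => ‖x‖) ⁻¹' Ioo a b := by
      ext x; simp [an]
    rw [this]
    exact measurable_norm measurableSet_Ioo
  rw [← integral_indicator isOpen_ball.measurableSet.compl, ← integral_indicator hm]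
  refine integral_congr_ae ?_
  have hs1 : volume (sphere (0 : E N) a) = 0 := Measure.addHaar_sphere_of_ne_zero _ _ ha.ne'
  have hs2 : volume (sphere (0 : E N) b) = 0 := Measure.addHaar_sphere_of_ne_zero _ _ hb.ne'
  have h3 : ∀ᵐ x : E N, x ∉ sphere (0 : E N) a ∪ sphere (0 : E N) b := by
    rw [ae_iff]
    simp only [not_not]
    exact measure_union_null hs1 hs2
  filter_upwards [h3] with x hx
  simp only [mem_union, mem_sphere_zero_iff_norm, not_or] at hx
  by_cases hxa : ‖x‖ < a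
  · rw [indicator_of_notMem (by simp [hxa]), indicator_of_notMem]
    simp only [an, mem_setOf_eq, not_and]
    intro h
    exact absurd hxa (not_lt.2 h.le)
  · have hxa' : a < ‖x‖ := lt_of_le_of_ne (not_lt.1 hxa) (Ne.symm hx.1)
    rw [indicator_of_mem (by simpa using not_lt.1 hxa)]
    by_cases hxb : ‖x‖ < b
    · rw [indicator_of_mem (by exact ⟨hxa', hxb⟩)]
    · have hxb' : b < ‖x‖ := lt_of_le_of_ne (not_lt.1 hxb) (Ne.symm hx.2)
      rw [indicator_of_notMem (by intro h; exact hxb h.2), h0 x hxb']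

theorem fderiv_zero_outside (u : E N → ℝ) (b : ℝ) (h0 : ∀ x, b ≤ ‖x‖ → u x = 0) (x : E N)
    (hx : b < ‖x‖) : fderiv ℝ u x = 0 := by
  have h1 : u =ᶠ[nhds x] fun _ => 0 := by
    have h2 : ∀ᶠ y in nhds x, b < ‖y‖ := continuous_norm.continuousAt.eventually (lt_mem_nhds hx)
    filter_upwards [h2] with y hy
    exact h0 y hy.le
  rw [h1.fderiv_eq]
  simp

theorem gT_bound (L K : ℝ) (hK : ∀ r, 0 ≤ r → r ≤ 2 → |ph N L 1 r| ≤ K) (T x : E N)
    (hx : ‖x‖ ≤ 2) : |gT L T x| ≤ K * ‖T‖ := by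
  have hK0 : 0 ≤ K := (abs_nonneg _).trans (hK 0 le_rfl (by norm_num))
  by_cases h : x = 0
  · subst h
    unfold gT
    rw [inner_zero_right, zero_mul, abs_zero]
    positivity
  · have hn : 0 < ‖x‖ := norm_pos_iff.2 h
    have hθ : ‖x‖⁻¹ • x ∈ sphere (0 : E N) 1 := by
      rw [mem_sphere_zero_iff_norm, norm_smul, norm_inv, norm_norm, inv_mul_cancel₀ hn.ne']
    have h1 : x = ‖x‖ • (((⟨‖x‖⁻¹ • x, hθ⟩ : Sp N)) : E N) := by
      show x = ‖x‖ • (‖x‖⁻¹ • x)
      rw [smul_smul, mul_inv_cancel₀ hn.ne', one_smul]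
    rw [h1, gT_smul, abs_mul, mul_comm]
    refine mul_le_mul (hK _ hn.le hx) ?_ (abs_nonneg _) hK0
    refine (abs_real_inner_le_norm _ _).trans ?_
    rw [norm_sp, mul_one]

theorem inner_sq_le (T : E N) (θ : Sp N) : inner ℝ T (θ : E N) ^ 2 ≤ ‖T‖ ^ 2 := by
  have h := abs_real_inner_le_norm T (θ : E N)
  rw [norm_sp, mul_one] at h
  rw [← sq_abs]
  exact pow_le_pow_left₀ (abs_nonneg _) h 2

/-- the boundary term -/
theorem av_bdry (hMP : T_MP) (hMO : T_MO) (hLF : T_LF) (hN : 2 ≤ N) (F : Sp N → ℝ) (hF : BM F)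
    (T : E N) (k q : ℝ) (hc : ∀ j, c1 F j = T j * q) :
    av (fun θ : Sp N => k * (inner ℝ T (θ : E N) ^ 2 * q + 2 * inner ℝ T (θ : E N) *
      (F θ - inner ℝ T (θ : E N) * q))) = k * q * (‖T‖ ^ 2 / N) := by
  have hN0 : (N : ℝ) ≠ 0 := by
    have : (N : ℕ) ≠ 0 := by omega
    exact_mod_cast this
  have hG : BM (fun θ => F θ - inner ℝ T (θ : E N) * q) := hF.sub ((BM_inner T).mul (BM_const q))
  have h1 : ∀ j : Fin N, av (fun θ => (F θ - inner ℝ T (θ : E N) * q) * (θ : E N) j) = 0 := by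
    intro j
    have h2 := (hLF N F (q • T) hN hF).1 j
    have h3 : (fun θ : Sp N => F θ - inner ℝ (q • T) (θ : E N)) =
        fun θ => F θ - inner ℝ T (θ : E N) * q := by
      funext θ
      rw [real_inner_smul_left]
      ring
    rw [h3, hc j] at h2
    have h4 : (q • T) j = q * T j := rfl
    rw [h4] at h2
    unfold c1 at h2
    have h5 : (N : ℝ) * av (fun θ => (F θ - inner ℝ T (θ : E N) * q) * (θ : E N) j) = 0 := by
      rw [h2]; ring
    exact (mul_eq_zero.1 h5).resolve_left hN0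
  have h2 : av (fun θ : Sp N => inner ℝ T (θ : E N) *
      (F θ - inner ℝ T (θ : E N) * q)) = 0 := by
    have h3 : (fun θ : Sp N => inner ℝ T (θ : E N) * (F θ - inner ℝ T (θ : E N) * q)) =
        fun θ => ∑ j, T j * ((F θ - inner ℝ T (θ : E N) * q) * (θ : E N) j) := by
      funext θ
      have h4 : inner ℝ T (θ : E N) = ∑ j, T j * (θ : E N) j := by
        rw [PiLp.inner_apply]
        refine Finset.sum_congr rfl fun j _ => ?_
        simp [mul_comm]
      conv_lhs => rw [h4, Finset.sum_mul]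
      refine Finset.sum_congr rfl fun j _ => ?_
      rw [← h4]
      ring
    rw [h3, av_sum _ fun j _ => (hG.mul (BM_coord j)).const_mul _]
    refine Finset.sum_eq_zero fun j _ => ?_
    rw [av_const_mul, h1 j, mul_zero]
  have h3 : (fun θ : Sp N => k * (inner ℝ T (θ : E N) ^ 2 * q + 2 * inner ℝ T (θ : E N) *
      (F θ - inner ℝ T (θ : E N) * q))) = fun θ : Sp N => (k * q) * inner ℝ T (θ : E N) ^ 2 +
        (2 * k) * (inner ℝ T (θ : E N) * (F θ - inner ℝ T (θ : E N) * q)) := by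
    funext θ
    ring
  rw [h3, av_add (((BM_inner T).pow 2).const_mul _) (((BM_inner T).mul hG).const_mul _),
    av_const_mul, av_const_mul, h2, (hLF N F T hN hF).2.2.2.2]
  ring

theorem pf_EN (hJS : T_JS) (hMP : T_MP) (hMO : T_MO) (hMC : T_MC) (hLF : T_LF) (hPH : T_PH)
    (hP1 : T_P1) (hI2 : T_I2) (hOU : T_OU) (hFA : T_FA) (hCO : T_CO) : T_EN := by
  intro N L r₁ hN hFz hZ0
  obtain ⟨C₀, c₀, δ₁, hC₀, hc₀, hδ₁, hδ₁', hOUx⟩ := hOU N L hN hFz
  obtain ⟨hprob, har, harN, -⟩ := hMP N hN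
  obtain ⟨hph, hsm, -⟩ := hPH N L hN
  have hL := hFz.pos
  -- a bound for `p`
  obtain ⟨K, hK0, hK⟩ : ∃ K : ℝ, 0 ≤ K ∧ ∀ r, 0 ≤ r → r ≤ 2 → |ph N L 1 r| ≤ K := by
    obtain ⟨K, hK⟩ := (isCompact_Icc (a := (0 : ℝ)) (b := 2)).exists_bound_of_continuousOn
      (f := ph N L 1) (hsm 1).1.continuous.continuousOn
    refine ⟨|K|, abs_nonneg _, fun r h0 h2 => ?_⟩
    have := hK r ⟨h0, h2⟩
    rw [Real.norm_eq_abs] at this
    exact this.trans (le_abs_self K)
  obtain ⟨V₀, hV₀⟩ : ∃ V₀ : ℝ, V₀ = volume.real (ball (0 : E N) 1) := ⟨_, rfl⟩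
  have hV₀0 : 0 ≤ V₀ := by rw [hV₀]; exact measureReal_nonneg
  have h2N : (0 : ℝ) < 2 ^ N := by positivity
  obtain ⟨C, hCdef⟩ : ∃ C : ℝ, C = C₀ + 1 + 2 * K ^ 2 * V₀ + ar N * 2 ^ N * K ^ 2 := ⟨_, rfl⟩
  have hc1' : 0 ≤ 2 * K ^ 2 * V₀ := by positivity
  have hc2' : 0 ≤ ar N * 2 ^ N * K ^ 2 := by positivity
  have hCC : C₀ + 1 ≤ C := by rw [hCdef]; linarith
  obtain ⟨δ₀, hδ₀, hδ₀1, hδ₀2, hδ₀3⟩ : ∃ δ₀ : ℝ, 0 < δ₀ ∧ δ₀ ≤ δ₁ ∧ C₀ * δ₀ ≤ 1 / 4 ∧
      r₁ < 1 - δ₀ := by
    refine ⟨min δ₁ (min (1 / (4 * C₀)) ((1 - r₁) / 2)), ?_, min_le_left _ _, ?_, ?_⟩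
    · exact lt_min hδ₁ (lt_min (by positivity) (by linarith [hZ0.lt]))
    · have h1 : min δ₁ (min (1 / (4 * C₀)) ((1 - r₁) / 2)) ≤ 1 / (4 * C₀) :=
        (min_le_right _ _).trans (min_le_left _ _)
      calc C₀ * min δ₁ (min (1 / (4 * C₀)) ((1 - r₁) / 2)) ≤ C₀ * (1 / (4 * C₀)) :=
            mul_le_mul_of_nonneg_left h1 hC₀.le
        _ = 1 / 4 := by field_simp
    · have h1 : min δ₁ (min (1 / (4 * C₀)) ((1 - r₁) / 2)) ≤ (1 - r₁) / 2 :=
        (min_le_right _ _).trans (min_le_right _ _)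
      linarith [hZ0.lt]
  refine ⟨C, δ₀, by linarith, hδ₀, hδ₀1.trans hδ₁', hδ₀3, fun δ hδ hδle => ?_⟩
  have hδ20 : δ ≤ 1 / 20 := hδle.trans (hδ₀1.trans hδ₁')
  obtain ⟨κ, hκ, hFAx⟩ := hFA N L δ hN hL hδ hδ20
  obtain ⟨c, hc, hc1, hc2, hc3, hc4⟩ : ∃ c : ℝ, 0 < c ∧ c ≤ 1 ∧ c ≤ δ * L ∧
      c * 2 ^ N * δ ^ 2 ≤ c₀ ∧ c * 2 ^ N * 12 ≤ 1 := by
    refine ⟨min 1 (min (δ * L) (min (c₀ / (2 ^ N * δ ^ 2)) (1 / (2 ^ N * 12)))), ?_,
      min_le_left _ _, (min_le_right _ _).trans (min_le_left _ _), ?_, ?_⟩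
    · exact lt_min one_pos (lt_min (mul_pos hδ hL) (lt_min (by positivity) (by positivity)))
    · have h1 : min 1 (min (δ * L) (min (c₀ / (2 ^ N * δ ^ 2)) (1 / (2 ^ N * 12)))) ≤
          c₀ / (2 ^ N * δ ^ 2) :=
        (min_le_right _ _).trans ((min_le_right _ _).trans (min_le_left _ _))
      rw [le_div_iff₀ (by positivity)] at h1
      linarith
    · have h1 : min 1 (min (δ * L) (min (c₀ / (2 ^ N * δ ^ 2)) (1 / (2 ^ N * 12)))) ≤
          1 / (2 ^ N * 12) :=
        (min_le_right _ _).trans ((min_le_right _ _).trans (min_le_right _ _))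
      rw [le_div_iff₀ (by positivity)] at h1
      linarith
  refine ⟨κ, c, hκ, hc, ?_⟩
  intro Ω R v T hΩ hvol hEx hv hvc hvs hmean hcoef
  obtain ⟨u, y, hu, hy, huc, hyc, huΩ, hub, huv, huy, hEfa⟩ := hFAx Ω v hΩ hvol hv hvc hvs
  obtain ⟨a, ha⟩ : ∃ a, a = 1 - δ := ⟨_, rfl⟩
  obtain ⟨b, hb⟩ : ∃ b, b = 1 + 5 * δ := ⟨_, rfl⟩
  have hOUy := hOUx δ Ω R u T hδ (hδle.trans hδ₀1) hEx hu huΩ hub
  have hI2y := hI2 N L r₁ (1 + δ / 2) (1 - δ) v T hN hFz hZ0 (by linarith)
    (by
      rw [div_lt_iff₀ (by linarith)]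
      have := hZ0.pos
      nlinarith [hδ₀3, hδle]) (by nlinarith) hv hmean hcoef
  rw [← ha] at hOUy hI2y hcoef
  rw [← hb] at hOUy hEfa hub
  have ha0 : 0 < a := by linarith
  have hab : a < b := by linarith
  have hb0 : 0 < b := by linarith
  have hb2 : b ≤ 2 := by linarith
  -- continuity
  obtain ⟨-, hCOu⟩ := hCO N hN
  obtain ⟨hrsu, hdru, hderu, -⟩ := hCOu u hu
  obtain ⟨hrsv, -, -, -⟩ := hCOu v hv
  have hRab : ∀ θ, a ≤ R θ ∧ R θ ≤ b := fun θ => by
    rw [ha, hb]; exact ⟨(hEx.lo θ).le, hEx.hi θ⟩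
  have hRm := hEx.meas
  have hphc : Continuous (ph N L 1) := (hsm 1).1.continuous
  have hdphc : Continuous (dph N L 1) := (hsm 1).2.continuous
  have hinc : Continuous fun q : ℝ × Sp N => inner ℝ T ((q.2 : Sp N) : E N) :=
    continuous_const.inner (continuous_subtype_val.comp continuous_snd)
  have hwc : Continuous fun q : ℝ × Sp N =>
      rs u q.1 q.2 - inner ℝ T ((q.2 : Sp N) : E N) * ph N L 1 q.1 :=
    hrsu.sub (hinc.mul (hphc.comp continuous_fst))
  have hwc' : Continuous fun q : ℝ × Sp N =>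
      dr u q.1 q.2 - inner ℝ T ((q.2 : Sp N) : E N) * dph N L 1 q.1 :=
    hdru.sub (hinc.mul (hdphc.comp continuous_fst))
  -- the three functions on the sphere
  obtain ⟨e, he⟩ : ∃ e : Sp N → ℝ, e = fun θ : Sp N => ∫ r in a..R θ,
      (dr u r θ - inner ℝ T (θ : E N) * dph N L 1 r) ^ 2 := ⟨_, rfl⟩
  obtain ⟨g, hg⟩ : ∃ g : Sp N → ℝ, g = fun θ : Sp N => ∫ r in a..R θ,
      (rs u r θ - inner ℝ T (θ : E N) * ph N L 1 r) ^ 2 := ⟨_, rfl⟩
  obtain ⟨k, hk⟩ : ∃ k : Sp N → ℝ, k = fun θ : Sp N => ∫ r in R θ..b, rs u r θ ^ 2 := ⟨_, rfl⟩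
  have heBM : BM e := by rw [he]; exact BM_int (hwc'.pow 2) hRm a b hRab
  have hgBM : BM g := by rw [hg]; exact BM_int (hwc.pow 2) hRm a b hRab
  have hkBM : BM k := by rw [hk]; exact BM_int' (hrsu.pow 2) hRm a b hRab
  have he0 : ∀ θ, 0 ≤ e θ := fun θ => by
    rw [he]
    exact intervalIntegral.integral_nonneg (hRab θ).1 fun r _ => sq_nonneg _
  have hg0 : ∀ θ, 0 ≤ g θ := fun θ => by
    rw [hg]
    exact intervalIntegral.integral_nonneg (hRab θ).1 fun r _ => sq_nonneg _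
  have hk0 : ∀ θ, 0 ≤ k θ := fun θ => by
    rw [hk]
    exact intervalIntegral.integral_nonneg (hRab θ).2 fun r _ => sq_nonneg _
  -- restriction to the sphere of radius `a`
  have hrsa : rs u a = rs v a := by
    funext θ
    unfold rs
    apply huv
    rw [norm_smul_sp, abs_of_pos ha0]
    linarith
  obtain ⟨ω, hω⟩ : ∃ ω : Sp N → ℝ, ω = fun θ : Sp N =>
      rs v a θ - inner ℝ T (θ : E N) * ph N L 1 a := ⟨_, rfl⟩
  have hvaBM : BM (rs v a) := BM_cont (hrsv.comp (continuous_const.prodMk continuous_id))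
  have hωBM : BM ω := by rw [hω]; exact hvaBM.sub ((BM_inner T).mul (BM_const _))
  have huR : ∀ θ, rs u (R θ) θ = 0 := by
    intro θ
    rcases lt_or_eq_of_le (hEx.hi θ) with h | h
    · exact huΩ _ (hEx.out θ h)
    · unfold rs
      apply hub
      rw [norm_smul_sp, h, abs_of_pos (by linarith), hb]
  have hwC1 : ∀ θ : Sp N, C1 (fun r => rs u r θ - inner ℝ T (θ : E N) * ph N L 1 r)
      (fun r => dr u r θ - inner ℝ T (θ : E N) * dph N L 1 r) := fun θ =>
    ⟨fun r => (hderu r θ).sub ((hph 1 r).const_mul _),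
      hwc'.comp (continuous_id.prodMk continuous_const)⟩
  have hP : ∀ θ : Sp N, (ω θ + inner ℝ T (θ : E N) * ph N L 1 (R θ)) ^ 2 ≤ 6 * δ * e θ ∧
      g θ ≤ 12 * δ * ω θ ^ 2 + 36 * δ ^ 2 * e θ := by
    intro θ
    obtain ⟨h1, h2⟩ := hP1 a (R θ) _ _ (hRab θ).1 (hwC1 θ)
    simp only [huR θ, zero_sub] at h1
    have hlen : R θ - a ≤ 6 * δ := by linarith [(hRab θ).2]
    have hlen0 : 0 ≤ R θ - a := by linarith [(hRab θ).1]
    have hωθ : ω θ = rs u a θ - inner ℝ T (θ : E N) * ph N L 1 a := by rw [hω, hrsa]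
    rw [← hωθ] at h1 h2
    have heθ : e θ = ∫ r in a..R θ, (dr u r θ - inner ℝ T (θ : E N) * dph N L 1 r) ^ 2 := by
      rw [he]
    have hgθ : g θ = ∫ r in a..R θ, (rs u r θ - inner ℝ T (θ : E N) * ph N L 1 r) ^ 2 := by
      rw [hg]
    rw [← heθ] at h1 h2
    rw [← hgθ] at h2
    have he' := he0 θ
    constructor
    · have h3 : (ω θ + inner ℝ T (θ : E N) * ph N L 1 (R θ)) ^ 2 =
          (-(inner ℝ T (θ : E N) * ph N L 1 (R θ)) - ω θ) ^ 2 := by ring
      rw [h3]
      exact h1.trans (mul_le_mul_of_nonneg_right hlen he')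
    · refine h2.trans ?_
      have h4 : (R θ - a) ^ 2 ≤ 36 * δ ^ 2 := by nlinarith
      have h5 := mul_le_mul_of_nonneg_right h4 he'
      have h6 := mul_le_mul_of_nonneg_right hlen (sq_nonneg (ω θ))
      nlinarith
  obtain ⟨X, hX⟩ : ∃ X : ℝ, X = ∫ x in ball (0 : E N) a, (v x - gT L T x) ^ 2 := ⟨_, rfl⟩
  obtain ⟨Y, hY⟩ : ∃ Y : ℝ, Y = ∫ x, y x ^ 2 := ⟨_, rfl⟩
  have hX0 : 0 ≤ X := by rw [hX]; exact integral_nonneg fun x => sq_nonneg _
  have hY0 : 0 ≤ Y := by rw [hY]; exact integral_nonneg fun x => sq_nonneg _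
  have hag0 : 0 ≤ av g := av_nonneg hg0
  have hak0 : 0 ≤ av k := av_nonneg hk0
  have hae0 : 0 ≤ av e := av_nonneg he0
  have havω : 0 ≤ av (fun θ => ω θ ^ 2) := av_sq_nonneg _
  have hgle : av g ≤ 12 * δ * av (fun θ => ω θ ^ 2) + 36 * δ ^ 2 * av e := by
    rw [← av_const_mul, ← av_const_mul,
      ← av_add ((hωBM.pow 2).const_mul _) (heBM.const_mul _)]
    exact av_mono hgBM (((hωBM.pow 2).const_mul _).add (heBM.const_mul _)) fun θ => (hP θ).2
  -- integrability
  have hcu2 : Continuous fun x => u x ^ 2 := hu.continuous.pow 2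
  have hcsu2 : HasCompactSupport fun x => u x ^ 2 := by
    have := huc.comp_left (g := fun z : ℝ => z ^ 2) (by norm_num)
    exact this
  have hcsy2 : HasCompactSupport fun x => y x ^ 2 := by
    have := hyc.comp_left (g := fun z : ℝ => z ^ 2) (by norm_num)
    exact this
  have hIu2 : Integrable fun x => u x ^ 2 := hcu2.integrable_of_hasCompactSupport hcsu2
  have hIy2 : Integrable fun x => y x ^ 2 :=
    (hy.continuous.pow 2).integrable_of_hasCompactSupport hcsy2
  have hfc : Continuous fun x => ‖fderiv ℝ u x‖ ^ 2 :=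
    ((hu.continuous_fderiv (by norm_num)).norm).pow 2
  have hcsf : HasCompactSupport fun x => ‖fderiv ℝ u x‖ ^ 2 := by
    have h1 := huc.fderiv (𝕜 := ℝ)
    have := h1.comp_left (g := fun z => ‖z‖ ^ 2) (by simp)
    exact this
  have hIf : Integrable fun x => ‖fderiv ℝ u x‖ ^ 2 := hfc.integrable_of_hasCompactSupport hcsf
  refine ⟨e, X + ar N * 2 ^ N * (av g + av k) + Y, heBM, he0, by positivity, ?_, ?_, ?_⟩
  · intro θ
    have := (hP θ).1
    rw [hω] at this
    rw [← ha]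
    exact this
  · -- the norm
    have h1 : ∫ x, v x ^ 2 = (∫ x, u x ^ 2) + Y := by
      rw [hY, ← integral_add hIu2 hIy2]
      refine integral_congr_ae (ae_of_all _ fun x => ?_)
      exact (huy x).symm
    have h2 := split_int (fun x => u x ^ 2) a b hcu2 hcsu2 ha0 hb0 fun x hx => by
      rw [hub x hx.le]
      norm_num
    have h3 : ∫ x in ball (0 : E N) a, u x ^ 2 ≤ 2 * K ^ 2 * V₀ * ‖T‖ ^ 2 + 2 * X := by
      have hb1 : volume (ball (0 : E N) a) ≤ volume (ball (0 : E N) 1) :=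
        measure_mono (ball_subset_ball (by linarith))
      have hvr : volume.real (ball (0 : E N) a) ≤ V₀ := by
        rw [hV₀]
        exact ENNReal.toReal_mono measure_ball_lt_top.ne hb1
      have hgTc : Continuous (gT L T : E N → ℝ) := by
        unfold gT
        have hJ : Continuous (J ((N : ℝ) / 2 + 1)) := (hJS _ (by positivity)).1.continuous
        exact (continuous_const.inner continuous_id).mul
          (hJ.comp ((continuous_const.mul (continuous_norm.pow 2)).div_const 4))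
      have hIX : IntegrableOn (fun x => (v x - gT L T x) ^ 2) (ball (0 : E N) a) :=
        (((hv.continuous.sub hgTc).pow 2).continuousOn.integrableOn_compact
          (isCompact_closedBall (0 : E N) a)).mono_set ball_subset_closedBall
      have hIc : IntegrableOn (fun _ : E N => 2 * K ^ 2 * ‖T‖ ^ 2) (ball (0 : E N) a) :=
        continuous_const.continuousOn.integrableOn_compact
          (isCompact_closedBall (0 : E N) a) |>.mono_set ball_subset_closedBall
      have h4 : ∫ x in ball (0 : E N) a, u x ^ 2 ≤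
          ∫ x in ball (0 : E N) a, (2 * K ^ 2 * ‖T‖ ^ 2 + 2 * (v x - gT L T x) ^ 2) := by
        refine setIntegral_mono_on hIu2.integrableOn ?_ measurableSet_ball fun x hx => ?_
        · exact hIc.add (hIX.const_mul 2)
        · rw [mem_ball_zero_iff] at hx
          rw [huv x (by linarith)]
          have h5 := gT_bound L K hK T x (by linarith)
          have h6 : gT L T x ^ 2 ≤ K ^ 2 * ‖T‖ ^ 2 := by
            rw [← mul_pow, ← sq_abs]
            exact pow_le_pow_left₀ (abs_nonneg _) h5 2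
          nlinarith [sq_nonneg (v x - 2 * gT L T x)]
      rw [integral_add hIc (hIX.const_mul 2),
        setIntegral_const, integral_const_mul, ← hX, smul_eq_mul] at h4
      have h7 : volume.real (ball (0 : E N) a) * (2 * K ^ 2 * ‖T‖ ^ 2) ≤
          V₀ * (2 * K ^ 2 * ‖T‖ ^ 2) := mul_le_mul_of_nonneg_right hvr (by positivity)
      linarith
    have h4 : ∫ x in an a b, u x ^ 2 ≤ ar N * 2 ^ N * (2 * av g + av k + K ^ 2 * ‖T‖ ^ 2) := by
      have h5 := (hMC N (fun x => u x ^ 2) a b hN hcu2 ha0.le hab.le).2.1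
      rw [h5, mul_assoc]
      refine mul_le_mul_of_nonneg_left ?_ har.le
      have hc6 : Continuous fun q : ℝ × Sp N => q.1 ^ (N - 1) * rs (fun x => u x ^ 2) q.1 q.2 :=
        (continuous_fst.pow _).mul (hrsu.pow 2)
      have h7 : BM (fun θ : Sp N => 2 * g θ + k θ + K ^ 2 * ‖T‖ ^ 2) :=
        ((hgBM.const_mul 2).add hkBM).add (BM_const _)
      have h8 : av (fun θ : Sp N => 2 ^ N * (2 * g θ + k θ + K ^ 2 * ‖T‖ ^ 2)) =
          2 ^ N * (2 * av g + av k + K ^ 2 * ‖T‖ ^ 2) := by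
        rw [av_const_mul, av_add ((hgBM.const_mul 2).add hkBM) (BM_const _),
          av_add (hgBM.const_mul 2) hkBM, av_const_mul]
        have h9 : av (fun _ : Sp N => K ^ 2 * ‖T‖ ^ 2) = K ^ 2 * ‖T‖ ^ 2 := by
          have h10 := av_const_mul (N := N) (K ^ 2 * ‖T‖ ^ 2) (fun _ => (1 : ℝ))
          rw [(hMO N hN).1, mul_one] at h10
          simpa using h10
        rw [h9]
      rw [← h8]
      refine av_mono ?_ (h7.const_mul _) fun θ => ?_
      · have := BM_int (F := fun q => q.1 ^ (N - 1) * rs (fun x => u x ^ 2) q.1 q.2) hc6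
          (R := fun _ => b) measurable_const a b fun _ => ⟨hab.le, le_rfl⟩
        exact this
      · have hcθ : Continuous fun r : ℝ => rs u r θ ^ 2 :=
          (hrsu.comp (continuous_id.prodMk continuous_const)).pow 2
        have hi1 : IntervalIntegrable (fun r => rs u r θ ^ 2) volume a b :=
          hcθ.intervalIntegrable _ _
        have h10 : ∫ r in a..b, r ^ (N - 1) * rs (fun x => u x ^ 2) r θ ≤
            ∫ r in a..b, 2 ^ N * rs u r θ ^ 2 := by
          refine intervalIntegral.integral_mono_on hab.le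
            (((continuous_id.pow _).mul hcθ).intervalIntegrable _ _)
            ((continuous_const.mul hcθ).intervalIntegrable _ _) fun r hr => ?_
          have hr0 : 0 ≤ r := ha0.le.trans hr.1
          have h11 : r ^ (N - 1) ≤ 2 ^ N :=
            (pow_le_pow_left₀ hr0 (hr.2.trans hb2) _).trans
              (pow_le_pow_right₀ (by norm_num) (by omega))
          exact mul_le_mul_of_nonneg_right h11 (sq_nonneg _)
        refine h10.trans ?_
        rw [intervalIntegral.integral_const_mul]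
        refine mul_le_mul_of_nonneg_left ?_ h2N.le
        have h12 := intervalIntegral.integral_add_adjacent_intervals
          (hcθ.intervalIntegrable (μ := volume) a (R θ)) (hcθ.intervalIntegrable (R θ) b)
        have hkθ : k θ = ∫ r in R θ..b, rs u r θ ^ 2 := by rw [hk]
        have hgθ : g θ = ∫ r in a..R θ,
            (rs u r θ - inner ℝ T (θ : E N) * ph N L 1 r) ^ 2 := by rw [hg]
        rw [← h12, ← hkθ]
        have hcw : Continuous fun r : ℝ =>
            (rs u r θ - inner ℝ T (θ : E N) * ph N L 1 r) ^ 2 :=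
          (hwc.comp (continuous_id.prodMk continuous_const)).pow 2
        have h13 : ∫ r in a..R θ, rs u r θ ^ 2 ≤
            ∫ r in a..R θ, (2 * (rs u r θ - inner ℝ T (θ : E N) * ph N L 1 r) ^ 2 +
              2 * (K ^ 2 * ‖T‖ ^ 2)) := by
          refine intervalIntegral.integral_mono_on (hRab θ).1 (hcθ.intervalIntegrable _ _)
            (((continuous_const.mul hcw).add continuous_const).intervalIntegrable _ _)
            fun r hr => ?_
          have h14 : |ph N L 1 r| ≤ K := hK r (ha0.le.trans hr.1) ((hr.2.trans (hRab θ).2).trans hb2)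
          have h15 : (inner ℝ T (θ : E N) * ph N L 1 r) ^ 2 ≤ K ^ 2 * ‖T‖ ^ 2 := by
            rw [mul_pow, mul_comm]
            refine mul_le_mul ?_ (inner_sq_le T θ) (sq_nonneg _) (sq_nonneg _)
            rw [← sq_abs]
            exact pow_le_pow_left₀ (abs_nonneg _) h14 2
          nlinarith [sq_nonneg (rs u r θ - 2 * (inner ℝ T (θ : E N) * ph N L 1 r))]
        have h13b : ∫ r in a..R θ, (2 * (rs u r θ - inner ℝ T (θ : E N) * ph N L 1 r) ^ 2 +
              2 * (K ^ 2 * ‖T‖ ^ 2)) = 2 * g θ + (R θ - a) * (2 * (K ^ 2 * ‖T‖ ^ 2)) := by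
          rw [hgθ, ← intervalIntegral.integral_const_mul]
          have h17 : (R θ - a) * (2 * (K ^ 2 * ‖T‖ ^ 2)) =
              ∫ _ in a..R θ, (2 * (K ^ 2 * ‖T‖ ^ 2)) := by
            rw [intervalIntegral.integral_const, smul_eq_mul]
          rw [h17]
          exact intervalIntegral.integral_add
            ((continuous_const.mul hcw).intervalIntegrable _ _)
            (continuous_const.intervalIntegrable _ _)
        rw [h13b] at h13
        have hlen : R θ - a ≤ 1 / 2 := by linarith [(hRab θ).2]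
        have h16 : (R θ - a) * (2 * (K ^ 2 * ‖T‖ ^ 2)) ≤ 1 / 2 * (2 * (K ^ 2 * ‖T‖ ^ 2)) :=
          mul_le_mul_of_nonneg_right hlen (by positivity)
        linarith
    rw [h1, h2]
    have h5 : ar N * 2 ^ N * (2 * av g + av k + K ^ 2 * ‖T‖ ^ 2) ≤
        2 * (ar N * 2 ^ N * (av g + av k)) + ar N * 2 ^ N * K ^ 2 * ‖T‖ ^ 2 := by
      have : 0 ≤ ar N * 2 ^ N * av k := by positivity
      nlinarith
    have h6 : (C₀ + 1) * ‖T‖ ^ 2 ≥ 0 := by positivity
    have h7 : C * ‖T‖ ^ 2 = (C₀ + 1) * ‖T‖ ^ 2 + 2 * K ^ 2 * V₀ * ‖T‖ ^ 2 +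
        ar N * 2 ^ N * K ^ 2 * ‖T‖ ^ 2 := by rw [hCdef]; ring
    rw [h7]
    linarith
  · -- the energy
    have h1 : (∫ x, ‖fderiv ℝ u x‖ ^ 2) - L * ∫ x, u x ^ 2 =
        (∫ x in ball (0 : E N) a, (‖fderiv ℝ v x‖ ^ 2 - L * v x ^ 2)) +
          ∫ x in an a b, (‖fderiv ℝ u x‖ ^ 2 - L * u x ^ 2) := by
      rw [← integral_const_mul, ← integral_sub hIf (hIu2.const_mul L)]
      have hcF : Continuous fun x => ‖fderiv ℝ u x‖ ^ 2 - L * u x ^ 2 :=
        hfc.sub (continuous_const.mul hcu2)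
      rw [split_int (fun x => ‖fderiv ℝ u x‖ ^ 2 - L * u x ^ 2) a b hcF
        (by
          have := hcsf.add (f' := fun x => -(L * u x ^ 2)) (by
            have h2 := hcsu2.comp_left (g := fun z : ℝ => -(L * z)) (by norm_num)
            exact h2)
          have h3 : (fun x => ‖fderiv ℝ u x‖ ^ 2 - L * u x ^ 2) =
              (fun x => ‖fderiv ℝ u x‖ ^ 2) + fun x => -(L * u x ^ 2) := by
            funext x; simp [sub_eq_add_neg]
          rw [h3]
          exact this) ha0 hb0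
        (fun x hx => by
          rw [fderiv_zero_outside u b (fun x hx => hub x hx) x hx, hub x hx.le]
          norm_num)]
      congr 1
      refine setIntegral_congr_fun measurableSet_ball fun x hx => ?_
      rw [mem_ball_zero_iff] at hx
      have h2 : u =ᶠ[nhds x] v := by
        have h3 : ∀ᶠ z in nhds x, ‖z‖ < a := continuous_norm.continuousAt.eventually (gt_mem_nhds hx)
        filter_upwards [h3] with z hz
        exact huv z (by linarith)
      rw [h2.fderiv_eq, huv x (by linarith)]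
    have h2 := av_bdry hMP hMO hLF hN (rs v a) hvaBM T (a ^ (N - 1) * dph N L 1 a)
      (ph N L 1 a) hcoef
    rw [hrsa] at hOUy
    rw [h2] at hOUy
    have he2 : av (fun θ => ∫ r in a..R θ, (dr u r θ - inner ℝ T (θ : E N) * dph N L 1 r) ^ 2) =
        av e := by rw [he]
    have hk2 : av (fun θ => ∫ r in R θ..b, rs u r θ ^ 2) = av k := by rw [hk]
    have hω2 : av (fun θ => (rs v a θ - inner ℝ T (θ : E N) * ph N L 1 a) ^ 2) =
        av (fun θ => ω θ ^ 2) := by rw [hω]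
    rw [he2, hk2, hω2] at hOUy
    rw [← hX] at hI2y
    rw [← ha, hω2]
    rw [h1] at hEfa
    have hS0 : 0 ≤ av (fun θ : Sp N => (R θ - 1) ^ 2) := av_sq_nonneg _
    generalize (∫ x in ball (0 : E N) a, (‖fderiv ℝ v x‖ ^ 2 - L * v x ^ 2)) = B1 at hEfa hI2y
    generalize (∫ x in an a b, (‖fderiv ℝ u x‖ ^ 2 - L * u x ^ 2)) = B2 at hEfa hOUy
    generalize (∫ x in an (1 + δ / 2) b, (‖fderiv ℝ u x‖ ^ 2 + u x ^ 2)) = B3 at hEfa hOUy
    generalize (∫ x, ‖fderiv ℝ v x‖ ^ 2) - L * ∫ x, v x ^ 2 = EV at hEfa ⊢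
    generalize av (fun θ => inner ℝ T (θ : E N) ^ 2 * ff N L (R θ)) = AF at hOUy ⊢
    generalize av (fun θ : Sp N => (R θ - 1) ^ 2) = S at hOUy hS0 ⊢
    rw [← hY] at hEfa
    generalize dd N L 2 (1 + δ / 2) a * n2 (rs v a) = D2 at hI2y ⊢
    generalize dd N L 3 (1 + δ / 2) a * n3 (rs v a) = D3 at hI2y ⊢
    generalize av (fun θ => ω θ ^ 2) = OM at hOUy hgle havω ⊢
    generalize ‖T‖ ^ 2 / (N : ℝ) = TN at hOUy hI2y
    generalize hAR : ar N = AR at *
    generalize av e = AE at *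
    generalize av g = AG at *
    generalize av k = AK at *
    have h5 := mul_le_mul_of_nonneg_left hOUy har.le
    have h6 : AR * (1 / AR * (B2 - δ ^ 2 * B3) + a ^ (N - 1) * dph N L 1 a * ph N L 1 a * TN) =
        (B2 - δ ^ 2 * B3) + AR * (a ^ (N - 1) * (dph N L 1 a * ph N L 1 a) * TN) := by
      field_simp
    rw [h6] at h5
    have h7 : c * (AR * 2 ^ N * AG) ≤ AR * (δ * OM + 1 / 4 * AE) := by
      have h8 : c * 2 ^ N * AG ≤ c * 2 ^ N * (12 * δ * OM + 36 * δ ^ 2 * AE) :=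
        mul_le_mul_of_nonneg_left hgle (by positivity)
      have h9 : c * 2 ^ N * (12 * δ * OM) ≤ δ * OM := by
        have := mul_le_mul_of_nonneg_right hc4 (mul_nonneg hδ.le havω)
        linarith
      have h10 : c * 2 ^ N * (36 * δ ^ 2 * AE) ≤ 1 / 4 * AE := by
        have h11 := mul_le_mul_of_nonneg_right hc4 (mul_nonneg (sq_nonneg δ) hae0)
        have h12 : δ ^ 2 * AE ≤ 1 / 12 * AE := mul_le_mul_of_nonneg_right (by nlinarith) hae0
        linarith
      have h13 : c * 2 ^ N * AG ≤ δ * OM + 1 / 4 * AE := by linarith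
      calc c * (AR * 2 ^ N * AG) = AR * (c * 2 ^ N * AG) := by ring
        _ ≤ _ := mul_le_mul_of_nonneg_left h13 har.le
    have h8 : c * (AR * 2 ^ N * AK) ≤ AR * (c₀ / δ ^ 2 * AK) := by
      have h9 : c * 2 ^ N ≤ c₀ / δ ^ 2 := by rw [le_div_iff₀ (by positivity)]; exact hc3
      calc c * (AR * 2 ^ N * AK) = AR * (c * 2 ^ N * AK) := by ring
        _ ≤ _ := mul_le_mul_of_nonneg_left (mul_le_mul_of_nonneg_right h9 hak0) har.le
    have h9 : c * X ≤ ((1 + δ / 2) ^ 2 - 1) * L * X := by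
      refine mul_le_mul_of_nonneg_right (hc2.trans ?_) hX0
      exact mul_le_mul_of_nonneg_right (by nlinarith) hL.le
    have h10 : c * Y ≤ Y := by
      have := mul_le_mul_of_nonneg_right hc1 hY0
      linarith
    have h11 : AR * ((C₀ + 1) * δ * OM) ≤ AR * (C * δ * OM) := by
      refine mul_le_mul_of_nonneg_left ?_ har.le
      exact mul_le_mul_of_nonneg_right (mul_le_mul_of_nonneg_right hCC hδ.le) havω
    have h12 : AR * (C₀ * δ * ‖T‖ ^ 2 * S) ≤ AR * (C * δ * ‖T‖ ^ 2 * S) := by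
      refine mul_le_mul_of_nonneg_left ?_ har.le
      refine mul_le_mul_of_nonneg_right ?_ hS0
      refine mul_le_mul_of_nonneg_right ?_ (sq_nonneg _)
      exact mul_le_mul_of_nonneg_right (by linarith) hδ.le
    have h13 : AR * (3 / 4 * AE) ≤ AR * ((1 - C₀ * δ) * AE) := by
      refine mul_le_mul_of_nonneg_left ?_ har.le
      refine mul_le_mul_of_nonneg_right ?_ hae0
      have := mul_le_mul_of_nonneg_left hδle hC₀.le
      linarith
    nlinarith

end Pool.Agent.H69.LQ
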