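import Pool.Agent.H18.LK.AP
import Pool.Agent.H19.LK.NE
import Pool.Agent.H84.LK.HK
import Pool.Agent.H17.LK.INT
import Pool.Agent.H67.LK.QID
import Pool.Agent.H65.LK.ENL
import Pool.Agent.H66.LK.PLR
import Pool.Agent.H3.LK.SCL
import Pool.Agent.H59.LK.PI
import Pool.Agent.H7.LK.RPS
import Pool.Agent.H59.LK.RPA
import Pool.Agent.H17.LK.RPT
import Pool.Agent.H65.LK.LA
import Pool.Agent.H68.LK.RP
import Pool.Agent.H77.LK.POL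
import Pool.Agent.H58.LK.PVO
import Pool.Agent.H27.LK.GRD
import Pool.Agent.H77.LK.CNT
import Pool.Agent.H81.LK.CNV
import Pool.Agent.H77.LK.PWR
import Pool.Agent.H3.LK.SCQ
import Pool.Agent.H58.LK.FKL
import Pool.Agent.H90.LK.FK
import Pool.Agent.H1.LQ.CO
import Pool.Agent.H1.LQ.QU
import Pool.Agent.H10.LQ.I1
import Pool.Agent.H10.LQ.O2
import Pool.Agent.H11.LQ.EX
import Pool.Agent.H13.LQ.SW
import Pool.Agent.H14.LQ.KP
import Pool.Agent.H14.LQ.PH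
import Pool.Agent.H16.LQ.PR
import Pool.Agent.H2.LQ.CE
import Pool.Agent.H21.LQ.KI
import Pool.Agent.H26.LQ.DI
import Pool.Agent.H30.LQ.H2
import Pool.Agent.H30.LQ.M0
import Pool.Agent.H30.LQ.ST
import Pool.Agent.H33.LQ.AS
import Pool.Agent.H33.LQ.M1
import Pool.Agent.H34.LQ.IM
import Pool.Agent.H35.LQ.JP
import Pool.Agent.H36.LQ.GP
import Pool.Agent.H36.LQ.PY
import Pool.Agent.H36.LQ.V1
import Pool.Agent.H37.LQ.GR
import Pool.Agent.H37.LQ.MP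
import Pool.Agent.H39.LQ.MC
import Pool.Agent.H4.LQ.UA
import Pool.Agent.H40.LQ.RI
import Pool.Agent.H42.LQ.ME
import Pool.Agent.H42.LQ.V3
import Pool.Agent.H45.LQ.CM
import Pool.Agent.H46.LQ.CD
import Pool.Agent.H48.LQ.P1
import Pool.Agent.H48.LQ.Z0
import Pool.Agent.H49.LQ.UB
import Pool.Agent.H52.LQ.SA
import Pool.Agent.H52.LQ.U2
import Pool.Agent.H54.LQ.M2
import Pool.Agent.H55.LQ.AN
import Pool.Agent.H60.LQ.CU
import Pool.Agent.H60.LQ.LF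
import Pool.Agent.H60.LQ.MO
import Pool.Agent.H61.LQ.H6
import Pool.Agent.H63.LQ.JZ
import Pool.Agent.H64.LQ.GF
import Pool.Agent.H66.LQ.BV
import Pool.Agent.H68.LQ.SE
import Pool.Agent.H69.LQ.CR
import Pool.Agent.H69.LQ.EN
import Pool.Agent.H7.LQ.FA
import Pool.Agent.H7.LQ.I2
import Pool.Agent.H70.LQ.PV
import Pool.Agent.H74.LQ.OU
import Pool.Agent.H75.LQ.RA
import Pool.Agent.H75.LQ.SU
import Pool.Agent.H77.LQ.H3
import Pool.Agent.H77.LQ.SG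
import Pool.Agent.H78.LQ.FZ
import Pool.Agent.H78.LQ.JS
import Pool.Agent.H80.LQ.V2
import Pool.Agent.H81.LQ.CP
import Pool.Agent.H85.LQ.CB
import Pool.Agent.H86.LQ.LB
import Pool.Agent.H86.LQ.S1
import Pool.Agent.H91.LQ.SM
import Pool.Agent.H91.LQ.U1
import Pool.Agent.H94.LQ.LQ
import Pool.Agent.H94.LQ.TA
import Pool.Agent.H94.LQ.TR
import Pool.Agent.H96.LQ.JI
import Pool.Agent.H98.LQ.JC

/-!
# MP_8f7db2_an, Theorem LQ: the composition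

Sharp quantitative local minimality of the ball for the Dirichlet eigenvalue of index `N + 1`, among
open sets of the same volume with a large inner ball.
-/

set_option autoImplicit false

namespace Pool.Agent.H69.LQ

theorem all_of : T_LQ := by
  have hAP : H85.LK.T_AP := Pool.Agent.H18.LK.pf_AP
  have hNE : H85.LK.T_NE := Pool.Agent.H19.LK.pf_NE
  have hHK : H85.LK.T_HK := Pool.Agent.H84.LK.pf_HK
  have hINT : H85.LK.T_INT := Pool.Agent.H17.LK.pf_INT hHK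
  have hQID : H85.LK.T_QID := Pool.Agent.H67.LK.pf_QID hHK hINT
  have hENL : H85.LK.T_ENL := Pool.Agent.H65.LK.pf_ENL hHK hQID
  have hPLR : H85.LK.T_PLR := Pool.Agent.H66.LK.pf_PLR
  have hSCL : H85.LK.T_SCL := Pool.Agent.H3.LK.pf_SCL
  have hPI : H85.LK.T_PI := Pool.Agent.H59.LK.pf_PI hHK hINT hENL hNE
  have hRPS : H85.LK.T_RPS := Pool.Agent.H7.LK.pf_RPS
  have hRPA : H85.LK.T_RPA := Pool.Agent.H59.LK.pf_RPA hHK hINT hRPS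
  have hRPT : H85.LK.T_RPT := Pool.Agent.H17.LK.pf_RPT hHK hINT
  have hLA : H85.LK.T_LA := Pool.Agent.H65.LK.pf_LA hAP
  have hRP : H85.LK.T_RP := Pool.Agent.H68.LK.pf_RP hHK hRPS hRPA hRPT hLA hSCL
  have hPOL : H85.LK.T_POL := Pool.Agent.H77.LK.pf_POL hHK hINT
  have hPVO : H85.LK.T_PVO := Pool.Agent.H58.LK.pf_PVO
  have hGRD : H85.LK.T_GRD := Pool.Agent.H27.LK.pf_GRD hPVO hPLR
  have hCNT : H85.LK.T_CNT := Pool.Agent.H77.LK.pf_CNT hHK hINT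
  have hCNV : H85.LK.T_CNV := Pool.Agent.H81.LK.cnv hHK hINT hPOL hPVO hGRD hCNT
  have hPWR : H85.LK.T_PWR := Pool.Agent.H77.LK.pf_PWR hHK hINT
  have hSCQ : H85.LK.T_SCQ := Pool.Agent.H3.LK.pf_SCQ
  have hFKL : H85.LK.T_FKL := Pool.Agent.H58.LK.pf_FKL hRP hPWR hCNV hSCQ
  have hFK : H85.LK.T_FK := Pool.Agent.H90.LK.fk hFKL hENL
  have hJS : T_JS := Pool.Agent.H78.LQ.pf_JS
  have hJI : T_JI := Pool.Agent.H96.LQ.pf_JI hJS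
  have hJZ : T_JZ := Pool.Agent.H63.LQ.pf_JZ hJS hJI
  have hJP : T_JP := Pool.Agent.H35.LQ.pf_JP hJS hJI
  have hFZ : T_FZ := Pool.Agent.H78.LQ.pf_FZ hJS hJZ
  have hLB : T_LB := Pool.Agent.H86.LQ.pf_LB hJS
  have hZ0 : T_Z0 := Pool.Agent.H48.LQ.pf_Z0 hJS hJP
  have hPH : T_PH := Pool.Agent.H14.LQ.pf_PH hJS
  have hPV : T_PV := Pool.Agent.H70.LQ.pf_PV hJS hJP hPH
  have hBV : T_BV := Pool.Agent.H66.LQ.pf_BV hPH hPV
  have hTA : T_TA := Pool.Agent.H94.LQ.pf_TA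
  have hAS : T_AS := Pool.Agent.H33.LQ.pf_AS hPH hPV hTA
  have hP1 : T_P1 := Pool.Agent.H48.LQ.pf_P1
  have hJC : T_JC := Pool.Agent.H98.LQ.pf_JC hPH
  have hM1 : T_M1 := Pool.Agent.H33.LQ.pf_M1 hJS hJC
  have hM0 : T_M0 := Pool.Agent.H30.LQ.pf_M0 hPH hPV hJC
  have hM2 : T_M2 := Pool.Agent.H54.LQ.pf_M2 hPH hPV hM1
  have hRI : T_RI := Pool.Agent.H40.LQ.pf_RI hPH
  have hRA : T_RA := Pool.Agent.H75.LQ.pf_RA hPH hPV hRI hP1 hAS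
  have hMP : T_MP := Pool.Agent.H37.LQ.pf_MP
  have hMC : T_MC := Pool.Agent.H39.LQ.MC.pf_MC hMP
  have hAN : T_AN := Pool.Agent.H55.LQ.pf_AN hMP hMC
  have hGR : T_GR := Pool.Agent.H37.LQ.pf_GR
  have hST : T_ST := Pool.Agent.H30.LQ.pf_ST hAN
  have hMO : T_MO := Pool.Agent.H60.LQ.pf_MO hMP hST
  have hH6 : T_H6 := Pool.Agent.H61.LQ.pf_H6 hMP hST hMO
  have hPY : T_PY := Pool.Agent.H36.LQ.pf_PY hMO
  have hQU : T_QU := Pool.Agent.H1.LQ.pf_QU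
  have hLF : T_LF := Pool.Agent.H60.LQ.pf_LF hMO
  have hH2 : T_H2 := Pool.Agent.H30.LQ.pf_H2 hMP hMO hH6
  have hH3 : T_H3 := Pool.Agent.H77.LQ.pf_H3 hMP hMO hPY hQU hH2
  have hPR : T_PR := Pool.Agent.H16.LQ.pf_PR hMP
  have hSW : T_SW := Pool.Agent.H13.LQ.pf_SW
  have hKI : T_KI := Pool.Agent.H21.LQ.pf_KI
  have hKP : T_KP := Pool.Agent.H14.LQ.pf_KP hAN hKI
  have hGF : T_GF := Pool.Agent.H64.LQ.pf_GF hMP hPR hKP
  have hGP : T_GP := Pool.Agent.H36.LQ.pf_GP hMP hPR hSW hKP hGF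
  have hSG : T_SG := Pool.Agent.H77.LQ.pf_SG hMP hGP
  have hS1 : T_S1 := Pool.Agent.H86.LQ.pf_S1 hMP hMO
  have hSE : T_SE := Pool.Agent.H68.LQ.pf_SE hMP hMO hPY hKP hGP hS1
  have hCO : T_CO := Pool.Agent.H1.LQ.pf_CO
  have hCP : T_CP := Pool.Agent.H81.LQ.pf_CP hMO hCO
  have hI1 : T_I1 := Pool.Agent.H10.LQ.pf_I1 hMP hMC hGR hPY hSE hCO hCP
  have hI2 : T_I2 := Pool.Agent.H7.LQ.pf_I2 hMP hMO hMC hPY hLF hM0 hM1 hM2 hPH hPV hCO hCP hI1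
  have hEX : T_EX := Pool.Agent.H11.LQ.pf_EX
  have hME : T_ME := Pool.Agent.H42.LQ.pf_ME hMO hPH hAS
  have hO2 : T_O2 := Pool.Agent.H10.LQ.pf_O2 hMP hMC hGR hSG hCO
  have hOU : T_OU := Pool.Agent.H74.LQ.pf_OU hMP hMC hMO hPH hP1 hRA hME hO2 hCO
  have hSM : T_SM := Pool.Agent.H91.LQ.pf_SM hFK hPI
  have hCU : T_CU := Pool.Agent.H60.LQ.pf_CU
  have hIM : T_IM := Pool.Agent.H34.LQ.pf_IM
  have hFA : T_FA := Pool.Agent.H7.LQ.pf_FA hSM hCU hIM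
  have hCD : T_CD := Pool.Agent.H46.LQ.pf_CD
  have hCM : T_CM := Pool.Agent.H45.LQ.pf_CM
  have hCB : T_CB := Pool.Agent.H85.LQ.pf_CB
  have hCE : T_CE := Pool.Agent.H2.LQ.pf_CE hCD hCM hCB
  have hV1 : T_V1 := Pool.Agent.H36.LQ.pf_V1 hMP
  have hV2 : T_V2 := Pool.Agent.H80.LQ.pf_V2 hMP
  have hV3 : T_V3 := Pool.Agent.H42.LQ.pf_V3 hMP hMO
  have hU1 : T_U1 := Pool.Agent.H91.LQ.pf_U1 hPY hQU
  have hU2 : T_U2 := Pool.Agent.H52.LQ.pf_U2 hMP hMO hPY hQU hH3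
  have hSA : T_SA := Pool.Agent.H52.LQ.pf_SA hMP hMO hPH hPV hAS
  have hSU : T_SU := Pool.Agent.H75.LQ.pf_SU hMP hMO hPY hPH hPV hLB hU1 hU2 hSA
  have hDI : T_DI := Pool.Agent.H26.LQ.pf_DI
  have hEN : T_EN := Pool.Agent.H69.LQ.pf_EN hJS hMP hMO hMC hLF hPH hP1 hI2 hOU hFA hCO
  have hCR : T_CR := Pool.Agent.H69.LQ.pf_CR hMP hMO hPY hLF hPH hPV hBV hEX hV1 hV2 hV3 hSU hDI hEN hZ0 hCO hAS
  have hTR : T_TR := Pool.Agent.H94.LQ.pf_TR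
  have hUA : T_UA := Pool.Agent.H4.LQ.pf_UA hPH hPV
  have hUB : T_UB := Pool.Agent.H49.LQ.pf_UB hUA
  have hLQ : T_LQ := Pool.Agent.H94.LQ.pf_LQ hFZ hCE hCR hTR hUB
  exact hLQ

end Pool.Agent.H69.LQ
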