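import Pool.Agent.H69.LQ.Targets

/-!
# LQ: bounded measurable functions on the sphere and their means
-/

set_option autoImplicit false

open MeasureTheory Metric Set
open scoped ENNReal

namespace Pool.Agent.H69.LQ

open Pool.Agent.H85.LK (E adm lam Ann)

variable {N : ℕ}

instance mS_finite : IsFiniteMeasure (mS N) := by
  constructor
  unfold mS
  rw [Measure.smul_apply, smul_eq_mul]
  exact lt_of_le_of_lt (ENNReal.inv_mul_le_one _) ENNReal.one_lt_top

theorem BM.mk' {F : Sp N → ℝ} (h : Measurable F) (M : ℝ) (hM : ∀ θ, |F θ| ≤ M) : BM F := ⟨h, M, hM⟩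

theorem BM_cont {F : Sp N → ℝ} (h : Continuous F) : BM F := by
  refine ⟨h.measurable, ?_⟩
  obtain ⟨M, hM⟩ := (isCompact_univ (X := Sp N)).exists_bound_of_continuousOn
    (f := F) h.continuousOn
  exact ⟨M, fun θ => by simpa using hM θ (mem_univ θ)⟩

theorem BM_const (c : ℝ) : BM (fun _ : Sp N => c) := ⟨measurable_const, |c|, fun _ => le_rfl⟩

theorem BM.add {F G : Sp N → ℝ} (hF : BM F) (hG : BM G) : BM (fun θ => F θ + G θ) := by
  obtain ⟨h1, M, h2⟩ := hF
  obtain ⟨h3, K, h4⟩ := hG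
  exact ⟨h1.add h3, M + K, fun θ => (abs_add_le _ _).trans (add_le_add (h2 θ) (h4 θ))⟩

theorem BM.neg {F : Sp N → ℝ} (hF : BM F) : BM (fun θ => -F θ) := by
  obtain ⟨h1, M, h2⟩ := hF
  exact ⟨h1.neg, M, fun θ => by rw [abs_neg]; exact h2 θ⟩

theorem BM.sub {F G : Sp N → ℝ} (hF : BM F) (hG : BM G) : BM (fun θ => F θ - G θ) := by
  obtain ⟨h1, M, h2⟩ := hF
  obtain ⟨h3, K, h4⟩ := hG
  exact ⟨h1.sub h3, M + K, fun θ => (abs_sub _ _).trans (add_le_add (h2 θ) (h4 θ))⟩

theorem BM.mul {F G : Sp N → ℝ} (hF : BM F) (hG : BM G) : BM (fun θ => F θ * G θ) := by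
  obtain ⟨h1, M, h2⟩ := hF
  obtain ⟨h3, K, h4⟩ := hG
  refine ⟨h1.mul h3, M * K, fun θ => ?_⟩
  rw [abs_mul]
  exact mul_le_mul (h2 θ) (h4 θ) (abs_nonneg _) ((abs_nonneg _).trans (h2 θ))

theorem BM.const_mul {F : Sp N → ℝ} (c : ℝ) (hF : BM F) : BM (fun θ => c * F θ) :=
  (BM_const c).mul hF

theorem BM.pow {F : Sp N → ℝ} (hF : BM F) (n : ℕ) : BM (fun θ => F θ ^ n) := by
  obtain ⟨h1, M, h2⟩ := hF
  refine ⟨h1.pow_const n, M ^ n, fun θ => ?_⟩
  rw [abs_pow]
  exact pow_le_pow_left₀ (abs_nonneg _) (h2 θ) n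

theorem BM.abs {F : Sp N → ℝ} (hF : BM F) : BM (fun θ => |F θ|) := by
  obtain ⟨h1, M, h2⟩ := hF
  refine ⟨h1.norm, M, fun θ => ?_⟩
  rw [abs_abs]
  exact h2 θ

theorem BM.sum {ι : Type*} (s : Finset ι) {F : ι → Sp N → ℝ} (hF : ∀ i ∈ s, BM (F i)) :
    BM (fun θ => ∑ i ∈ s, F i θ) := by
  classical
  induction s using Finset.induction_on with
  | empty => simpa using BM_const (N := N) 0
  | insert i s hi ih =>
    have h := (hF i (Finset.mem_insert_self i s)).add
      (ih fun j hj => hF j (Finset.mem_insert_of_mem hj))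
    simpa [Finset.sum_insert hi] using h

theorem BM_coord (i : Fin N) : BM (fun θ : Sp N => (θ : E N) i) :=
  BM_cont (by fun_prop)

theorem BM_inner (T : E N) : BM (fun θ : Sp N => inner ℝ T (θ : E N)) :=
  BM_cont (by fun_prop)

theorem BM.comp {F : Sp N → ℝ} (hF : BM F) {g : ℝ → ℝ} (hg : Continuous g) :
    BM (fun θ => g (F θ)) := by
  obtain ⟨h1, M, h2⟩ := hF
  obtain ⟨K, hK⟩ := (isCompact_Icc (a := -M) (b := M)).exists_bound_of_continuousOn
    (f := g) hg.continuousOn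
  exact ⟨hg.measurable.comp h1, K, fun θ => by simpa using hK _ (abs_le.1 (h2 θ))⟩

theorem BM.integrable {F : Sp N → ℝ} (hF : BM F) : Integrable F (mS N) := by
  obtain ⟨h1, M, h2⟩ := hF
  exact Integrable.of_bound h1.aestronglyMeasurable M (ae_of_all _ fun θ => by simpa using h2 θ)

theorem av_add {F G : Sp N → ℝ} (hF : BM F) (hG : BM G) :
    av (fun θ => F θ + G θ) = av F + av G := integral_add hF.integrable hG.integrable

theorem av_sub {F G : Sp N → ℝ} (hF : BM F) (hG : BM G) :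
    av (fun θ => F θ - G θ) = av F - av G := integral_sub hF.integrable hG.integrable

theorem av_neg (F : Sp N → ℝ) : av (fun θ => -F θ) = -av F := integral_neg F

theorem av_const_mul (c : ℝ) (F : Sp N → ℝ) : av (fun θ => c * F θ) = c * av F :=
  integral_const_mul c F

theorem av_mul_const (c : ℝ) (F : Sp N → ℝ) : av (fun θ => F θ * c) = av F * c :=
  integral_mul_const c F

theorem av_zero : av (fun _ : Sp N => (0 : ℝ)) = 0 := integral_zero _ _

theorem av_sum {ι : Type*} (s : Finset ι) {F : ι → Sp N → ℝ} (hF : ∀ i ∈ s, BM (F i)) :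
    av (fun θ => ∑ i ∈ s, F i θ) = ∑ i ∈ s, av (F i) :=
  integral_finset_sum s fun i hi => (hF i hi).integrable

theorem av_mono {F G : Sp N → ℝ} (hF : BM F) (hG : BM G) (h : ∀ θ, F θ ≤ G θ) : av F ≤ av G :=
  integral_mono hF.integrable hG.integrable h

theorem av_nonneg {F : Sp N → ℝ} (h : ∀ θ, 0 ≤ F θ) : 0 ≤ av F := integral_nonneg h

theorem av_sq_nonneg (F : Sp N → ℝ) : 0 ≤ av (fun θ => F θ ^ 2) := av_nonneg fun _ => sq_nonneg _

theorem av_cs {F G : Sp N → ℝ} (hF : BM F) (hG : BM G) :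
    av (fun θ => F θ * G θ) ^ 2 ≤ av (fun θ => F θ ^ 2) * av (fun θ => G θ ^ 2) := by
  have h : ∀ x : ℝ, 0 ≤ av (fun θ => G θ ^ 2) * (x * x) + 2 * av (fun θ => F θ * G θ) * x +
      av (fun θ => F θ ^ 2) := by
    intro x
    have h1 : 0 ≤ av (fun θ => (F θ + x * G θ) ^ 2) := av_sq_nonneg _
    have h2 : av (fun θ => (F θ + x * G θ) ^ 2) =
        av (fun θ => F θ ^ 2) + (2 * x * av (fun θ => F θ * G θ) +
          x ^ 2 * av (fun θ => G θ ^ 2)) := by
      rw [← av_const_mul (2 * x), ← av_const_mul (x ^ 2),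
        ← av_add ((hF.mul hG).const_mul _) ((hG.pow 2).const_mul _),
        ← av_add (hF.pow 2) (((hF.mul hG).const_mul _).add ((hG.pow 2).const_mul _))]
      congr 1
      funext θ
      ring
    rw [h2] at h1
    linarith
  have h3 := discrim_le_zero h
  unfold discrim at h3
  nlinarith

theorem abs_av_le {F G : Sp N → ℝ} (hF : BM F) (hG : BM G) (h : ∀ θ, |F θ| ≤ G θ) :
    |av F| ≤ av G := by
  rw [abs_le]
  constructor
  · have := av_mono hG.neg hF fun θ => neg_le_of_abs_le (h θ)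
    rwa [av_neg] at this
  · exact av_mono hF hG fun θ => le_of_abs_le (h θ)

theorem norm_sp (θ : Sp N) : ‖(θ : E N)‖ = 1 := by
  have := θ.2
  rwa [mem_sphere_zero_iff_norm] at this

theorem sum_sq_sp (θ : Sp N) : ∑ i, (θ : E N) i ^ 2 = 1 := by
  have h := norm_sp θ
  rw [EuclideanSpace.norm_eq] at h
  have h2 : (∑ i, ‖(θ : E N) i‖ ^ 2) = 1 := by
    have h3 := Real.sqrt_eq_one.1 h
    exact h3
  simpa using h2

theorem norm_smul_sp (r : ℝ) (θ : Sp N) : ‖r • (θ : E N)‖ = |r| := by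
  rw [norm_smul, norm_sp, mul_one, Real.norm_eq_abs]

theorem gT_smul (L : ℝ) (T : E N) (r : ℝ) (θ : Sp N) :
    gT L T (r • (θ : E N)) = inner ℝ T (θ : E N) * ph N L 1 r := by
  unfold gT ph
  rw [inner_smul_right, norm_smul_sp, sq_abs]
  push_cast
  ring

/-- integrals over the part of a ray before `R` -/
theorem BM_int {F : ℝ × Sp N → ℝ} (hF : Continuous F) {R : Sp N → ℝ} (hR : Measurable R)
    (a b : ℝ) (hab : ∀ θ, a ≤ R θ ∧ R θ ≤ b) : BM (fun θ => ∫ r in a..R θ, F (r, θ)) := by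
  have h1 : Continuous fun p : Sp N × ℝ => ∫ r in a..p.2, F (r, p.1) :=
    intervalIntegral.continuous_parametric_primitive_of_continuous
      (f := fun (θ : Sp N) (r : ℝ) => F (r, θ))
      (hF.comp (continuous_snd.prodMk continuous_fst))
  refine ⟨h1.measurable.comp (measurable_id.prodMk hR), ?_⟩
  obtain ⟨M, hM⟩ := ((isCompact_univ (X := Sp N)).prod (isCompact_Icc (a := a) (b := b))).exists_bound_of_continuousOn
    (f := fun p : Sp N × ℝ => ∫ r in a..p.2, F (r, p.1)) h1.continuousOn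
  exact ⟨M, fun θ => by simpa using hM (θ, R θ) ⟨mem_univ θ, hab θ⟩⟩

/-- integrals over the part of a ray after `R` -/
theorem BM_int' {F : ℝ × Sp N → ℝ} (hF : Continuous F) {R : Sp N → ℝ} (hR : Measurable R)
    (a b : ℝ) (hab : ∀ θ, a ≤ R θ ∧ R θ ≤ b) : BM (fun θ => ∫ r in R θ..b, F (r, θ)) := by
  have h1 : BM (fun θ => ∫ r in a..b, F (r, θ)) := BM_cont (by
    exact intervalIntegral.continuous_parametric_intervalIntegral_of_continuous'
      (f := fun (θ : Sp N) (r : ℝ) => F (r, θ))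
      (hF.comp (continuous_snd.prodMk continuous_fst)) a b)
  have h2 := h1.sub (BM_int hF hR a b hab)
  have h3 : (fun θ => ∫ r in R θ..b, F (r, θ)) =
      fun θ => (∫ r in a..b, F (r, θ)) - ∫ r in a..R θ, F (r, θ) := by
    funext θ
    have hc : Continuous fun r : ℝ => F (r, θ) := hF.comp (continuous_id.prodMk continuous_const)
    have := intervalIntegral.integral_add_adjacent_intervals (hc.intervalIntegrable a (R θ))
      (hc.intervalIntegrable (μ := volume) (R θ) b)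
    linarith
  rw [h3]
  exact h2

end Pool.Agent.H69.LQ
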