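import Pool.Agent.H7.LP.Targets3

/-!
# Codes of the points of an orbit (module SHQ)
-/

set_option autoImplicit false

open Set Filter Topology
open Pool.Agent.H7.LP Pool.Agent.H7.LQ

namespace Pool.Agent.H69.LQ

theorem pf_SHQ (h1 : T_LBT) : T_SHQ := by
  intro G X _ _ _ _ _ B L M _ Y S x m e w hc hs
  have hlb : ∀ (k : ℕ) (g : G), lb L Y k (m • x) g = lb L Y k x (g * (m : G)) := fun k g =>
    (h1 G X L M Y k x g).2.2.2 m
  have hKX : ∀ (k n : ℕ) (g : G), KX B L Y k n (m • x) g = KX B L Y k n x (g * (m : G)) := by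
    intro k n g
    unfold KX
    rw [hlb]
  have hNd : ∀ (k n : ℕ) (g : G), Nd B S (m • x) (k, n, g) ↔ Nd B S x (k, n, g * (m : G)) := by
    intro k n g
    unfold Nd
    simp only [hlb, hKX]
  have hq : ∀ a b : G, a * (m : G)⁻¹ * (b * (m : G)⁻¹)⁻¹ = a * b⁻¹ := by
    intro a b
    group
  have hLe : ∀ i j : ℕ, Le B L Y (m • x) ((e i).1, (e i).2.1, (e i).2.2 * (m : G)⁻¹)
      ((e j).1, (e j).2.1, (e j).2.2 * (m : G)⁻¹) ↔ Le B L Y x (e i) (e j) := by
    intro i j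
    unfold Le
    simp only [hKX, hq, inv_mul_cancel_right]
  refine ⟨⟨?_, ?_⟩, ⟨hs.k, hs.m, ?_, ?_, ?_⟩⟩
  · intro i
    refine (hNd _ _ _).2 ?_
    rw [inv_mul_cancel_right]
    exact hc.node i
  · intro k n g hg N
    obtain ⟨i, hi, h2, h3, h4⟩ := hc.all k n (g * m) ((hNd k n g).1 hg) N
    refine ⟨i, hi, h2, h3, ?_⟩
    have h5 : g * ((e i).2.2 * (m : G)⁻¹)⁻¹ = g * m * ((e i).2.2)⁻¹ := by group
    simp only [h5, hKX, inv_mul_cancel_right]
    exact h4
  · intro i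
    simp only [hlb, inv_mul_cancel_right]
    exact hs.y i
  · intro i j
    rw [hLe]
    exact hs.le i j
  · intro i j p
    simp only [hLe, hKX, hq, inv_mul_cancel_right]
    exact hs.q i j p

end Pool.Agent.H69.LQ
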