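import Mathlib
import Pool.Agent.H85.LK.Targets

set_option autoImplicit false

/-!
# MP_8f7db2_an: quantitative local minimality of the ball, definitions and targets

Blueprint: `/team-store/H69_LQ.md`. `N` is the dimension, `L` the second eigenvalue of the unit
ball, `p = ph N L 1` the radial part of its eigenfunctions.
-/

open MeasureTheory Metric Set
open scoped ENNReal

namespace Pool.Agent.H69.LQ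

open Pool.Agent.H85.LK (E adm lam Ann)

/-! ### Definitions -/

/-- the unit sphere -/
abbrev Sp (N : ℕ) := sphere (0 : E N) 1

/-- the normalized measure of the sphere -/
noncomputable def mS (N : ℕ) : Measure (Sp N) :=
  ((volume : Measure (E N)).toSphere univ)⁻¹ • (volume : Measure (E N)).toSphere

/-- the area of the unit sphere -/
noncomputable def ar (N : ℕ) : ℝ := ((volume : Measure (E N)).toSphere univ).toReal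

section

variable {N : ℕ}

/-- the mean over the sphere -/
noncomputable def av (F : Sp N → ℝ) : ℝ := ∫ θ, F θ ∂(mS N)

/-- bounded and measurable -/
def BM (F : Sp N → ℝ) : Prop := Measurable F ∧ ∃ M : ℝ, ∀ θ, |F θ| ≤ M

/-- the coefficients of degree `1` -/
noncomputable def c1 (F : Sp N → ℝ) (j : Fin N) : ℝ := N * av fun θ => F θ * (θ : E N) j

/-- the coefficients of degree `2` -/
noncomputable def c2 (F : Sp N → ℝ) (j k : Fin N) : ℝ :=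
  N * (N + 2) / 2 * (av (fun θ => F θ * ((θ : E N) j * (θ : E N) k)) -
    if j = k then av F / N else 0)

/-- the part of degree at least `3` -/
noncomputable def r3 (F : Sp N → ℝ) (θ : Sp N) : ℝ :=
  F θ - av F - ∑ j, c1 F j * (θ : E N) j - ∑ j, ∑ k, c2 F j k * ((θ : E N) j * (θ : E N) k)

/-- the squared norms of the parts of degree `0`, `1`, `2` and at least `3` -/
noncomputable def n0 (F : Sp N → ℝ) : ℝ := av F ^ 2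

noncomputable def n1 (F : Sp N → ℝ) : ℝ := (∑ j, c1 F j ^ 2) / N

noncomputable def n2 (F : Sp N → ℝ) : ℝ := 2 / (N * (N + 2)) * ∑ j, ∑ k, c2 F j k ^ 2

noncomputable def n3 (F : Sp N → ℝ) : ℝ := av fun θ => r3 F θ ^ 2

/-- restriction of `v` to the sphere of radius `r` -/
def rs (v : E N → ℝ) (r : ℝ) (θ : Sp N) : ℝ := v (r • (θ : E N))

/-- the radial derivative of `v` on the sphere of radius `r` -/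
noncomputable def dr (v : E N → ℝ) (r : ℝ) (θ : Sp N) : ℝ := fderiv ℝ v (r • (θ : E N)) (θ : E N)

/-- the angular derivative `x i ∂ j - x j ∂ i` -/
noncomputable def LL (i j : Fin N) (f : E N → ℝ) (x : E N) : ℝ :=
  x i * fderiv ℝ f x (EuclideanSpace.single j 1) - x j * fderiv ℝ f x (EuclideanSpace.single i 1)

/-- the squared angular gradient -/
noncomputable def Gs (f : E N → ℝ) (x : E N) : ℝ := 1 / 2 * ∑ i, ∑ j, LL i j f x ^ 2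

/-- the polarization of `Gs` -/
noncomputable def Gb (f g : E N → ℝ) (x : E N) : ℝ := 1 / 2 * ∑ i, ∑ j, LL i j f x * LL i j g x

/-- the function of a polynomial -/
noncomputable def ev (P : MvPolynomial (Fin N) ℝ) (x : E N) : ℝ := MvPolynomial.eval (fun i => x i) P

end

/-- the function `∑ (-z)^k / (k! ν (ν + 1) ⋯ (ν + k - 1))` -/
noncomputable def J (ν z : ℝ) : ℝ :=
  ∑' k : ℕ, (-z) ^ k / (k.factorial * ∏ i ∈ Finset.range k, (ν + i))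

/-- the radial function of degree `n` -/
noncomputable def ph (N : ℕ) (L : ℝ) (n : ℕ) (r : ℝ) : ℝ :=
  r ^ n * J ((N : ℝ) / 2 + n) (L * r ^ 2 / 4)

/-- its derivative -/
noncomputable def dph (N : ℕ) (L : ℝ) (n : ℕ) (r : ℝ) : ℝ :=
  n * r ^ (n - 1) * J ((N : ℝ) / 2 + n) (L * r ^ 2 / 4) -
    r ^ n * (L * r / 2) * (J ((N : ℝ) / 2 + n + 1) (L * r ^ 2 / 4) / ((N : ℝ) / 2 + n))

/-- `L / 4` is the first zero -/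
structure Fz (N : ℕ) (L : ℝ) : Prop where
  pos : 0 < L
  zero : J ((N : ℝ) / 2 + 1) (L / 4) = 0
  first : ∀ z, 0 ≤ z → z < L / 4 → 0 < J ((N : ℝ) / 2 + 1) z

/-- `r₁` is the zero of the radial function of degree `0` -/
structure Z0 (N : ℕ) (L r₁ : ℝ) : Prop where
  pos : 0 < r₁
  lt : r₁ < 1
  zero : ph N L 0 r₁ = 0
  pos' : ∀ r, 0 ≤ r → r < r₁ → 0 < ph N L 0 r
  neg : ∀ r, r₁ < r → r ≤ 1 → ph N L 0 r < 0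

/-- the eigenfunction `⟨T, x⟩ p(|x|) / |x|` -/
noncomputable def gT {N : ℕ} (L : ℝ) (T x : E N) : ℝ :=
  inner ℝ T x * J ((N : ℝ) / 2 + 1) (L * ‖x‖ ^ 2 / 4)

/-- the boundary coefficient of degree `n` -/
noncomputable def dd (N : ℕ) (L : ℝ) (n : ℕ) (μ a : ℝ) : ℝ :=
  a ^ (N - 1) * (μ * dph N L n (μ * a) / ph N L n (μ * a))

/-- `-R^(N-1) p'(R) p(R)` -/
noncomputable def ff (N : ℕ) (L R : ℝ) : ℝ := -(R ^ (N - 1) * dph N L 1 R * ph N L 1 R)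

/-- the primitive of `r^N exp (-r^2)` -/
noncomputable def qq (N : ℕ) (R : ℝ) : ℝ := ∫ r in (0 : ℝ)..R, r ^ N * Real.exp (-r ^ 2)

/-- the first exit of the rays from `Ω` in `(a, b]` -/
structure Ex {N : ℕ} (Ω : Set (E N)) (a b : ℝ) (R : Sp N → ℝ) : Prop where
  meas : Measurable R
  lo : ∀ θ, a < R θ
  hi : ∀ θ, R θ ≤ b
  ins : ∀ (θ : Sp N) (r : ℝ), 0 ≤ r → r < R θ → r • (θ : E N) ∈ Ω
  out : ∀ θ : Sp N, R θ < b → R θ • (θ : E N) ∉ Ω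

/-- the annulus -/
def an {N : ℕ} (a b : ℝ) : Set (E N) := {x | a < ‖x‖ ∧ ‖x‖ < b}

/-- continuously differentiable function of one variable with its derivative -/
def C1 (f f' : ℝ → ℝ) : Prop := (∀ x, HasDerivAt f (f' x) x) ∧ Continuous f'

/-! ### A. Special functions -/

/-- (JS) the function `J`. -/
def T_JS : Prop := ∀ ν : ℝ, 0 < ν → ContDiff ℝ (⊤ : ℕ∞) (J ν) ∧ J ν 0 = 1 ∧
  (∀ z, HasDerivAt (J ν) (-(J (ν + 1) z / ν)) z) ∧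
  ∀ z, J ν z = J (ν + 1) z - z / (ν * (ν + 1)) * J (ν + 2) z

/-- (JI) the integral of `J`. -/
def T_JI : Prop := ∀ ν z : ℝ, 1 ≤ ν → 0 ≤ z →
  z ^ ν * (J (ν + 1) z / ν) = ∫ t in (0 : ℝ)..z, t ^ (ν - 1) * J ν t

/-- (JZ) `J` has a zero. -/
def T_JZ : Prop := ∀ ν : ℝ, 1 ≤ ν → ∃ z, 0 < z ∧ J ν z ≤ 0

/-- (JP) if `J ν` is positive on `[0, Z)` then `J (ν + 1)` is positive on `[0, Z]`. -/
def T_JP : Prop := ∀ ν Z : ℝ, 1 ≤ ν → 0 < Z → (∀ z, 0 ≤ z → z < Z → 0 < J ν z) →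
  ∀ z, 0 ≤ z → z ≤ Z → 0 < J (ν + 1) z

/-- (FZ) the first zero. -/
def T_FZ : Prop := ∀ N : ℕ, 2 ≤ N → ∃ L, Fz N L

/-- (LB) a lower bound for the first zero. -/
def T_LB : Prop := ∀ (N : ℕ) (L : ℝ), 2 ≤ N → Fz N L →
  3 < ((N : ℝ) + 1) * (L / ((N : ℝ) + 2) - 2)

/-- (Z0) the zero of degree `0`. -/
def T_Z0 : Prop := ∀ (N : ℕ) (L : ℝ), 2 ≤ N → Fz N L → ∃ r₁, Z0 N L r₁

/-- (PH) the radial functions. -/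
def T_PH : Prop := ∀ (N : ℕ) (L : ℝ), 2 ≤ N →
  (∀ (n : ℕ) (r : ℝ), HasDerivAt (ph N L n) (dph N L n r) r) ∧
  (∀ n : ℕ, ContDiff ℝ (⊤ : ℕ∞) (ph N L n) ∧ ContDiff ℝ (⊤ : ℕ∞) (dph N L n)) ∧
  ∀ (n : ℕ) (r : ℝ), 0 < r → HasDerivAt (fun r => r ^ (N - 1) * dph N L n r)
    (r ^ (N - 1) * ((n * (n + N - 2) / r ^ 2 - L) * ph N L n r)) r

/-- (PV) signs and boundary values of the radial functions. -/
def T_PV : Prop := ∀ (N : ℕ) (L : ℝ), 2 ≤ N → Fz N L →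
  (∀ r, 0 < r → r < 1 → 0 < ph N L 1 r) ∧ ph N L 1 1 = 0 ∧ dph N L 1 1 < 0 ∧
  (∀ r, 0 < r → r ≤ 1 → 0 < ph N L 2 r ∧ 0 < ph N L 3 r) ∧
  dph N L 2 1 = -N * ph N L 2 1 ∧
  dph N L 3 1 = (L / ((N : ℝ) + 2) - ((N : ℝ) + 1)) * ph N L 3 1 ∧
  ∀ r, 0 < r → r < 1 → dph N L 0 r < 0

/-- (BV) the boundary coefficients for `δ → 0`. -/
def T_BV : Prop := ∀ (N : ℕ) (L : ℝ), 2 ≤ N → Fz N L → ∀ s : ℝ, 0 < s →
  ∃ δ₀ : ℝ, 0 < δ₀ ∧ ∀ δ, 0 < δ → δ ≤ δ₀ →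
    -(N : ℝ) - s ≤ dd N L 2 (1 + δ / 2) (1 - δ) ∧
    (L / ((N : ℝ) + 2) - ((N : ℝ) + 1)) - s ≤ dd N L 3 (1 + δ / 2) (1 - δ)

/-- (TA) Taylor expansion at `1`. -/
def T_TA : Prop := ∀ F : ℝ → ℝ, ContDiff ℝ (⊤ : ℕ∞) F → F 1 = 0 →
  (∃ C : ℝ, 0 < C ∧ ∀ R, |R - 1| ≤ 1 / 2 → |F R| ≤ C * |R - 1|) ∧
  (deriv F 1 = 0 → ∃ C : ℝ, 0 < C ∧ ∀ R, |R - 1| ≤ 1 / 2 → |F R| ≤ C * (R - 1) ^ 2) ∧
  (deriv F 1 = 0 → deriv (deriv F) 1 = 0 →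
    ∃ C : ℝ, 0 < C ∧ ∀ R, |R - 1| ≤ 1 / 2 → |F R| ≤ C * |R - 1| * (R - 1) ^ 2)

/-- (AS) expansions at `r = 1`. -/
def T_AS : Prop := ∀ (N : ℕ) (L : ℝ), 2 ≤ N → Fz N L →
  ∃ C δ₀ : ℝ, 0 < C ∧ 0 < δ₀ ∧ δ₀ ≤ 1 / 2 ∧ ∀ R : ℝ, |R - 1| ≤ δ₀ →
    -(dph N L 1 1 ^ 2 / N) * (R ^ N - 1) + ((N : ℝ) - 1) * ph N L 1 R ^ 2 -
      C * |R - 1| * (R - 1) ^ 2 ≤ ff N L R ∧
    |R - 1| ≤ C * |ph N L 1 R| ∧ |ph N L 1 R| ≤ C * |R - 1| ∧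
    |R - 1| ≤ |R ^ N - 1| ∧ |R ^ N - 1| ≤ C * |R - 1| ∧
    |ph N L 1 R - dph N L 1 1 / N * (R ^ N - 1)| ≤ C * (R - 1) ^ 2 ∧
    |ph N L 1 R - dph N L 1 1 * Real.exp 1 * (qq N R - qq N 1)| ≤ C * (R - 1) ^ 2 ∧
    |dph N L 1 R| ≤ C

/-! ### B. Inequalities in one variable -/

/-- (P1) Poincaré inequalities on an interval. -/
def T_P1 : Prop := ∀ (a R : ℝ) (w w' : ℝ → ℝ), a ≤ R → C1 w w' →
  (w R - w a) ^ 2 ≤ (R - a) * (∫ r in a..R, w' r ^ 2) ∧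
  (∫ r in a..R, w r ^ 2) ≤ 2 * (R - a) * w a ^ 2 + (R - a) ^ 2 * ∫ r in a..R, w' r ^ 2

/-- (JC) the identity of Jacobi. -/
def T_JC : Prop := ∀ (N n : ℕ) (L μ ε a : ℝ) (f f' : ℝ → ℝ), 2 ≤ N → 0 < μ → 0 < ε → ε ≤ a →
  (∀ r, ε ≤ r → r ≤ a → ph N L n (μ * r) ≠ 0) → C1 f f' →
  dd N L n μ a * f a ^ 2 - dd N L n μ ε * f ε ^ 2 ≤ ∫ r in ε..a, r ^ (N - 1) *
    (f' r ^ 2 + (n * (n + N - 2) / r ^ 2 - μ ^ 2 * L) * f r ^ 2)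

/-- (M1) degree `n ≥ 1`. -/
def T_M1 : Prop := ∀ (N n : ℕ) (L μ a : ℝ) (f f' : ℝ → ℝ), 2 ≤ N → 1 ≤ n → 0 < μ → 0 < a →
  (∀ r, 0 < r → r ≤ μ * a → 0 < ph N L n r) → C1 f f' → f 0 = 0 →
  dd N L n μ a * f a ^ 2 ≤ ∫ r in (0 : ℝ)..a, r ^ (N - 1) *
    (f' r ^ 2 + (n * (n + N - 2) / r ^ 2 - μ ^ 2 * L) * f r ^ 2)

/-- (M0) degree `0`. -/
def T_M0 : Prop := ∀ (N : ℕ) (L r₁ μ a : ℝ) (f f' : ℝ → ℝ), 2 ≤ N → Fz N L → Z0 N L r₁ →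
  0 < μ → r₁ / μ < a → μ * a < 1 → C1 f f' → f (r₁ / μ) = 0 →
  0 ≤ ∫ r in (0 : ℝ)..a, r ^ (N - 1) * (f' r ^ 2 - μ ^ 2 * L * f r ^ 2)

/-- (M2) degree `1` with the eigenfunction split off. -/
def T_M2 : Prop := ∀ (N : ℕ) (L μ a t : ℝ) (f f' : ℝ → ℝ), 2 ≤ N → Fz N L → 1 ≤ μ → 0 < a →
  μ * a < 1 → C1 f f' → f 0 = 0 → f a = t * ph N L 1 a →
  a ^ (N - 1) * (dph N L 1 a * ph N L 1 a) * t ^ 2 +
      (μ ^ 2 - 1) * L * (∫ r in (0 : ℝ)..a, r ^ (N - 1) * (f r - t * ph N L 1 r) ^ 2) ≤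
    ∫ r in (0 : ℝ)..a, r ^ (N - 1) * (f' r ^ 2 + (((N : ℝ) - 1) / r ^ 2 - L) * f r ^ 2)

/-- (RI) the identity on a ray. -/
def T_RI : Prop := ∀ (N : ℕ) (L a R t : ℝ) (u u' : ℝ → ℝ), 2 ≤ N → 0 < a → a ≤ R → C1 u u' →
  u R = 0 →
  (∫ r in a..R, r ^ (N - 1) * (u' r ^ 2 + (((N : ℝ) - 1) / r ^ 2 - L) * u r ^ 2)) +
      a ^ (N - 1) * dph N L 1 a * (t ^ 2 * ph N L 1 a + 2 * t * (u a - t * ph N L 1 a)) =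
    t ^ 2 * ff N L R + ∫ r in a..R, r ^ (N - 1) * ((u' r - t * dph N L 1 r) ^ 2 +
      (((N : ℝ) - 1) / r ^ 2 - L) * (u r - t * ph N L 1 r) ^ 2)

/-- (RA) the inequality on a ray. -/
def T_RA : Prop := ∀ (N : ℕ) (L : ℝ), 2 ≤ N → Fz N L →
  ∃ C c δ₀ : ℝ, 0 < C ∧ 0 < c ∧ 0 < δ₀ ∧ δ₀ ≤ 1 / 20 ∧ ∀ (δ R t : ℝ) (u u' : ℝ → ℝ), 0 < δ →
    δ ≤ δ₀ → 1 - δ < R → R ≤ 1 + 5 * δ → C1 u u' → u R = 0 → u (1 + 5 * δ) = 0 →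
    t ^ 2 * ff N L R + (1 - C * δ) * (∫ r in (1 - δ)..R, (u' r - t * dph N L 1 r) ^ 2) +
        c / δ ^ 2 * (∫ r in R..(1 + 5 * δ), u r ^ 2) -
        C * δ * (u (1 - δ) - t * ph N L 1 (1 - δ)) ^ 2 - C * δ * t ^ 2 * (R - 1) ^ 2 ≤
      (∫ r in (1 - δ)..(1 + 5 * δ), r ^ (N - 1) *
          (u' r ^ 2 + (((N : ℝ) - 1) / r ^ 2 - L) * u r ^ 2)) -
        δ ^ 2 * (∫ r in (1 + δ / 2)..(1 + 5 * δ), r ^ (N - 1) *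
          (u' r ^ 2 + (((N : ℝ) - 1) / r ^ 2 + 1) * u r ^ 2)) +
        (1 - δ) ^ (N - 1) * dph N L 1 (1 - δ) * (t ^ 2 * ph N L 1 (1 - δ) +
          2 * t * (u (1 - δ) - t * ph N L 1 (1 - δ)))

/-! ### C. The sphere -/

/-- (MP) polar coordinates. -/
def T_MP : Prop := ∀ N : ℕ, 2 ≤ N → IsProbabilityMeasure (mS N) ∧ 0 < ar N ∧
  ar N = N * volume.real (ball (0 : E N) 1) ∧
  ∀ g : E N → ℝ, Integrable g →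
    (∀ᵐ θ : Sp N ∂(mS N), IntegrableOn (fun r : ℝ => r ^ (N - 1) * g (r • (θ : E N))) (Ioi 0)) ∧
    Integrable (fun θ : Sp N => ∫ r in Ioi (0 : ℝ), r ^ (N - 1) * g (r • (θ : E N))) (mS N) ∧
    ∫ x, g x = ar N * av fun θ : Sp N => ∫ r in Ioi (0 : ℝ), r ^ (N - 1) * g (r • (θ : E N))

/-- (MC) polar coordinates for continuous functions on balls and annuli. -/
def T_MC : Prop := ∀ (N : ℕ) (g : E N → ℝ) (c d : ℝ), 2 ≤ N → Continuous g → 0 ≤ c → c ≤ d →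
  ∫ x in an c d, g x = ar N * (∫ r in c..d, r ^ (N - 1) * av (rs g r)) ∧
  ∫ x in an c d, g x = ar N * av (fun θ => ∫ r in c..d, r ^ (N - 1) * rs g r θ) ∧
  ∫ x in ball (0 : E N) d, g x = ∫ x in an 0 d, g x

/-- (AN) the mean of an angular derivative is `0`. -/
def T_AN : Prop := ∀ (N : ℕ) (f : E N → ℝ) (i j : Fin N), 2 ≤ N → ContDiff ℝ (⊤ : ℕ∞) f →
  av (fun θ : Sp N => LL i j f (θ : E N)) = 0

/-- (GR) the gradient in polar coordinates. -/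
def T_GR : Prop := ∀ (N : ℕ) (f : E N → ℝ), Differentiable ℝ f →
  (∀ x : E N, ‖x‖ ^ 2 * ‖fderiv ℝ f x‖ ^ 2 = fderiv ℝ f x x ^ 2 + Gs f x) ∧
  ∀ (r : ℝ) (θ : Sp N), r ≠ 0 → ‖fderiv ℝ f (r • (θ : E N))‖ ^ 2 =
    dr f r θ ^ 2 + Gs (fun x => f (r • x)) (θ : E N) / r ^ 2

/-- (ST) integration by parts on the sphere for homogeneous functions. -/
def T_ST : Prop := ∀ (N : ℕ) (g : E N → ℝ) (k : ℝ) (i : Fin N), 2 ≤ N →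
  ContDiff ℝ (⊤ : ℕ∞) g → (∀ x, fderiv ℝ g x x = k * g x) →
  (N + k - 1) * av (fun θ : Sp N => (θ : E N) i * g (θ : E N)) =
    av fun θ : Sp N => fderiv ℝ g (θ : E N) (EuclideanSpace.single i 1)

/-- (MO) moments. -/
def T_MO : Prop := ∀ N : ℕ, 2 ≤ N → av (fun _ : Sp N => (1 : ℝ)) = 1 ∧
  (∀ i, av (fun θ : Sp N => (θ : E N) i) = 0) ∧
  (∀ i j, av (fun θ : Sp N => (θ : E N) i * (θ : E N) j) = if i = j then 1 / (N : ℝ) else 0) ∧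
  (∀ i j k, av (fun θ : Sp N => (θ : E N) i * (θ : E N) j * (θ : E N) k) = 0) ∧
  ∀ i j k l, av (fun θ : Sp N => (θ : E N) i * (θ : E N) j * (θ : E N) k * (θ : E N) l) =
    ((if i = j ∧ k = l then 1 else 0) + (if i = k ∧ j = l then 1 else 0) +
      (if i = l ∧ j = k then 1 else 0)) / ((N : ℝ) * (N + 2))

/-- (H6) the norm of a harmonic cubic form. -/
def T_H6 : Prop := ∀ (N : ℕ) (T : Fin N → Fin N → Fin N → ℝ), 2 ≤ N →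
  (∀ i j k, T i j k = T j i k) → (∀ i j k, T i j k = T i k j) → (∀ i, ∑ j, T i j j = 0) →
  av (fun θ : Sp N => (∑ i, ∑ j, ∑ k, T i j k *
    ((θ : E N) i * (θ : E N) j * (θ : E N) k)) ^ 2) =
    6 / ((N : ℝ) * (N + 2) * (N + 4)) * ∑ i, ∑ j, ∑ k, T i j k ^ 2

/-- (PY) Pythagoras. -/
def T_PY : Prop := ∀ (N : ℕ) (F : Sp N → ℝ), 2 ≤ N → BM F →
  av (fun θ => F θ ^ 2) = n0 F + n1 F + n2 F + n3 F ∧ BM (r3 F) ∧ av (r3 F) = 0 ∧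
  (∀ j, av (fun θ => r3 F θ * (θ : E N) j) = 0) ∧
  ∀ j k, av (fun θ => r3 F θ * ((θ : E N) j * (θ : E N) k)) = 0

/-- (QU) perturbation of the norms. -/
def T_QU : Prop := ∀ (N : ℕ) (F G : Sp N → ℝ) (s : ℝ), 2 ≤ N → BM F → BM G → 0 < s →
  (|n0 (fun θ => F θ + G θ) - n0 F| ≤ s * n0 F + (1 + 1 / s) * n0 G) ∧
  (|n1 (fun θ => F θ + G θ) - n1 F| ≤ s * n1 F + (1 + 1 / s) * n1 G) ∧
  (|n2 (fun θ => F θ + G θ) - n2 F| ≤ s * n2 F + (1 + 1 / s) * n2 G) ∧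
  (|n3 (fun θ => F θ + G θ) - n3 F| ≤ s * n3 F + (1 + 1 / s) * n3 G)

/-- (LF) linear functions have degree `1`. -/
def T_LF : Prop := ∀ (N : ℕ) (F : Sp N → ℝ) (T : E N), 2 ≤ N → BM F →
  (∀ j, c1 (fun θ => F θ - inner ℝ T (θ : E N)) j = c1 F j - T j) ∧
  (av (fun θ => F θ - inner ℝ T (θ : E N)) = av F) ∧
  (∀ j k, c2 (fun θ => F θ - inner ℝ T (θ : E N)) j k = c2 F j k) ∧
  (∀ θ, r3 (fun θ => F θ - inner ℝ T (θ : E N)) θ = r3 F θ) ∧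
  av (fun θ : Sp N => inner ℝ T (θ : E N) ^ 2) = ‖T‖ ^ 2 / N

/-- (H2) the norm of the part of degree `2` of the functions `α θ_i`. -/
def T_H2 : Prop := ∀ (N : ℕ) (α : Sp N → ℝ), 2 ≤ N → BM α → av α = 0 →
  (∀ j, av (fun θ => α θ * (θ : E N) j) = 0) →
  ∑ i, n2 (fun θ => α θ * (θ : E N) i) ≤ 3 / ((N : ℝ) + 4) * av fun θ => α θ ^ 2

/-- (H3) the same for arbitrary functions. -/
def T_H3 : Prop := ∀ N : ℕ, 2 ≤ N → ∃ C : ℝ, 0 < C ∧ ∀ (α : Sp N → ℝ) (s : ℝ), BM α → 0 < s →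
  s ≤ 1 →
  ∑ i, n2 (fun θ => α θ * (θ : E N) i) ≤
    (1 + s) * (3 / ((N : ℝ) + 4)) * av (fun θ => α θ ^ 2) +
      C / s * (av α ^ 2 + ∑ j, av (fun θ => α θ * (θ : E N) j) ^ 2)

/-- (PR) orthogonal projection on the polynomials of degree at most `D`. -/
def T_PR : Prop := ∀ (N D : ℕ) (f : Sp N → ℝ), 2 ≤ N → BM f →
  ∃ P : MvPolynomial (Fin N) ℝ, P.totalDegree ≤ D ∧
    ∀ Q : MvPolynomial (Fin N) ℝ, Q.totalDegree ≤ D →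
      av (fun θ : Sp N => (f θ - ev P (θ : E N)) * ev Q (θ : E N)) = 0

/-- (SW) polynomials are dense. -/
def T_SW : Prop := ∀ (N : ℕ) (f : Sp N → ℝ) (ε : ℝ), 2 ≤ N → Continuous f → 0 < ε →
  ∃ P : MvPolynomial (Fin N) ℝ, ∀ θ : Sp N, |f θ - ev P (θ : E N)| ≤ ε

/-- (KI) the sum of the second angular derivatives. -/
def T_KI : Prop := ∀ (N m : ℕ) (Q : MvPolynomial (Fin N) ℝ), Q.IsHomogeneous m →
  (∀ i j, ∃ Q' : MvPolynomial (Fin N) ℝ, Q'.totalDegree ≤ m ∧ LL i j (ev Q) = ev Q') ∧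
  ∃ Q' : MvPolynomial (Fin N) ℝ, Q'.totalDegree ≤ m - 1 ∧ (m = 0 → Q' = 0) ∧
    ∀ θ : Sp N, -(1 / 2) * ∑ i, ∑ j, LL i j (LL i j (ev Q)) (θ : E N) =
      m * (m + N - 2) * ev Q (θ : E N) + ev Q' (θ : E N)

/-- (KP) the angular Laplacian of a polynomial. -/
def T_KP : Prop := ∀ (N n : ℕ) (Q : MvPolynomial (Fin N) ℝ), 2 ≤ N → Q.totalDegree ≤ n →
  ∃ Q' : MvPolynomial (Fin N) ℝ, Q'.totalDegree ≤ n - 1 ∧ (n = 0 → Q' = 0) ∧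
    ∀ f : E N → ℝ, ContDiff ℝ (⊤ : ℕ∞) f →
      av (fun θ : Sp N => Gb f (ev Q) (θ : E N)) =
        av fun θ : Sp N => f (θ : E N) * (n * (n + N - 2) * ev Q (θ : E N) + ev Q' (θ : E N))

/-- (GF) the spectral gap for polynomials. -/
def T_GF : Prop := ∀ (N d : ℕ) (P : MvPolynomial (Fin N) ℝ), 2 ≤ N →
  (∀ Q : MvPolynomial (Fin N) ℝ, Q.totalDegree < d →
    av (fun θ : Sp N => ev P (θ : E N) * ev Q (θ : E N)) = 0) →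
  (d : ℝ) * (d + N - 2) * av (fun θ : Sp N => ev P (θ : E N) ^ 2) ≤
    av fun θ : Sp N => Gs (ev P) (θ : E N)

/-- (GP) the spectral gap for smooth functions. -/
def T_GP : Prop := ∀ (N d : ℕ) (g : E N → ℝ), 2 ≤ N → ContDiff ℝ (⊤ : ℕ∞) g →
  (∀ Q : MvPolynomial (Fin N) ℝ, Q.totalDegree < d →
    av (fun θ : Sp N => g (θ : E N) * ev Q (θ : E N)) = 0) →
  (d : ℝ) * (d + N - 2) * av (fun θ : Sp N => g (θ : E N) ^ 2) ≤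
    av fun θ : Sp N => Gs g (θ : E N)

/-- (SG) the first spectral gap. -/
def T_SG : Prop := ∀ (N : ℕ) (g : E N → ℝ), 2 ≤ N → ContDiff ℝ (⊤ : ℕ∞) g →
  ((N : ℝ) - 1) * (av (fun θ : Sp N => g (θ : E N) ^ 2) - av (fun θ : Sp N => g (θ : E N)) ^ 2) ≤
    av fun θ : Sp N => Gs g (θ : E N)

/-- (S1) the angular energy of polynomials of degree `2`. -/
def T_S1 : Prop := ∀ (N : ℕ) (m : ℝ) (c : Fin N → ℝ) (B : Fin N → Fin N → ℝ), 2 ≤ N →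
  (∀ j k, B j k = B k j) → ∑ j, B j j = 0 →
  av (fun θ : Sp N => Gs (fun x : E N => m + (∑ j, c j * x j) +
    ∑ j, ∑ k, B j k * (x j * x k)) (θ : E N)) =
    ((N : ℝ) - 1) / N * (∑ j, c j ^ 2) + 4 / ((N : ℝ) + 2) * ∑ j, ∑ k, B j k ^ 2

/-- (SE) the angular energy. -/
def T_SE : Prop := ∀ (N : ℕ) (g : E N → ℝ), 2 ≤ N → ContDiff ℝ (⊤ : ℕ∞) g →
  ((N : ℝ) - 1) * n1 (rs g 1) + 2 * N * n2 (rs g 1) + 3 * ((N : ℝ) + 1) * n3 (rs g 1) ≤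
    av fun θ : Sp N => Gs g (θ : E N)

/-! ### D. The inner ball -/

/-- (CO) means depend smoothly on the radius. -/
def T_CO : Prop := ∀ N : ℕ, 2 ≤ N →
  (∀ G : ℝ × Sp N → ℝ, Continuous G → Continuous fun r : ℝ => av fun θ => G (r, θ)) ∧
  ∀ v : E N → ℝ, ContDiff ℝ (⊤ : ℕ∞) v →
    Continuous (fun q : ℝ × Sp N => rs v q.1 q.2) ∧
    Continuous (fun q : ℝ × Sp N => dr v q.1 q.2) ∧
    (∀ (r : ℝ) (θ : Sp N), HasDerivAt (fun r => rs v r θ) (dr v r θ) r) ∧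
    (∀ P : Sp N → ℝ, Continuous P → ∀ r : ℝ,
      HasDerivAt (fun r => av fun θ => rs v r θ * P θ) (av fun θ => dr v r θ * P θ) r)

/-- (CP) the coefficients as functions of the radius. -/
def T_CP : Prop := ∀ N : ℕ, 2 ≤ N → ∀ v : E N → ℝ, ContDiff ℝ (⊤ : ℕ∞) v →
    C1 (fun r => av (rs v r)) (fun r => av (dr v r)) ∧
    (∀ j, C1 (fun r => c1 (rs v r) j) (fun r => c1 (dr v r) j)) ∧
    (∀ j k, C1 (fun r => c2 (rs v r) j k) (fun r => c2 (dr v r) j k)) ∧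
    (∀ θ, C1 (fun r => r3 (rs v r) θ) (fun r => r3 (dr v r) θ)) ∧
    Continuous (fun q : ℝ × Sp N => r3 (rs v q.1) q.2) ∧
    Continuous (fun q : ℝ × Sp N => r3 (dr v q.1) q.2) ∧
    (∀ j, c1 (rs v 0) j = 0) ∧ (∀ j k, c2 (rs v 0) j k = 0) ∧ ∀ θ, r3 (rs v 0) θ = 0

/-- (I1) the energy in terms of the parts of different degree. -/
def T_I1 : Prop := ∀ (N : ℕ) (L a : ℝ) (v : E N → ℝ), 2 ≤ N → 0 < a →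
  ContDiff ℝ (⊤ : ℕ∞) v →
  ar N * (∫ r in (0 : ℝ)..a, r ^ (N - 1) * ((n0 (dr v r) - L * n0 (rs v r)) +
      (n1 (dr v r) + (((N : ℝ) - 1) / r ^ 2 - L) * n1 (rs v r)) +
      (n2 (dr v r) + (2 * N / r ^ 2 - L) * n2 (rs v r)) +
      (n3 (dr v r) + (3 * ((N : ℝ) + 1) / r ^ 2 - L) * n3 (rs v r)))) ≤
    ∫ x in ball (0 : E N) a, (‖fderiv ℝ v x‖ ^ 2 - L * v x ^ 2)

/-- (I2) the inequality in the inner ball. -/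
def T_I2 : Prop := ∀ (N : ℕ) (L r₁ μ a : ℝ) (v : E N → ℝ) (T : E N), 2 ≤ N → Fz N L →
  Z0 N L r₁ → 1 ≤ μ → r₁ / μ < a → μ * a < 1 → ContDiff ℝ (⊤ : ℕ∞) v →
  av (rs v (r₁ / μ)) = 0 → (∀ j, c1 (rs v a) j = T j * ph N L 1 a) →
  ar N * (a ^ (N - 1) * (dph N L 1 a * ph N L 1 a) * (‖T‖ ^ 2 / N) +
      dd N L 2 μ a * n2 (rs v a) + dd N L 3 μ a * n3 (rs v a)) +
      (μ ^ 2 - 1) * L * (∫ x in ball (0 : E N) a, (v x - gT L T x) ^ 2) ≤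
    ∫ x in ball (0 : E N) a, (‖fderiv ℝ v x‖ ^ 2 - L * v x ^ 2)

/-! ### E. The outer region -/

/-- (EX) the first exit. -/
def T_EX : Prop := ∀ (N : ℕ) (Ω : Set (E N)) (a b : ℝ), 2 ≤ N → 0 < a → a < b → IsOpen Ω →
  closedBall 0 a ⊆ Ω → ∃ R, Ex Ω a b R

/-- (ME) the mean over spheres in the outer region. -/
def T_ME : Prop := ∀ (N : ℕ) (L : ℝ), 2 ≤ N → Fz N L →
  ∃ C δ₀ : ℝ, 0 < C ∧ 0 < δ₀ ∧ δ₀ ≤ 1 / 20 ∧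
    ∀ (δ : ℝ) (R : Sp N → ℝ) (u : E N → ℝ) (T : E N), 0 < δ → δ ≤ δ₀ → Measurable R →
      (∀ θ, 1 - δ < R θ ∧ R θ ≤ 1 + 5 * δ) → Continuous u →
      ∫ r in (1 - δ)..(1 + 5 * δ), av (rs u r) ^ 2 ≤
        C * (δ * ‖T‖ ^ 2 * av (fun θ => (R θ - 1) ^ 2) +
          av (fun θ => ∫ r in (1 - δ)..R θ, (rs u r θ - inner ℝ T (θ : E N) * ph N L 1 r) ^ 2) +
          av (fun θ => ∫ r in R θ..(1 + 5 * δ), rs u r θ ^ 2))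

/-- (O2) the energy in the outer region. -/
def T_O2 : Prop := ∀ (N : ℕ) (L δ : ℝ) (u : E N → ℝ), 2 ≤ N → 0 < δ → δ ≤ 1 / 20 →
  ContDiff ℝ (⊤ : ℕ∞) u →
  av (fun θ => ∫ r in (1 - δ)..(1 + 5 * δ), r ^ (N - 1) *
        (dr u r θ ^ 2 + (((N : ℝ) - 1) / r ^ 2 - L) * rs u r θ ^ 2)) -
      δ ^ 2 * av (fun θ => ∫ r in (1 + δ / 2)..(1 + 5 * δ), r ^ (N - 1) *
        (dr u r θ ^ 2 + (((N : ℝ) - 1) / r ^ 2 + 1) * rs u r θ ^ 2)) -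
      N * 2 ^ N * (∫ r in (1 - δ)..(1 + 5 * δ), av (rs u r) ^ 2) ≤
    1 / ar N * ((∫ x in an (1 - δ) (1 + 5 * δ), (‖fderiv ℝ u x‖ ^ 2 - L * u x ^ 2)) -
      δ ^ 2 * ∫ x in an (1 + δ / 2) (1 + 5 * δ), (‖fderiv ℝ u x‖ ^ 2 + u x ^ 2))

/-- (OU) the inequality in the outer region. -/
def T_OU : Prop := ∀ (N : ℕ) (L : ℝ), 2 ≤ N → Fz N L →
  ∃ C c δ₀ : ℝ, 0 < C ∧ 0 < c ∧ 0 < δ₀ ∧ δ₀ ≤ 1 / 20 ∧
    ∀ (δ : ℝ) (Ω : Set (E N)) (R : Sp N → ℝ) (u : E N → ℝ) (T : E N), 0 < δ → δ ≤ δ₀ →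
      Ex Ω (1 - δ) (1 + 5 * δ) R → ContDiff ℝ (⊤ : ℕ∞) u → (∀ x, x ∉ Ω → u x = 0) →
      (∀ x, 1 + 5 * δ ≤ ‖x‖ → u x = 0) →
      av (fun θ => inner ℝ T (θ : E N) ^ 2 * ff N L (R θ)) +
          (1 - C * δ) * av (fun θ => ∫ r in (1 - δ)..R θ,
            (dr u r θ - inner ℝ T (θ : E N) * dph N L 1 r) ^ 2) +
          c / δ ^ 2 * av (fun θ => ∫ r in R θ..(1 + 5 * δ), rs u r θ ^ 2) -
          C * δ * av (fun θ => (rs u (1 - δ) θ - inner ℝ T (θ : E N) * ph N L 1 (1 - δ)) ^ 2) -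
          C * δ * ‖T‖ ^ 2 * av (fun θ => (R θ - 1) ^ 2) ≤
        1 / ar N * ((∫ x in an (1 - δ) (1 + 5 * δ), (‖fderiv ℝ u x‖ ^ 2 - L * u x ^ 2)) -
          δ ^ 2 * ∫ x in an (1 + δ / 2) (1 + 5 * δ), (‖fderiv ℝ u x‖ ^ 2 + u x ^ 2)) +
        av (fun θ => (1 - δ) ^ (N - 1) * dph N L 1 (1 - δ) *
          (inner ℝ T (θ : E N) ^ 2 * ph N L 1 (1 - δ) + 2 * inner ℝ T (θ : E N) *
            (rs u (1 - δ) θ - inner ℝ T (θ : E N) * ph N L 1 (1 - δ))))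

/-! ### F. The far part -/

/-- (SM) functions with support of small measure. -/
def T_SM : Prop := ∀ N : ℕ, 2 ≤ N → ∀ ε : ℝ, 0 < ε → ∃ κ : ℝ, 0 < κ ∧
  ∀ (O : Set (E N)) (v : E N → ℝ), IsOpen O → volume O ≤ ENNReal.ofReal κ →
    ContDiff ℝ (⊤ : ℕ∞) v → HasCompactSupport v → tsupport v ⊆ O →
    ∫ x, v x ^ 2 ≤ ε * ∫ x, ‖fderiv ℝ v x‖ ^ 2

/-- (CU) radial cutoff functions. -/
def T_CU : Prop := ∀ (N : ℕ) (c d : ℝ), 2 ≤ N → 0 < c → c < d →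
  ∃ χ η : E N → ℝ, ContDiff ℝ (⊤ : ℕ∞) χ ∧ ContDiff ℝ (⊤ : ℕ∞) η ∧
    (∀ x, χ x ^ 2 + η x ^ 2 = 1) ∧ (∀ x, 0 ≤ χ x ∧ 0 ≤ η x) ∧
    (∀ x, ‖x‖ ≤ c → χ x = 1 ∧ η x = 0) ∧ (∀ x, d ≤ ‖x‖ → χ x = 0 ∧ η x = 1) ∧
    ∃ M : ℝ, ∀ x, ‖fderiv ℝ χ x‖ ^ 2 + ‖fderiv ℝ η x‖ ^ 2 ≤ M

/-- (IM) the localization formula. -/
def T_IM : Prop := ∀ (N : ℕ) (χ η v : E N → ℝ), ContDiff ℝ (⊤ : ℕ∞) χ → ContDiff ℝ (⊤ : ℕ∞) η →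
  ContDiff ℝ (⊤ : ℕ∞) v → (∀ x, χ x ^ 2 + η x ^ 2 = 1) →
  ∀ x, ‖fderiv ℝ (fun x => χ x * v x) x‖ ^ 2 + ‖fderiv ℝ (fun x => η x * v x) x‖ ^ 2 =
    ‖fderiv ℝ v x‖ ^ 2 + (‖fderiv ℝ χ x‖ ^ 2 + ‖fderiv ℝ η x‖ ^ 2) * v x ^ 2

/-- (FA) removal of the far part. -/
def T_FA : Prop := ∀ (N : ℕ) (L δ : ℝ), 2 ≤ N → 0 < L → 0 < δ → δ ≤ 1 / 20 →
  ∃ κ : ℝ, 0 < κ ∧ ∀ (Ω : Set (E N)) (v : E N → ℝ), IsOpen Ω →
    volume (Ω \ closedBall 0 (1 + δ / 2)) ≤ ENNReal.ofReal κ →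
    ContDiff ℝ (⊤ : ℕ∞) v → HasCompactSupport v → tsupport v ⊆ Ω →
    ∃ u y : E N → ℝ, ContDiff ℝ (⊤ : ℕ∞) u ∧ ContDiff ℝ (⊤ : ℕ∞) y ∧ HasCompactSupport u ∧
      HasCompactSupport y ∧ (∀ x, x ∉ Ω → u x = 0) ∧ (∀ x, 1 + 5 * δ ≤ ‖x‖ → u x = 0) ∧
      (∀ x, ‖x‖ ≤ 1 + δ → u x = v x) ∧ (∀ x, u x ^ 2 + y x ^ 2 = v x ^ 2) ∧
      (∫ x, ‖fderiv ℝ u x‖ ^ 2) - L * (∫ x, u x ^ 2) -
          δ ^ 2 * (∫ x in an (1 + δ / 2) (1 + 5 * δ), (‖fderiv ℝ u x‖ ^ 2 + u x ^ 2)) +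
          ∫ x, y x ^ 2 ≤
        (∫ x, ‖fderiv ℝ v x‖ ^ 2) - L * ∫ x, v x ^ 2

/-! ### G. Centre and volumes -/

/-- (CD) critical points of the Gaussian potential. -/
def T_CD : Prop := ∀ (N : ℕ) (Ω : Set (E N)) (o : E N), MeasurableSet Ω → volume Ω ≠ ⊤ →
  (∀ z : E N, ∫ x in Ω, Real.exp (-‖x - z‖ ^ 2) ≤ ∫ x in Ω, Real.exp (-‖x - o‖ ^ 2)) →
  ∀ i, ∫ x in Ω, (x i - o i) * Real.exp (-‖x - o‖ ^ 2) = 0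

/-- (CM) the Gaussian potential has a maximum. -/
def T_CM : Prop := ∀ (N : ℕ) (Ω : Set (E N)), 2 ≤ N → MeasurableSet Ω → volume Ω ≠ ⊤ →
  0 < volume Ω → ∃ o : E N, ∀ z : E N,
    ∫ x in Ω, Real.exp (-‖x - z‖ ^ 2) ≤ ∫ x in Ω, Real.exp (-‖x - o‖ ^ 2)

/-- (CB) the Gaussian potential of a ball. -/
def T_CB : Prop := ∀ (N : ℕ) (ε : ℝ), 2 ≤ N → 0 < ε → ∃ k : ℝ, 0 < k ∧ ∀ o c : E N,
  ε ≤ ‖o - c‖ → (∫ x in ball c 1, Real.exp (-‖x - o‖ ^ 2)) + k ≤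
    ∫ x in ball c 1, Real.exp (-‖x - c‖ ^ 2)

/-- (CE) the centre. -/
def T_CE : Prop := ∀ (N : ℕ) (ε : ℝ), 2 ≤ N → 0 < ε → ∃ κ : ℝ, 0 < κ ∧ κ < 1 ∧
  ∀ (Ω : Set (E N)) (c : E N), IsOpen Ω → volume Ω = volume (ball (0 : E N) 1) →
    ball c (1 - κ) ⊆ Ω → ∃ o : E N, ‖o - c‖ ≤ ε ∧
      ∀ i, ∫ x in Ω, (x i - o i) * Real.exp (-‖x - o‖ ^ 2) = 0

/-- (V1) volumes and the first exit. -/
def T_V1 : Prop := ∀ (N : ℕ) (Ω : Set (E N)) (a b : ℝ) (R : Sp N → ℝ), 2 ≤ N → 0 < a → a < b →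
  IsOpen Ω → volume Ω = volume (ball (0 : E N) 1) → Ex Ω a b R →
  0 ≤ 1 - av (fun θ => R θ ^ N) ∧
  volume.real (Ω \ ball (0 : E N) b) ≤
    volume.real (ball (0 : E N) 1) * (1 - av (fun θ => R θ ^ N))

/-- (V2) the symmetric difference. -/
def T_V2 : Prop := ∀ (N : ℕ) (Ω : Set (E N)) (a b : ℝ) (R : Sp N → ℝ), 2 ≤ N → 0 < a → 1 ≤ b →
  IsOpen Ω → volume Ω = volume (ball (0 : E N) 1) → Ex Ω a b R →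
  volume.real (symmDiff Ω (ball (0 : E N) 1)) ≤
    2 * volume.real (ball (0 : E N) 1) * av (fun θ => |R θ ^ N - 1|)

/-- (V3) the centre and the first exit. -/
def T_V3 : Prop := ∀ (N : ℕ) (Ω : Set (E N)) (a b : ℝ) (R : Sp N → ℝ), 2 ≤ N → 0 < a → a < b →
  IsOpen Ω → volume Ω = volume (ball (0 : E N) 1) → Ex Ω a b R →
  (∀ i, ∫ x in Ω, x i * Real.exp (-‖x‖ ^ 2) = 0) →
  ∀ i, |av (fun θ => (qq N (R θ) - qq N 1) * (θ : E N) i)| ≤ 1 - av (fun θ => R θ ^ N)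

/-! ### H. Sum over the directions -/

/-- (U1) perturbation from `ω` to `z`. -/
def T_U1 : Prop := ∀ (N : ℕ) (D : ℝ), 2 ≤ N → ∀ C s : ℝ, 0 < C → 0 < s → s ≤ 1 →
  ∃ δ₀ : ℝ, 0 < δ₀ ∧ ∀ (δ d₂ d₃ : ℝ) (ω z e : Sp N → ℝ), 0 < δ → δ ≤ δ₀ → -(N : ℝ) - s ≤ d₂ →
    D - s ≤ d₃ → BM ω → BM z → BM e → (∀ θ, (ω θ - z θ) ^ 2 ≤ 6 * δ * e θ) →
    (∀ j, av (fun θ => ω θ * (θ : E N) j) = 0) →
    -(N : ℝ) * n2 z + D * n3 z + 1 / δ ^ (1 / 2 : ℝ) * n1 z -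
        (2 * N + 2 * |D| + 6) * s * av (fun θ => z θ ^ 2) ≤
      d₂ * n2 ω + d₃ * n3 ω + 1 / 2 * av e - C * δ * av fun θ => ω θ ^ 2

/-- (U2) the functions `α θ_i`. -/
def T_U2 : Prop := ∀ (N : ℕ) (D : ℝ), 2 ≤ N → 3 < ((N : ℝ) + 1) * (D + N - 1) →
  ∃ c C : ℝ, 0 < c ∧ 0 < C ∧ ∀ (α : Sp N → ℝ) (K : ℝ), BM α → C ≤ K →
    c * av (fun θ => α θ ^ 2) - C * (av α ^ 2 + ∑ j, av (fun θ => α θ * (θ : E N) j) ^ 2) ≤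
      ((N : ℝ) - 1) * av (fun θ => α θ ^ 2) +
        ∑ i, (-(N : ℝ) * n2 (fun θ => α θ * (θ : E N) i) +
          D * n3 (fun θ => α θ * (θ : E N) i) + K * n1 (fun θ => α θ * (θ : E N) i))

/-- (SA) estimates for `p (R)`. -/
def T_SA : Prop := ∀ (N : ℕ) (L : ℝ), 2 ≤ N → Fz N L → ∃ C c δ₀ : ℝ, 0 < C ∧ 0 < c ∧ 0 < δ₀ ∧
  δ₀ ≤ 1 / 20 ∧ ∀ (δ : ℝ) (R : Sp N → ℝ), 0 < δ → δ ≤ δ₀ → Measurable R →
    (∀ θ, 1 - δ < R θ ∧ R θ ≤ 1 + 5 * δ) → 0 ≤ 1 - av (fun θ => R θ ^ N) →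
    (∀ i, |av (fun θ => (qq N (R θ) - qq N 1) * (θ : E N) i)| ≤ 1 - av (fun θ => R θ ^ N)) →
    av (fun θ => ph N L 1 (R θ)) ^ 2 + ∑ j, av (fun θ => ph N L 1 (R θ) * (θ : E N) j) ^ 2 ≤
      C * δ * ((1 - av (fun θ => R θ ^ N)) + av (fun θ => (R θ - 1) ^ 2)) ∧
    c * (1 - av (fun θ => R θ ^ N)) + ((N : ℝ) - 1) * av (fun θ => ph N L 1 (R θ) ^ 2) -
      C * δ * av (fun θ => (R θ - 1) ^ 2) ≤ av (fun θ => ff N L (R θ)) ∧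
    c * av (fun θ => (R θ - 1) ^ 2) ≤ av (fun θ => ph N L 1 (R θ) ^ 2) ∧
    av (fun θ => ph N L 1 (R θ) ^ 2) ≤ C * av (fun θ => (R θ - 1) ^ 2)

/-- (SU) the sum over the directions. -/
def T_SU : Prop := ∀ (N : ℕ) (L : ℝ), 2 ≤ N → Fz N L → ∀ C : ℝ, 0 < C →
  ∃ c s δ₀ : ℝ, 0 < c ∧ 0 < s ∧ 0 < δ₀ ∧ δ₀ ≤ 1 / 20 ∧
    ∀ (δ d₂ d₃ : ℝ) (R : Sp N → ℝ) (ω e : Fin N → Sp N → ℝ), 0 < δ → δ ≤ δ₀ →
      -(N : ℝ) - s ≤ d₂ → (L / ((N : ℝ) + 2) - ((N : ℝ) + 1)) - s ≤ d₃ → Measurable R →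
      (∀ θ, 1 - δ < R θ ∧ R θ ≤ 1 + 5 * δ) →
      (∀ i, BM (ω i) ∧ BM (e i) ∧
        (∀ θ, (ω i θ + (θ : E N) i * ph N L 1 (R θ)) ^ 2 ≤ 6 * δ * e i θ) ∧
        ∀ j, av (fun θ => ω i θ * (θ : E N) j) = 0) →
      0 ≤ 1 - av (fun θ => R θ ^ N) →
      (∀ i, |av (fun θ => (qq N (R θ) - qq N 1) * (θ : E N) i)| ≤ 1 - av (fun θ => R θ ^ N)) →
      c * ((1 - av (fun θ => R θ ^ N)) + av (fun θ => (R θ - 1) ^ 2)) ≤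
        ∑ i, (av (fun θ => (θ : E N) i ^ 2 * ff N L (R θ)) + d₂ * n2 (ω i) + d₃ * n3 (ω i) +
          1 / 2 * av (e i) - C * δ * av (fun θ => ω i θ ^ 2) -
          C * δ * av (fun θ => (R θ - 1) ^ 2))

/-- (DI) linear algebra. -/
def T_DI : Prop := ∀ (N : ℕ) (V : Submodule ℝ (E N → ℝ)) (l : (E N → ℝ) → ℝ)
  (T : (E N → ℝ) → E N), Module.finrank ℝ V = N + 1 →
  (∀ v ∈ V, ∀ w ∈ V, l (v + w) = l v + l w ∧ T (v + w) = T v + T w) →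
  (∀ v ∈ V, ∀ k : ℝ, l (k • v) = k * l v ∧ T (k • v) = k • T v) →
  (∀ v ∈ V, l v = 0 → T v = 0 → v = 0) → ∀ e : E N, ∃ v ∈ V, l v = 0 ∧ T v = e

/-! ### I. The theorem -/

/-- (EN) the inequality for one function. -/
def T_EN : Prop := ∀ (N : ℕ) (L r₁ : ℝ), 2 ≤ N → Fz N L → Z0 N L r₁ →
  ∃ C δ₀ : ℝ, 0 < C ∧ 0 < δ₀ ∧ δ₀ ≤ 1 / 20 ∧ r₁ < 1 - δ₀ ∧ ∀ δ : ℝ, 0 < δ → δ ≤ δ₀ →
    ∃ κ c : ℝ, 0 < κ ∧ 0 < c ∧ ∀ (Ω : Set (E N)) (R : Sp N → ℝ) (v : E N → ℝ) (T : E N),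
      IsOpen Ω → volume (Ω \ closedBall 0 (1 + δ / 2)) ≤ ENNReal.ofReal κ →
      Ex Ω (1 - δ) (1 + 5 * δ) R → ContDiff ℝ (⊤ : ℕ∞) v → HasCompactSupport v →
      tsupport v ⊆ Ω → av (rs v (r₁ / (1 + δ / 2))) = 0 →
      (∀ j, c1 (rs v (1 - δ)) j = T j * ph N L 1 (1 - δ)) →
      ∃ (e : Sp N → ℝ) (W : ℝ), BM e ∧ (∀ θ, 0 ≤ e θ) ∧ 0 ≤ W ∧
        (∀ θ, (rs v (1 - δ) θ - inner ℝ T (θ : E N) * ph N L 1 (1 - δ) +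
          inner ℝ T (θ : E N) * ph N L 1 (R θ)) ^ 2 ≤ 6 * δ * e θ) ∧
        ∫ x, v x ^ 2 ≤ C * ‖T‖ ^ 2 + 2 * W ∧
        ar N * (av (fun θ => inner ℝ T (θ : E N) ^ 2 * ff N L (R θ)) +
          dd N L 2 (1 + δ / 2) (1 - δ) * n2 (rs v (1 - δ)) +
          dd N L 3 (1 + δ / 2) (1 - δ) * n3 (rs v (1 - δ)) + 1 / 2 * av e -
          C * δ * av (fun θ => (rs v (1 - δ) θ - inner ℝ T (θ : E N) * ph N L 1 (1 - δ)) ^ 2) -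
          C * δ * ‖T‖ ^ 2 * av (fun θ => (R θ - 1) ^ 2)) + c * W ≤
        (∫ x, ‖fderiv ℝ v x‖ ^ 2) - L * ∫ x, v x ^ 2

/-- (CR) the theorem for centred sets. -/
def T_CR : Prop := ∀ (N : ℕ) (L ε : ℝ), 2 ≤ N → Fz N L → 0 < ε → ∃ κ c : ℝ, 0 < κ ∧ κ < 1 ∧ 0 < c ∧
  ∀ (Ω : Set (E N)) (γ : ℝ), IsOpen Ω → volume Ω = volume (ball (0 : E N) 1) →
    ball 0 (1 - κ) ⊆ Ω → (∀ i, ∫ x in Ω, x i * Real.exp (-‖x‖ ^ 2) = 0) →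
    γ ∈ adm N (N + 1) Ω →
    L + c * volume.real (symmDiff Ω (ball (0 : E N) 1)) ^ 2 +
      c * volume.real (Ω \ ball (0 : E N) (1 + ε)) ≤ γ

/-- (TR) translation. -/
def T_TR : Prop := ∀ (N n : ℕ) (o : E N) (Ω : Set (E N)),
  adm N n ((fun x => o + x) ⁻¹' Ω) = adm N n Ω

/-- (UA) radial test functions. -/
def T_UA : Prop := ∀ (N : ℕ) (L ε : ℝ), 2 ≤ N → Fz N L → 0 < ε → ∃ (a : ℝ → ℝ) (δ : ℝ), Ann a δ ∧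
  0 < ∫ t in Ioi (0 : ℝ), a t ^ 2 * t ^ (N - 1) ∧
  ∫ t in Ioi (0 : ℝ), (deriv a t ^ 2 + ((N : ℝ) - 1) * a t ^ 2 / t ^ 2) * t ^ (N - 1) ≤
    (L + ε) * ∫ t in Ioi (0 : ℝ), a t ^ 2 * t ^ (N - 1)

/-- (UB) the upper bound for the ball. -/
def T_UB : Prop := ∀ (N : ℕ) (L : ℝ), 2 ≤ N → Fz N L → lam N (N + 1) (ball (0 : E N) 1) ≤ L

/-- (LQ) the theorem. -/
def T_LQ : Prop := ∀ (N : ℕ) (ε : ℝ), 2 ≤ N → 0 < ε → ∃ κ c : ℝ, 0 < κ ∧ κ < 1 ∧ 0 < c ∧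
  ∀ (r : ℝ) (z : E N) (Ω : Set (E N)), 0 < r → IsOpen Ω →
    volume Ω = volume (ball (0 : E N) r) → ball z ((1 - κ) * r) ⊆ Ω →
    ∃ o : E N, lam N (N + 1) (ball (0 : E N) r) *
      (1 + c * (volume.real (symmDiff Ω (ball o r)) / volume.real (ball (0 : E N) r)) ^ 2 +
        c * (volume.real (Ω \ ball o ((1 + ε) * r)) / volume.real (ball (0 : E N) r))) ≤
        lam N (N + 1) Ω

end Pool.Agent.H69.LQ
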